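import Pool.Agent.KTR.Loop

/-!
# KTR-Cls: the class of a product of relators

PLAN. `R = (lift gen).ker = normalClosure (range Γ.rel)`. (1) For `r ∈ R` there is `c r : E → ℤ[H]` with
`fd gen r v = bd Γ gen (c r) v` for all `v` (`fd_normal`), unique by `hA : Asph Γ gen` (the difference of two solutions
is killed by the Jacobian). So `c` is additive: `c (r r') = c r + c r'` (`fd_mul`, `lift gen r = 1`), and
`c (u r u⁻¹) = single (lift gen u) 1 * c r` for `u` in the free group. `cls r e = mapDomainRingHom φ (c r e)`: a homomorphism to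
`Multiplicative (E → ℤ[G])`. (2) `fd γ r v = bd Γ γ (cls r) v` with `γ = φ ∘ gen`: apply `mapDomainRingHom φ` and use
`fd_map`, `jac_map`. (3) surjective: `cls` of `u (rel e) u⁻¹` is `single (φ (lift gen u)) 1` at `e` (because
`c (rel e)` is `1` at `e`, by uniqueness and `fd_rel`), these generate (`Finsupp` induction; `φ ∘ lift gen` is onto).
(4) `cls r = 1 → r ∈ ⁅S, R⁆`, `S = (lift γ).ker`: let `Q` be the quotient of `R` by `⁅S, R⁆.subgroupOf R` (normal; `Q` is
commutative since `R ≤ S`). Let `s : G → FreeGroup V` be a section of `lift γ`. There is a homomorphism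
`ϑ : Multiplicative (E → ℤ[G]) →* Q` (or additive, use `Additive Q`) with `ϑ (single g 1 at e) = class of s g (rel e) (s g)⁻¹`
(`E → ℤ[G]` is free abelian on `E × G`: define it as a sum over `e` of `Finsupp.liftAddHom`). Then `ϑ (cls r) = class of r`
for all `r ∈ R`: both sides are homomorphisms in `r`, so it is enough to check the conjugates `u (rel e) u⁻¹`
(`Subgroup.closure_induction` with `Subgroup.normalClosure`): `s (lift γ u) = u k` with `k ∈ S`, and
`(u k) (rel e) (u k)⁻¹ ≡ u (rel e) u⁻¹` mod `⁅S, R⁆`. (5) `r ∈ ⁅S, R⁆ → cls r = 1`: on generators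
`k r' k⁻¹ r'⁻¹` (`k ∈ S`): `cls = single (lift γ k) * cls r' - cls r' = 0` (`Subgroup.commutator_le`). Keep helpers
private.
-/

namespace Pool.Agent.KTR

open Finset Pool.Agent.LOT

section
variable {V E H : Type} [Group H]

/-- the conjugate of a relator -/
private def rho {Γ : LOG V E} {gen : V → H} (hP : IsPres Γ gen) (u : FreeGroup V) (e : E) :
    ↥(FreeGroup.lift gen).ker :=
  ⟨u * Γ.rel e * u⁻¹, by
    rw [hP.ker]
    exact Subgroup.normalClosure_normal.conj_mem _
      (Subgroup.subset_normalClosure (Set.mem_range_self e)) u⟩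

private theorem gen_R {Γ : LOG V E} {gen : V → H} (hP : IsPres Γ gen)
    (L : Subgroup ↥(FreeGroup.lift gen).ker) (h : ∀ u e, rho hP u e ∈ L)
    (r : ↥(FreeGroup.lift gen).ker) : r ∈ L := by
  have h1 : Subgroup.normalClosure (Set.range Γ.rel) ≤
      L.map (FreeGroup.lift gen).ker.subtype := by
    unfold Subgroup.normalClosure
    rw [Subgroup.closure_le]
    intro x hx
    obtain ⟨a, ⟨e, rfl⟩, hc⟩ := Group.mem_conjugatesOfSet_iff.1 hx
    obtain ⟨u, rfl⟩ := isConj_iff.1 hc
    exact ⟨rho hP u e, h u e, rfl⟩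
  obtain ⟨r', hr', he⟩ := h1 (hP.ker.le r.2)
  have h2 : r' = r := Subtype.ext he
  rw [← h2]
  exact hr'

end

section
variable {V E G R Q : Type} [Group G] [Fintype E] [DecidableEq E] [Group R]

private theorem surj_aux (cls : R →* Multiplicative (E → MonoidAlgebra ℤ G))
    (ρ : FreeGroup V → E → R) (lam : FreeGroup V →* G) (hs : Function.Surjective lam)
    (hcls : ∀ u e, cls (ρ u e) =
      Multiplicative.ofAdd (Pi.single e (MonoidAlgebra.single (lam u) (1 : ℤ)))) :
    Function.Surjective cls := by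
  have h1 : ∀ (e : E) (y : MonoidAlgebra ℤ G),
      Multiplicative.ofAdd (Pi.single e y : E → MonoidAlgebra ℤ G) ∈ cls.range := by
    intro e y
    induction y using MonoidAlgebra.induction_linear with
    | zero =>
      rw [Pi.single_zero]
      exact one_mem _
    | add a b ha hb =>
      rw [Pi.single_add, ofAdd_add]
      exact mul_mem ha hb
    | single g n =>
      obtain ⟨u, rfl⟩ := hs g
      have h2 : (MonoidAlgebra.single (lam u) n : MonoidAlgebra ℤ G) =
          n • MonoidAlgebra.single (lam u) (1 : ℤ) := by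
        rw [MonoidAlgebra.smul_single, smul_eq_mul, mul_one]
      have h3 : (Pi.single e (MonoidAlgebra.single (lam u) n) : E → MonoidAlgebra ℤ G) =
          n • Pi.single e (MonoidAlgebra.single (lam u) (1 : ℤ)) := by
        rw [h2, Pi.single_smul]
      rw [h3, ofAdd_zsmul, ← hcls]
      have h4 : cls (ρ u e) ∈ cls.range := ⟨ρ u e, rfl⟩
      exact zpow_mem h4 n
  intro x
  have h2 : x ∈ cls.range := by
    have h3 : x = ∏ e, Multiplicative.ofAdd (Pi.single e (Multiplicative.toAdd x e) :
        E → MonoidAlgebra ℤ G) := by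
      rw [← ofAdd_sum, Finset.univ_sum_single]
      rfl
    rw [h3]
    exact Subgroup.prod_mem _ fun e _ => h1 e _
  exact h2

private theorem theta [CommGroup Q] (cls : R →* Multiplicative (E → MonoidAlgebra ℤ G))
    (q : R →* Q) (ρ : FreeGroup V → E → R) (lam : FreeGroup V →* G)
    (hs : Function.Surjective lam)
    (hgen : ∀ L : Subgroup R, (∀ u e, ρ u e ∈ L) → ∀ r, r ∈ L)
    (hcls : ∀ u e, cls (ρ u e) =
      Multiplicative.ofAdd (Pi.single e (MonoidAlgebra.single (lam u) (1 : ℤ))))
    (hq : ∀ u u' e, lam u = lam u' → q (ρ u e) = q (ρ u' e)) (r : R) (hr : cls r = 1) :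
    q r = 1 := by
  choose s hs' using hs
  obtain ⟨θ, hθ⟩ : ∃ θ : E → (MonoidAlgebra ℤ G →+ Additive Q),
      ∀ e g, θ e (MonoidAlgebra.single g 1) = Additive.ofMul (q (ρ (s g) e)) := by
    refine ⟨fun e => (Finsupp.liftAddHom (fun g => (zmultiplesHom (Additive Q))
      (Additive.ofMul (q (ρ (s g) e))))).comp MonoidAlgebra.coeffAddEquiv.toAddMonoidHom,
      fun e g => ?_⟩
    change (Finsupp.liftAddHom (fun g => (zmultiplesHom (Additive Q))
      (Additive.ofMul (q (ρ (s g) e))))) (Finsupp.single g 1) = _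
    rw [Finsupp.liftAddHom_apply_single]
    simp
  let T : (E → MonoidAlgebra ℤ G) →+ Additive Q :=
    ∑ e, (θ e).comp (Pi.evalAddMonoidHom (fun _ => MonoidAlgebra ℤ G) e)
  have hT : ∀ x, T x = ∑ e, θ e (x e) := by
    intro x
    change (∑ e, (θ e).comp (Pi.evalAddMonoidHom (fun _ => MonoidAlgebra ℤ G) e)) x = _
    rw [AddMonoidHom.finsetSum_apply]
    rfl
  let L : Subgroup R :=
    { carrier := {r | T (Multiplicative.toAdd (cls r)) = Additive.ofMul (q r)}
      one_mem' := by
        change T (Multiplicative.toAdd (cls 1)) = Additive.ofMul (q 1)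
        rw [map_one cls, map_one q, toAdd_one, map_zero, ofMul_one]
      mul_mem' := by
        intro a b ha hb
        change T (Multiplicative.toAdd (cls a)) = Additive.ofMul (q a) at ha
        change T (Multiplicative.toAdd (cls b)) = Additive.ofMul (q b) at hb
        change T (Multiplicative.toAdd (cls (a * b))) = Additive.ofMul (q (a * b))
        rw [map_mul cls, map_mul q, toAdd_mul, map_add, ha, hb, ofMul_mul]
      inv_mem' := by
        intro a ha
        change T (Multiplicative.toAdd (cls a)) = Additive.ofMul (q a) at ha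
        change T (Multiplicative.toAdd (cls a⁻¹)) = Additive.ofMul (q a⁻¹)
        rw [map_inv cls, map_inv q, toAdd_inv, map_neg, ha, ofMul_inv] }
  have h1 : r ∈ L := by
    refine hgen L (fun u e => ?_) r
    change T (Multiplicative.toAdd (cls (ρ u e))) = Additive.ofMul (q (ρ u e))
    rw [hcls, toAdd_ofAdd, hT, Finset.sum_eq_single e, Pi.single_eq_same, hθ,
      hq (s (lam u)) u e (hs' _)]
    · intro e' _ he
      rw [Pi.single_eq_of_ne he, map_zero]
    · intro he
      exact absurd (mem_univ _) he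
  have h2 : T (Multiplicative.toAdd (cls r)) = Additive.ofMul (q r) := h1
  rw [hr, toAdd_one, map_zero] at h2
  exact (ofMul_eq_zero.1 h2.symm)

private theorem theta' [Group Q] (hcomm : ∀ a b : Q, a * b = b * a)
    (cls : R →* Multiplicative (E → MonoidAlgebra ℤ G))
    (q : R →* Q) (ρ : FreeGroup V → E → R) (lam : FreeGroup V →* G)
    (hs : Function.Surjective lam)
    (hgen : ∀ L : Subgroup R, (∀ u e, ρ u e ∈ L) → ∀ r, r ∈ L)
    (hcls : ∀ u e, cls (ρ u e) =
      Multiplicative.ofAdd (Pi.single e (MonoidAlgebra.single (lam u) (1 : ℤ))))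
    (hq : ∀ u u' e, lam u = lam u' → q (ρ u e) = q (ρ u' e)) (r : R) (hr : cls r = 1) :
    q r = 1 := by
  let cg : CommGroup Q := { (inferInstance : Group Q) with mul_comm := hcomm }
  exact theta (Q := Q) cls q ρ lam hs hgen hcls hq r hr

end

section
variable {V E G : Type} [Group G] [Fintype E] [DecidableEq V]

private theorem bd_add (Γ : LOG V E) (γ : V → G) (x y : E → MonoidAlgebra ℤ G) (v : V) :
    bd Γ γ (x + y) v = bd Γ γ x v + bd Γ γ y v := by
  simp only [bd, Pi.add_apply, add_mul, sum_add_distrib]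

private theorem bd_mul (Γ : LOG V E) (γ : V → G) (a : MonoidAlgebra ℤ G)
    (x : E → MonoidAlgebra ℤ G) (v : V) :
    bd Γ γ (fun e => a * x e) v = a * bd Γ γ x v := by
  simp only [bd, mul_assoc, mul_sum]

private theorem bd_single [DecidableEq E] (Γ : LOG V E) (γ : V → G) (e : E) (v : V) :
    bd Γ γ (Pi.single e 1) v = jac Γ γ e v := by
  unfold bd
  rw [Finset.sum_eq_single e]
  · rw [Pi.single_eq_same, one_mul]
  · intro e' _ he
    rw [Pi.single_eq_of_ne he, zero_mul]
  · intro he
    exact absurd (mem_univ _) he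

private theorem bd_inj {Γ : LOG V E} {γ : V → G} (hA : Asph Γ γ) {x y : E → MonoidAlgebra ℤ G}
    (h : ∀ v, bd Γ γ x v = bd Γ γ y v) : x = y := by
  have h1 := hA (x - y) (fun v => by
    have h2 := h v
    simp only [bd] at h2
    simp only [Pi.sub_apply, sub_mul, sum_sub_distrib]
    rw [h2, sub_self])
  exact sub_eq_zero.1 h1

private theorem fd_conj (γ : V → G) (u w : FreeGroup V) (hw : FreeGroup.lift γ w = 1) (v : V) :
    fd γ (u * w * u⁻¹) v = MonoidAlgebra.single (FreeGroup.lift γ u) 1 * fd γ w v := by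
  rw [fd_mul, fd_mul, fd_inv, map_mul, hw, mul_one, mul_neg, ← mul_assoc,
    MonoidAlgebra.single_mul_single, mul_inv_cancel, mul_one, ← MonoidAlgebra.one_def, one_mul]
  abel

end

theorem exists_cls {V E G H : Type} [Group G] [Group H] [DecidableEq V] [Fintype V] [Fintype E] [DecidableEq E]
    {Γ : LOG V E} {gen : V → H} (hP : IsPres Γ gen) (hA : Asph Γ gen) (φ : H →* G) (hφ : Function.Surjective φ) :
    ∃ cls : ↥(FreeGroup.lift gen).ker →* Multiplicative (E → MonoidAlgebra ℤ G),
      Function.Surjective cls ∧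
      (∀ (r : ↥(FreeGroup.lift gen).ker) (v : V), fd (fun v => φ (gen v)) (r : FreeGroup V) v
        = bd Γ (fun v => φ (gen v)) (Multiplicative.toAdd (cls r)) v) ∧
      ∀ r : ↥(FreeGroup.lift gen).ker, cls r = 1 ↔
        (r : FreeGroup V) ∈ ⁅(FreeGroup.lift (fun v => φ (gen v))).ker, (FreeGroup.lift gen).ker⁆ := by
  have hγ : ∀ e, gen (Γ.i e) * gen (Γ.l e) = gen (Γ.l e) * gen (Γ.t e) := gen_rel hP
  have hker : ∀ r : ↥(FreeGroup.lift gen).ker, FreeGroup.lift gen (r : FreeGroup V) = 1 :=
    fun r => r.2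
  have hex : ∀ r : ↥(FreeGroup.lift gen).ker, ∃ x : E → MonoidAlgebra ℤ H,
      ∀ v, fd gen (r : FreeGroup V) v = bd Γ gen x v :=
    fun r => (fd_normal Γ gen hγ r (hP.ker.le r.2)).2
  choose c hc using hex
  have hadd : ∀ a b, c (a * b) = c a + c b := by
    intro a b
    refine bd_inj hA fun v => ?_
    rw [← hc, bd_add, ← hc, ← hc, Subgroup.coe_mul, fd_mul, hker, ← MonoidAlgebra.one_def,
      one_mul]
  have hconj : ∀ (u : FreeGroup V) (a b : ↥(FreeGroup.lift gen).ker),
      (b : FreeGroup V) = u * a * u⁻¹ →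
      c b = fun e => MonoidAlgebra.single (FreeGroup.lift gen u) 1 * c a e := by
    intro u a b hb
    refine bd_inj hA fun v => ?_
    rw [← hc, bd_mul, ← hc, hb, fd_conj _ _ _ (hker a)]
  have hrel : ∀ (e : E) (a : ↥(FreeGroup.lift gen).ker), (a : FreeGroup V) = Γ.rel e →
      c a = Pi.single e 1 := by
    intro e a ha
    refine bd_inj hA fun v => ?_
    rw [← hc, bd_single, ha, fd_rel Γ gen hγ]
  obtain ⟨cls, hcls⟩ : ∃ cls : ↥(FreeGroup.lift gen).ker →*
      Multiplicative (E → MonoidAlgebra ℤ G), ∀ r e, Multiplicative.toAdd (cls r) e =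
        MonoidAlgebra.mapDomainRingHom ℤ φ (c r e) := by
    refine ⟨MonoidHom.mk' (fun r => Multiplicative.ofAdd
      (fun e => MonoidAlgebra.mapDomainRingHom ℤ φ (c r e))) ?_, fun r e => rfl⟩
    intro a b
    rw [hadd, ← ofAdd_add]
    refine congrArg Multiplicative.ofAdd (funext fun e => ?_)
    rw [Pi.add_apply, Pi.add_apply, map_add]
  have hlam : ∀ u, FreeGroup.lift (fun v => φ (gen v)) u = φ (FreeGroup.lift gen u) := by
    intro u
    have h1 : FreeGroup.lift (fun v => φ (gen v)) = φ.comp (FreeGroup.lift gen) := by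
      ext v
      simp
    rw [h1]
    rfl
  have hcc : ∀ (u : FreeGroup V) (a b : ↥(FreeGroup.lift gen).ker),
      (b : FreeGroup V) = u * a * u⁻¹ → ∀ e, Multiplicative.toAdd (cls b) e =
        MonoidAlgebra.single (FreeGroup.lift (fun v => φ (gen v)) u) 1 *
          Multiplicative.toAdd (cls a) e := by
    intro u a b hb e
    rw [hcls, hcls, hconj u a b hb, map_mul, hlam]
    congr 1
    exact MonoidAlgebra.mapDomain_single
  have hrho : ∀ u e, cls (rho hP u e) = Multiplicative.ofAdd (Pi.single e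
      (MonoidAlgebra.single (FreeGroup.lift (fun v => φ (gen v)) u) (1 : ℤ))) := by
    intro u e
    have h1 : (rho hP 1 e : FreeGroup V) = Γ.rel e := by
      change 1 * Γ.rel e * 1⁻¹ = _
      group
    apply Multiplicative.toAdd.injective
    funext e'
    rw [hcc u (rho hP 1 e) (rho hP u e) (by rw [h1]; rfl), hcls, hrel e _ h1, toAdd_ofAdd]
    by_cases he : e' = e
    · subst he
      rw [Pi.single_eq_same, Pi.single_eq_same, map_one, mul_one]
    · rw [Pi.single_eq_of_ne he, Pi.single_eq_of_ne he, map_zero, mul_zero]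
  have hsurj : Function.Surjective (FreeGroup.lift (fun v => φ (gen v))) := by
    intro g
    obtain ⟨h, rfl⟩ := hφ g
    obtain ⟨u, rfl⟩ := hP.surj h
    exact ⟨u, hlam u⟩
  have hle : (FreeGroup.lift gen).ker ≤ (FreeGroup.lift (fun v => φ (gen v))).ker := by
    intro x hx
    rw [MonoidHom.mem_ker] at hx ⊢
    rw [hlam, hx, map_one]
  refine ⟨cls, surj_aux cls (rho hP) _ hsurj hrho, fun r v => ?_, fun r => ⟨fun h => ?_,
    fun h => ?_⟩⟩
  · rw [← fd_map, hc]
    unfold bd
    rw [map_sum]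
    refine sum_congr rfl fun e _ => ?_
    rw [map_mul, jac_map, hcls]
  · have hmem : ∀ x y : FreeGroup V, x ∈ (FreeGroup.lift (fun v => φ (gen v))).ker →
        y ∈ (FreeGroup.lift gen).ker → x * y * x⁻¹ * y⁻¹ ∈
          ⁅(FreeGroup.lift (fun v => φ (gen v))).ker, (FreeGroup.lift gen).ker⁆ :=
      fun x y hx hy => Subgroup.commutator_mem_commutator hx hy
    have hnor : (⁅(FreeGroup.lift (fun v => φ (gen v))).ker,
        (FreeGroup.lift gen).ker⁆ : Subgroup (FreeGroup V)).Normal := inferInstance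
    generalize ⁅(FreeGroup.lift (fun v => φ (gen v))).ker, (FreeGroup.lift gen).ker⁆ = N
      at hmem hnor
    have hcomm : ∀ a b : ↥(FreeGroup.lift gen).ker ⧸ N.subgroupOf (FreeGroup.lift gen).ker,
        a * b = b * a := by
      intro a b
      obtain ⟨x, rfl⟩ := QuotientGroup.mk_surjective a
      obtain ⟨y, rfl⟩ := QuotientGroup.mk_surjective b
      rw [← QuotientGroup.mk_mul, ← QuotientGroup.mk_mul, QuotientGroup.eq,
        Subgroup.mem_subgroupOf]
      have h1 := hmem (y : FreeGroup V)⁻¹ (x : FreeGroup V)⁻¹ (inv_mem (hle y.2)) (inv_mem x.2)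
      have h2 : (((x * y)⁻¹ * (y * x) : ↥(FreeGroup.lift gen).ker) : FreeGroup V) =
          (y : FreeGroup V)⁻¹ * (x : FreeGroup V)⁻¹ * (y : FreeGroup V)⁻¹⁻¹ *
            (x : FreeGroup V)⁻¹⁻¹ := by
        change ((x : FreeGroup V) * y)⁻¹ * (y * x) = _
        group
      rw [h2]
      exact h1
    have hq := theta' hcomm cls (QuotientGroup.mk' (N.subgroupOf (FreeGroup.lift gen).ker))
      (rho hP) _ hsurj (gen_R hP) hrho (by
        intro u u' e huu
        change (QuotientGroup.mk (rho hP u e) :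
          ↥(FreeGroup.lift gen).ker ⧸ N.subgroupOf (FreeGroup.lift gen).ker) =
          QuotientGroup.mk (rho hP u' e)
        rw [QuotientGroup.eq, Subgroup.mem_subgroupOf]
        have hk : u⁻¹ * u' ∈ (FreeGroup.lift (fun v => φ (gen v))).ker := by
          rw [MonoidHom.mem_ker, map_mul, map_inv, huu, inv_mul_cancel]
        have hre : Γ.rel e ∈ (FreeGroup.lift gen).ker := by
          rw [hP.ker]
          exact Subgroup.subset_normalClosure ⟨e, rfl⟩
        have h1 := inv_mem (hmem (u⁻¹ * u') (Γ.rel e)⁻¹ hk (inv_mem hre))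
        have h2 := hnor.conj_mem _ h1 u
        have h3 : (((rho hP u e)⁻¹ * rho hP u' e : ↥(FreeGroup.lift gen).ker) : FreeGroup V) =
            u * ((u⁻¹ * u') * (Γ.rel e)⁻¹ * (u⁻¹ * u')⁻¹ * (Γ.rel e)⁻¹⁻¹)⁻¹ * u⁻¹ := by
          change (u * Γ.rel e * u⁻¹)⁻¹ * (u' * Γ.rel e * u'⁻¹) = _
          group
        rw [h3]
        exact h2) r h
    have h1 := (QuotientGroup.eq_one_iff r).1 hq
    exact Subgroup.mem_subgroupOf.1 h1
  · have h1 : ⁅(FreeGroup.lift (fun v => φ (gen v))).ker, (FreeGroup.lift gen).ker⁆ ≤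
        cls.ker.map (FreeGroup.lift gen).ker.subtype := by
      rw [Subgroup.commutator_le]
      intro k hk a ha
      have hb : k * a * k⁻¹ ∈ (FreeGroup.lift gen).ker :=
        (MonoidHom.normal_ker (FreeGroup.lift gen)).conj_mem a ha k
      refine ⟨⟨k * a * k⁻¹, hb⟩ * ⟨a, ha⟩⁻¹, ?_, ?_⟩
      · change cls (⟨k * a * k⁻¹, hb⟩ * ⟨a, ha⟩⁻¹) = 1
        have h2 : cls ⟨k * a * k⁻¹, hb⟩ = cls ⟨a, ha⟩ := by
          apply Multiplicative.toAdd.injective
          funext e
          rw [hcc k ⟨a, ha⟩ ⟨k * a * k⁻¹, hb⟩ rfl, MonoidHom.mem_ker.1 hk,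
            ← MonoidAlgebra.one_def, one_mul]
        rw [map_mul, map_inv, h2, mul_inv_cancel]
      · rfl
    obtain ⟨r', hr', he⟩ := h1 h
    have h2 : r' = r := Subtype.ext he
    rw [← h2]
    exact hr'

end Pool.Agent.KTR
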