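import Pool.Agent.KTR.Defs

/-!
# KTR-Conn: connectedness of the glued graph, trees

PLAN. `conn_glue`: `inl` maps `ugraph Γ` to `ugraph (glue Γ Δ)` (adjacency is preserved, `SimpleGraph.Hom`), so any two
`inl` vertices are joined; `pos Γ e` maps adjacent vertices of `ugraph Δ` to adjacent or equal vertices (it is
injective, so adjacent), so `inr (e, k) = pos Γ e k.succ` is joined to `pos Γ e 0 = inl (Γ.l e)`.
`isTree_of_conn`: `SimpleGraph.isTree_iff_connected_and_card` (`Nat.card` of the edge set plus one is `Nat.card V`):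
the edge set of `ugraph Γ` is contained in the image of `e ↦ s(Γ.i e, Γ.t e)`, so it has at most `card E` elements,
and at least `card V - 1` by connectedness (`SimpleGraph.Connected.card_vert_le_card_edgeSet_add_one`). `simple_of_tree`: the
edge set has exactly `card V - 1 = card E` elements, it is the image of the edges `e` with `Γ.i e ≠ Γ.t e` under
`e ↦ s(Γ.i e, Γ.t e)`, so the map is injective and defined everywhere. Keep helpers private.
-/

namespace Pool.Agent.KTR

open Finset Pool.Agent.LOT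

private theorem reach_map {A B : Type*} {G : SimpleGraph A} {H : SimpleGraph B} (f : A → B)
    (hf : ∀ a b, G.Adj a b → H.Reachable (f a) (f b)) {a b : A} (h : G.Reachable a b) :
    H.Reachable (f a) (f b) := by
  obtain ⟨w⟩ := h
  induction w with
  | nil => exact SimpleGraph.Reachable.refl _
  | cons h _ ih => exact (hf _ _ h).trans ih

private theorem ugraph_adj {V E : Type} (Γ : LOG V E) (a b : V) : (ugraph Γ).Adj a b ↔
    a ≠ b ∧ ∃ e, (Γ.i e = a ∧ Γ.t e = b) ∨ (Γ.i e = b ∧ Γ.t e = a) := by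
  unfold ugraph
  rw [SimpleGraph.fromRel_adj, exists_or]

private theorem ugraph_reach {V E : Type} (Γ : LOG V E) (e : E) :
    (ugraph Γ).Reachable (Γ.i e) (Γ.t e) := by
  by_cases h : Γ.i e = Γ.t e
  · rw [h]
  · exact ((ugraph_adj Γ _ _).2 ⟨h, e, Or.inl ⟨rfl, rfl⟩⟩).reachable

theorem conn_glue {V E : Type} {N : ℕ} (Γ : LOG V E) (Δ : LOG (Fin (N + 1)) (Fin N))
    (h : (ugraph Γ).Connected) (hΔ : (ugraph Δ).Connected) : (ugraph (glue Γ Δ)).Connected := by
  have h1 : ∀ a b : V, (ugraph (glue Γ Δ)).Reachable (Sum.inl a) (Sum.inl b) := by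
    intro a b
    refine reach_map (G := ugraph Γ) (fun v : V => (Sum.inl v : V ⊕ (E × Fin N))) ?_ (h.preconnected a b)
    intro a b hab
    obtain ⟨_, e, he | he⟩ := (ugraph_adj Γ a b).1 hab
    · rw [← he.1, ← he.2]
      exact ugraph_reach (glue Γ Δ) (Sum.inl e)
    · rw [← he.1, ← he.2]
      exact (ugraph_reach (glue Γ Δ) (Sum.inl e)).symm
  have h2 : ∀ (e : E) (a b : Fin (N + 1)),
      (ugraph (glue Γ Δ)).Reachable (pos Γ e a) (pos Γ e b) := by
    intro e a b
    refine reach_map (G := ugraph Δ) (pos Γ e) ?_ (hΔ.preconnected a b)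
    intro a b hab
    obtain ⟨_, p, hp | hp⟩ := (ugraph_adj Δ a b).1 hab
    · rw [← hp.1, ← hp.2]
      exact ugraph_reach (glue Γ Δ) (Sum.inr (e, p))
    · rw [← hp.1, ← hp.2]
      exact (ugraph_reach (glue Γ Δ) (Sum.inr (e, p))).symm
  have h3 : ∀ x : V ⊕ (E × Fin N), ∃ v : V, (ugraph (glue Γ Δ)).Reachable x (Sum.inl v) := by
    rintro (v | ⟨e, k⟩)
    · exact ⟨v, SimpleGraph.Reachable.refl _⟩
    · refine ⟨Γ.l e, ?_⟩
      have := h2 e k.succ 0
      simpa [pos] using this
  obtain ⟨v0⟩ := h.nonempty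
  have : Nonempty (V ⊕ (E × Fin N)) := ⟨Sum.inl v0⟩
  refine ⟨fun x y => ?_⟩
  obtain ⟨v, hv⟩ := h3 x
  obtain ⟨w, hw⟩ := h3 y
  exact hv.trans ((h1 v w).trans hw.symm)

private theorem edge_sub {V E : Type} [Fintype E] [DecidableEq V] (Γ : LOG V E) :
    (ugraph Γ).edgeSet ⊆
      (((univ : Finset E).filter (fun e => Γ.i e ≠ Γ.t e)).image (fun e => s(Γ.i e, Γ.t e)) :
        Finset (Sym2 V)) := by
  intro z hz
  induction z using Sym2.ind with
  | _ a b =>
    rw [SimpleGraph.mem_edgeSet] at hz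
    obtain ⟨hne, e, he | he⟩ := (ugraph_adj Γ a b).1 hz
    · rw [coe_image, Set.mem_image]
      refine ⟨e, ?_, ?_⟩
      · rw [mem_coe, mem_filter]
        refine ⟨mem_univ _, ?_⟩
        rw [he.1, he.2]
        exact hne
      · rw [he.1, he.2]
    · rw [coe_image, Set.mem_image]
      refine ⟨e, ?_, ?_⟩
      · rw [mem_coe, mem_filter]
        refine ⟨mem_univ _, ?_⟩
        rw [he.1, he.2]
        exact hne.symm
      · rw [he.1, he.2]
        exact Sym2.eq_swap

private theorem edge_card {V E : Type} [Fintype E] [DecidableEq V] (Γ : LOG V E) :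
    Nat.card (ugraph Γ).edgeSet ≤
      (((univ : Finset E).filter (fun e => Γ.i e ≠ Γ.t e)).image (fun e => s(Γ.i e, Γ.t e))).card := by
  have h := Set.ncard_le_ncard (edge_sub Γ) (Finset.finite_toSet _)
  rw [Set.ncard_coe_finset] at h
  exact h

theorem isTree_of_conn {V E : Type} [Fintype V] [Fintype E] (Γ : LOG V E) (h : (ugraph Γ).Connected)
    (hc : Fintype.card V = Fintype.card E + 1) : (ugraph Γ).IsTree := by
  classical
  rw [SimpleGraph.isTree_iff_connected_and_card]
  refine ⟨h, ?_⟩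
  have h1 := h.card_vert_le_card_edgeSet_add_one
  have h2 := edge_card Γ
  have h3 : (((univ : Finset E).filter (fun e => Γ.i e ≠ Γ.t e)).image
      (fun e => s(Γ.i e, Γ.t e))).card ≤ Fintype.card E :=
    card_image_le.trans (card_le_univ _)
  have h4 : Nat.card V = Fintype.card E + 1 := by rw [Nat.card_eq_fintype_card, hc]
  omega

theorem simple_of_tree {V E : Type} [Fintype V] [Fintype E] (Γ : LOG V E) (h : (ugraph Γ).IsTree)
    (hc : Fintype.card V = Fintype.card E + 1) : Simple Γ := by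
  classical
  rw [SimpleGraph.isTree_iff_connected_and_card] at h
  have h1 := h.2
  have h2 := edge_card Γ
  have h3 : (((univ : Finset E).filter (fun e => Γ.i e ≠ Γ.t e)).image
      (fun e => s(Γ.i e, Γ.t e))).card ≤ ((univ : Finset E).filter (fun e => Γ.i e ≠ Γ.t e)).card :=
    card_image_le
  have h5 : ((univ : Finset E).filter (fun e => Γ.i e ≠ Γ.t e)).card ≤ Fintype.card E :=
    card_le_univ _
  have h4 : Nat.card V = Fintype.card E + 1 := by rw [Nat.card_eq_fintype_card, hc]
  have h6 : ((univ : Finset E).filter (fun e => Γ.i e ≠ Γ.t e)) = univ :=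
    eq_univ_of_card _ (by omega)
  have hne : ∀ e, Γ.i e ≠ Γ.t e := by
    intro e
    have := mem_univ e
    rw [← h6, mem_filter] at this
    exact this.2
  have hinj : Set.InjOn (fun e => s(Γ.i e, Γ.t e))
      (((univ : Finset E).filter (fun e => Γ.i e ≠ Γ.t e)) : Set E) :=
    card_image_iff.1 (by omega)
  refine ⟨hne, fun e e' hee => ?_⟩
  refine hinj ?_ ?_ ?_
  · rw [h6]
    exact mem_coe.2 (mem_univ e)
  · rw [h6]
    exact mem_coe.2 (mem_univ e')
  · show s(Γ.i e, Γ.t e) = s(Γ.i e', Γ.t e')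
    rw [Sym2.eq_iff]
    exact hee

end Pool.Agent.KTR
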