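import Pool.Agent.LOT.Final
import Pool.Agent.LOT.WeightTest

/-!
# Project KTR (MP_c801b5_gt): a Kan-Thurston theorem for labelled oriented trees, common definitions

`LOG V E`, `LOG.tl`, `LOG.hd`, `IsPres`, `jac`, `Asph`, `IsWeight`, `evw` are those of `Pool.Agent.LOT.Defs`,
`foxw` (Fox derivatives of words) that of `Pool.Agent.LOT.Fox`, `pgen`, `isPres_pgen` of `Pool.Agent.LOT.Final`.
-/

namespace Pool.Agent.KTR

open Finset Pool.Agent.LOT

section
variable {V E : Type}

/-- adjacency in the label graph of `Γ`: the arcs are `(e, true) : i(e) — l(e)` and `(e, false) : t(e) — l(e)` -/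
def Adj (Γ : LOG V E) (x y : V) : Prop :=
  ∃ h : E × Bool, (Γ.tl h = x ∧ Γ.hd h = y) ∨ (Γ.tl h = y ∧ Γ.hd h = x)

/-- the label graph has no loops, no multiple edges, no cycles of length `3` and `4` -/
structure Girth5 (Γ : LOG V E) : Prop where
  inj : ∀ h h' : E × Bool, (Γ.tl h = Γ.tl h' ∧ Γ.hd h = Γ.hd h') ∨ (Γ.tl h = Γ.hd h' ∧ Γ.hd h = Γ.tl h') → h = h'
  loop : ∀ h : E × Bool, Γ.tl h ≠ Γ.hd h
  three : ∀ x y z, Adj Γ x y → Adj Γ y z → Adj Γ z x → False
  four : ∀ x y z w, Adj Γ x y → Adj Γ y z → Adj Γ z w → Adj Γ w x → x ≠ z → y ≠ w → False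

/-- the underlying graph -/
def ugraph (Γ : LOG V E) : SimpleGraph V := SimpleGraph.fromRel (fun a b => ∃ e, Γ.i e = a ∧ Γ.t e = b)

/-- the underlying graph has no loops and no multiple edges -/
structure Simple (Γ : LOG V E) : Prop where
  ne : ∀ e, Γ.i e ≠ Γ.t e
  inj : ∀ e e', (Γ.i e = Γ.i e' ∧ Γ.t e = Γ.t e') ∨ (Γ.i e = Γ.t e' ∧ Γ.t e = Γ.i e') → e = e'

/-- number of edges with label `v` -/
def use [Fintype E] [DecidableEq V] (Γ : LOG V E) (v : V) : ℕ := (univ.filter (fun e => Γ.l e = v)).card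

/-- the position in the glued graph of the vertex `k` of the gadget of the edge `e`: the vertex `0` of the gadget is
the label of `e` -/
def pos {N : ℕ} (Γ : LOG V E) (e : E) : Fin (N + 1) → V ⊕ (E × Fin N) :=
  Fin.cons (Sum.inl (Γ.l e)) (fun k => Sum.inr (e, k))

/-- `Γ` with a copy of the gadget `Δ` for every edge `e`, whose vertex `0` is `l(e)` and whose last vertex is the
new label of `e` -/
def glue {N : ℕ} (Γ : LOG V E) (Δ : LOG (Fin (N + 1)) (Fin N)) : LOG (V ⊕ (E × Fin N)) (E ⊕ (E × Fin N)) where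
  i := Sum.elim (fun e => Sum.inl (Γ.i e)) (fun p => pos Γ p.1 (Δ.i p.2))
  t := Sum.elim (fun e => Sum.inl (Γ.t e)) (fun p => pos Γ p.1 (Δ.t p.2))
  l := Sum.elim (fun e => pos Γ e (Fin.last N)) (fun p => pos Γ p.1 (Δ.l p.2))

/-- the projection of the glued graph onto `Γ`; all vertices of the gadget of `e` go to `l(e)` -/
def prj {N : ℕ} (Γ : LOG V E) : V ⊕ (E × Fin N) → V := Sum.elim id (fun p => Γ.l p.1)

/-- the entries of the Alexander matrix of the gadget -/
noncomputable def alex {N : ℕ} (Δ : LOG (Fin (N + 1)) (Fin N)) (p : Fin N) (v : Fin (N + 1)) : Polynomial ℤ :=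
  (if Δ.i p = v then 1 else 0) + (if Δ.l p = v then Polynomial.X - 1 else 0)
    - (if Δ.t p = v then Polynomial.X else 0)

/-- the Alexander matrix of the gadget without the column `0` is invertible over `ℤ[X, X⁻¹]` -/
def AlexInv {N : ℕ} (Δ : LOG (Fin (N + 1)) (Fin N)) : Prop :=
  ∃ (s : ℕ) (B : Fin N → Fin N → Polynomial ℤ),
    (∀ p q, ∑ k, alex Δ p (Fin.succ k) * B k q = if p = q then Polynomial.X ^ s else 0) ∧
    (∀ k j, ∑ p, B k p * alex Δ p (Fin.succ j) = if k = j then Polynomial.X ^ s else 0)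

/-- the combinatorial properties of the gadget -/
structure GadOK {N : ℕ} (Δ : LOG (Fin (N + 1)) (Fin N)) : Prop where
  conn : (ugraph Δ).Connected
  girth : Girth5 Δ
  d1 : ¬ Adj Δ 0 (Fin.last N)
  d2 : ∀ x, ¬ (Adj Δ 0 x ∧ Adj Δ x (Fin.last N))
  d3 : ∀ x y, ¬ (Adj Δ 0 x ∧ Adj Δ x y ∧ Adj Δ y (Fin.last N))
  use0 : use Δ 0 = 0
  useL : use Δ (Fin.last N) ≤ 1
  use2 : ∀ v, use Δ v ≤ 2
  pos : 0 < N

end

/-! ### homological algebra over the group ring `ℤ[G]` -/

section
variable {V E G : Type} [Group G]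

/-- the product of a row vector with the Jacobian matrix: the boundary map `C_2 → C_1` -/
noncomputable def bd [Fintype E] [DecidableEq V] (Γ : LOG V E) (γ : V → G) (x : E → MonoidAlgebra ℤ G) (v : V) :
    MonoidAlgebra ℤ G :=
  ∑ e, x e * jac Γ γ e v

/-- the boundary map `C_1 → C_0` -/
noncomputable def bd1 [Fintype V] (γ : V → G) (z : V → MonoidAlgebra ℤ G) : MonoidAlgebra ℤ G :=
  ∑ v, z v * (MonoidAlgebra.single (γ v) 1 - 1)

/-- exactness at `C_1` -/
def Exact1 [Fintype E] [Fintype V] [DecidableEq V] (Γ : LOG V E) (γ : V → G) : Prop :=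
  ∀ z : V → MonoidAlgebra ℤ G, bd1 γ z = 0 → ∃ x, ∀ v, bd Γ γ x v = z v

/-- the kernel of `C_2 → C_1` -/
noncomputable def ker2 [Fintype E] [DecidableEq V] (Γ : LOG V E) (γ : V → G) : AddSubgroup (E → MonoidAlgebra ℤ G) where
  carrier := {x | ∀ v, bd Γ γ x v = 0}
  zero_mem' := by
    intro v
    simp [bd]
  add_mem' := by
    intro x y hx hy v
    have h1 := hx v
    have h2 := hy v
    simp only [bd, Pi.add_apply, add_mul, sum_add_distrib] at h1 h2 ⊢
    rw [h1, h2, add_zero]
  neg_mem' := by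
    intro x hx v
    have h1 := hx v
    simp only [bd, Pi.neg_apply, neg_mul, sum_neg_distrib] at h1 ⊢
    rw [h1, neg_zero]

end

section
variable {V G : Type} [Group G]

/-- Fox derivative of an element of the free group -/
noncomputable def fd [DecidableEq V] (γ : V → G) (w : FreeGroup V) (v : V) : MonoidAlgebra ℤ G :=
  foxw γ w.toWord v

end

/-- reindexing of a labelled oriented graph -/
def reidx {V E V' E' : Type} (a : V ≃ V') (b : E ≃ E') (Γ : LOG V E) : LOG V' E' where
  i := fun e => a (Γ.i (b.symm e))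
  t := fun e => a (Γ.t (b.symm e))
  l := fun e => a (Γ.l (b.symm e))

/-- every central extension of `U` splits -/
def Splits (U : Type) [Group U] : Prop :=
  ∀ (W : Type) [Group W] (q : W →* U), Function.Surjective q → q.ker ≤ Subgroup.center W →
    ∃ s : U →* W, q.comp s = MonoidHom.id U

end Pool.Agent.KTR
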