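import Pool.Agent.KTR.Defs

/-!
# KTR-Eg: the label graph as a simple graph has girth at least `5`
-/

namespace Pool.Agent.KTR

open Finset Pool.Agent.LOT

/-- the label graph -/
def lgraph {V E : Type} (Γ : LOG V E) : SimpleGraph V :=
  SimpleGraph.fromRel (fun a b => ∃ e, (Γ.i e = a ∨ Γ.t e = a) ∧ Γ.l e = b)

private theorem adj_of {V E : Type} (Γ : LOG V E) {x y : V} (h : (lgraph Γ).Adj x y) : Adj Γ x y := by
  rw [lgraph, SimpleGraph.fromRel_adj] at h
  rcases h.2 with ⟨e, h1, h2⟩ | ⟨e, h1, h2⟩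
  · rcases h1 with h1 | h1
    · exact ⟨(e, true), Or.inl ⟨h1, h2⟩⟩
    · exact ⟨(e, false), Or.inl ⟨h1, h2⟩⟩
  · rcases h1 with h1 | h1
    · exact ⟨(e, true), Or.inr ⟨h1, h2⟩⟩
    · exact ⟨(e, false), Or.inr ⟨h1, h2⟩⟩

theorem egirth_of_girth5 {V E : Type} (Γ : LOG V E) (h : Girth5 Γ) : 5 ≤ (lgraph Γ).egirth := by
  rw [SimpleGraph.le_egirth]
  intro a w hw
  have h3 := hw.three_le_length
  have h4 : w.length ≠ 3 := by
    intro h3
    match w, hw, h3 with
    | .cons h1 (.cons h2 (.cons h3 .nil)), hw, _ =>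
      exact h.three _ _ _ (adj_of Γ h1) (adj_of Γ h2) (adj_of Γ h3)
  have h5 : w.length ≠ 4 := by
    intro h4
    match w, hw, h4 with
    | .cons h1 (.cons h2 (.cons h3 (.cons h4 .nil))), hw, _ =>
      have hn := hw.support_nodup
      simp only [SimpleGraph.Walk.support_cons, SimpleGraph.Walk.support_nil, List.tail_cons,
        List.nodup_cons, List.mem_cons, List.not_mem_nil, or_false, not_or] at hn
      refine h.four _ _ _ _ (adj_of Γ h1) (adj_of Γ h2) (adj_of Γ h3) (adj_of Γ h4) ?_ ?_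
      · intro hh
        exact hn.2.1.2 hh.symm
      · intro hh
        exact hn.1.2.1 hh
  have h6 : 5 ≤ w.length := by omega
  exact_mod_cast h6

end Pool.Agent.KTR
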