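import Pool.Agent.KTR.Defs

/-!
# KTR-Ext: solving the gadget equations

PLAN. Write `τ = γ (Γ.l e)`, `ev : Polynomial ℤ →+* MonoidAlgebra ℤ G`, `ev f = Polynomial.eval₂ (Int.castRingHom _) (single τ
1) f` (or `Polynomial.aeval`); this is a ring homomorphism although `MonoidAlgebra ℤ G` is not commutative
(`Polynomial.aeval (R := ℤ)` works for any `ℤ`-algebra). KEY FORMULA: for `e : E`, `k : Fin N`,
`bd (glue Γ Δ) (γ ∘ prj) x (inr (e, k)) = ∑ p, x (inr (e, p)) * ev (alex Δ p k.succ)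
   + (if k.succ = Fin.last N then x (inl e) * (single (γ (Γ.i e)) 1 - 1) else 0)`:
split the sum over `E ⊕ (E × Fin N)` (`Fintype.sum_sum_type`, `Fintype.sum_prod_type`), use
`pos Γ e' j = inr (e, k) ↔ e' = e ∧ j = k.succ` (`Fin.cases` on `j`), `prj Γ (pos Γ e' j) = Γ.l e'`, and the vertices
`inl (Γ.i e')`, `inl (Γ.t e')` are never `inr`. For an edge `inl e'` with label `pos Γ e' (last)`: coefficient
`single (γ (Γ.i e')) - 1`. For an edge `inr (e', p)`: `[i] + [l] (τ - 1) - [t] τ = ev (alex Δ p k.succ)`.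
Now let `s, B` be as in `AlexInv`. `ext_unique`: if `x ∘ inl = 0` then for all `e`: `∑ p, x (inr (e, p)) * ev (A p k) = 0` for
all `k`, multiply on the right by `ev (B k q)` and sum over `k`: `x (inr (e, q)) * (single τ 1)^s = 0`, and
`single τ 1` is a unit (inverse `single τ⁻¹ 1`). `ext_exists`: with `c k = w (e, k) - [k.succ = last] x e * (γ(i e) - 1)`
take `x (inr (e, p)) = (∑ k, c k * ev (B k p)) * (single τ⁻¹ 1)^s`; powers of `single τ⁻¹ 1` commute with `ev _` (both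
in the commutative subring generated by `τ, τ⁻¹`: prove `Commute (single τ⁻¹ 1) (ev f)` by induction on `f` or
`Polynomial.induction_on`), so `∑ p, x (inr (e, p)) * ev (A p j) = (∑ k, c k * ev (∑ p, B k p * A p j)) * τ^{-s} = c j`. Keep
helpers private.
-/

namespace Pool.Agent.KTR

open Finset Pool.Agent.LOT

section
variable {V E G : Type} [Group G] {N : ℕ}

private theorem prj_pos (Γ : LOG V E) (e : E) (k : Fin (N + 1)) : prj Γ (pos Γ e k) = Γ.l e := by
  refine Fin.cases ?_ (fun j => ?_) k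
  · rfl
  · rfl

private theorem pos_eq_inr (Γ : LOG V E) (e' e : E) (j : Fin (N + 1)) (k : Fin N) :
    pos Γ e' j = Sum.inr (e, k) ↔ e' = e ∧ j = k.succ := by
  refine Fin.cases ?_ (fun j => ?_) j
  · constructor
    · intro h
      have h1 : (Sum.inl (Γ.l e') : V ⊕ (E × Fin N)) = Sum.inr (e, k) := h
      simp at h1
    · rintro ⟨_, h⟩
      exact absurd h.symm (Fin.succ_ne_zero k)
  · constructor
    · intro h
      have h1 : (Sum.inr (e', j) : V ⊕ (E × Fin N)) = Sum.inr (e, k) := h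
      simp only [Sum.inr.injEq, Prod.mk.injEq] at h1
      exact ⟨h1.1, by rw [h1.2]⟩
    · rintro ⟨h1, h2⟩
      have h3 := Fin.succ_injective N h2
      subst h1 h3
      rfl

/-- evaluation of polynomials at a group element -/
private noncomputable def ev (τ : G) : Polynomial ℤ →ₐ[ℤ] MonoidAlgebra ℤ G :=
  Polynomial.aeval (MonoidAlgebra.single τ (1 : ℤ))

private theorem ev_X (τ : G) : ev τ Polynomial.X = MonoidAlgebra.single τ (1 : ℤ) := by
  unfold ev
  rw [Polynomial.aeval_X]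

private theorem ev_comm (τ : G) (f : Polynomial ℤ) :
    Commute (MonoidAlgebra.single τ⁻¹ (1 : ℤ)) (ev τ f) := by
  have h0 : Commute (MonoidAlgebra.single τ⁻¹ (1 : ℤ)) (MonoidAlgebra.single τ (1 : ℤ)) := by
    unfold Commute SemiconjBy
    rw [MonoidAlgebra.single_mul_single, MonoidAlgebra.single_mul_single, inv_mul_cancel, mul_inv_cancel]
  induction f using Polynomial.induction_on' with
  | add p q hp hq =>
    rw [map_add]
    exact hp.add_right hq
  | monomial n a =>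
    unfold ev
    rw [Polynomial.aeval_monomial]
    refine Commute.mul_right ?_ (h0.pow_right n)
    exact (Algebra.commutes a _).symm

private theorem inv_pow (τ : G) (s : ℕ) :
    (MonoidAlgebra.single τ (1 : ℤ)) ^ s * (MonoidAlgebra.single τ⁻¹ (1 : ℤ)) ^ s = 1 := by
  have h0 : Commute (MonoidAlgebra.single τ (1 : ℤ)) (MonoidAlgebra.single τ⁻¹ (1 : ℤ)) := by
    unfold Commute SemiconjBy
    rw [MonoidAlgebra.single_mul_single, MonoidAlgebra.single_mul_single, inv_mul_cancel, mul_inv_cancel]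
  rw [← h0.mul_pow, MonoidAlgebra.single_mul_single, mul_inv_cancel, one_mul, ← MonoidAlgebra.one_def, one_pow]

private theorem jac_inl [DecidableEq V] [DecidableEq E] (Γ : LOG V E) (Δ : LOG (Fin (N + 1)) (Fin N))
    (γ : V → G) (e' e : E) (k : Fin N) :
    jac (glue Γ Δ) (fun u => γ (prj Γ u)) (Sum.inl e') (Sum.inr (e, k))
      = if e' = e then (if k.succ = Fin.last N then MonoidAlgebra.single (γ (Γ.i e)) 1 - 1 else 0) else 0 := by
  have h1 : ((glue Γ Δ).i (Sum.inl e') = Sum.inr (e, k)) ↔ False := by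
    change (Sum.inl (Γ.i e') : V ⊕ (E × Fin N)) = Sum.inr (e, k) ↔ False
    simp
  have h2 : ((glue Γ Δ).t (Sum.inl e') = Sum.inr (e, k)) ↔ False := by
    change (Sum.inl (Γ.t e') : V ⊕ (E × Fin N)) = Sum.inr (e, k) ↔ False
    simp
  have h3 : ((glue Γ Δ).l (Sum.inl e') = Sum.inr (e, k)) ↔ (e' = e ∧ k.succ = Fin.last N) := by
    change pos Γ e' (Fin.last N) = Sum.inr (e, k) ↔ _
    rw [pos_eq_inr]
    constructor
    · rintro ⟨a, b⟩
      exact ⟨a, b.symm⟩
    · rintro ⟨a, b⟩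
      exact ⟨a, b.symm⟩
  have h4 : prj Γ ((glue Γ Δ).i (Sum.inl e')) = Γ.i e' := rfl
  rw [jac, h4]
  simp only [h1, h2, h3, if_false]
  by_cases he : e' = e
  · subst he
    by_cases hk : k.succ = Fin.last N
    · simp [hk]
    · simp [hk]
  · simp [he]

private theorem jac_inr [DecidableEq V] [DecidableEq E] (Γ : LOG V E) (Δ : LOG (Fin (N + 1)) (Fin N))
    (γ : V → G) (e' e : E) (p k : Fin N) :
    jac (glue Γ Δ) (fun u => γ (prj Γ u)) (Sum.inr (e', p)) (Sum.inr (e, k))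
      = if e' = e then ev (γ (Γ.l e)) (alex Δ p k.succ) else 0 := by
  have h1 : ((glue Γ Δ).i (Sum.inr (e', p)) = Sum.inr (e, k)) ↔ (e' = e ∧ Δ.i p = k.succ) := pos_eq_inr Γ e' e _ k
  have h2 : ((glue Γ Δ).t (Sum.inr (e', p)) = Sum.inr (e, k)) ↔ (e' = e ∧ Δ.t p = k.succ) := pos_eq_inr Γ e' e _ k
  have h3 : ((glue Γ Δ).l (Sum.inr (e', p)) = Sum.inr (e, k)) ↔ (e' = e ∧ Δ.l p = k.succ) := pos_eq_inr Γ e' e _ k
  have h4 : prj Γ ((glue Γ Δ).i (Sum.inr (e', p))) = Γ.l e' := prj_pos Γ e' (Δ.i p)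
  have h5 : prj Γ ((glue Γ Δ).l (Sum.inr (e', p))) = Γ.l e' := prj_pos Γ e' (Δ.l p)
  rw [jac, h4, h5]
  simp only [h1, h2, h3]
  by_cases he : e' = e
  · subst he
    simp only [true_and, if_true]
    unfold alex
    rw [map_sub, map_add]
    have a1 : ev (γ (Γ.l e')) (if Δ.i p = k.succ then 1 else 0) = if Δ.i p = k.succ then 1 else 0 := by
      split_ifs <;> simp
    have a2 : ev (γ (Γ.l e')) (if Δ.l p = k.succ then Polynomial.X - 1 else 0)
        = (if Δ.l p = k.succ then MonoidAlgebra.single (γ (Γ.l e')) 1 else 0)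
          - (if Δ.l p = k.succ then 1 else 0) := by
      split_ifs
      · rw [map_sub, ev_X, map_one]
      · simp
    have a3 : ev (γ (Γ.l e')) (if Δ.t p = k.succ then Polynomial.X else 0)
        = if Δ.t p = k.succ then MonoidAlgebra.single (γ (Γ.l e')) 1 else 0 := by
      split_ifs
      · rw [ev_X]
      · simp
    rw [a1, a2, a3]
    abel
  · simp [he]

private theorem bd_inr [Fintype E] [DecidableEq V] [DecidableEq E] (Γ : LOG V E)
    (Δ : LOG (Fin (N + 1)) (Fin N)) (γ : V → G) (x : E ⊕ (E × Fin N) → MonoidAlgebra ℤ G) (e : E) (k : Fin N) :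
    bd (glue Γ Δ) (fun u => γ (prj Γ u)) x (Sum.inr (e, k))
      = (if k.succ = Fin.last N then x (Sum.inl e) * (MonoidAlgebra.single (γ (Γ.i e)) 1 - 1) else 0)
        + ∑ p, x (Sum.inr (e, p)) * ev (γ (Γ.l e)) (alex Δ p k.succ) := by
  rw [bd, Fintype.sum_sum_type, Fintype.sum_prod_type]
  congr 1
  · simp only [jac_inl, mul_ite, mul_zero, sum_ite_eq', mem_univ, if_true]
  · simp only [jac_inr, mul_ite, mul_zero]
    rw [sum_comm]
    refine sum_congr rfl (fun p _ => ?_)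
    simp only [sum_ite_eq', mem_univ, if_true]

theorem ext_exists [Fintype V] [Fintype E] [DecidableEq V] [DecidableEq E]
    (Γ : LOG V E) (Δ : LOG (Fin (N + 1)) (Fin N)) (hΔ : AlexInv Δ) (γ : V → G) (x : E → MonoidAlgebra ℤ G)
    (w : E × Fin N → MonoidAlgebra ℤ G) :
    ∃ y : E ⊕ (E × Fin N) → MonoidAlgebra ℤ G, (∀ e, y (Sum.inl e) = x e) ∧
      ∀ p, bd (glue Γ Δ) (fun u => γ (prj Γ u)) y (Sum.inr p) = w p := by
  obtain ⟨s, B, h1, h2⟩ := hΔ
  let c : E → Fin N → MonoidAlgebra ℤ G := fun e k => w (e, k)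
    - (if k.succ = Fin.last N then x e * (MonoidAlgebra.single (γ (Γ.i e)) 1 - 1) else 0)
  let y : E ⊕ (E × Fin N) → MonoidAlgebra ℤ G := Sum.elim x
    (fun q => (∑ k, c q.1 k * ev (γ (Γ.l q.1)) (B k q.2)) * (MonoidAlgebra.single (γ (Γ.l q.1))⁻¹ (1 : ℤ)) ^ s)
  refine ⟨y, fun e => rfl, ?_⟩
  rintro ⟨e, j⟩
  rw [bd_inr]
  have h3 : ∀ p : Fin N, y (Sum.inr (e, p)) * ev (γ (Γ.l e)) (alex Δ p j.succ)
      = ∑ k, c e k * ev (γ (Γ.l e)) (B k p * alex Δ p j.succ)
          * (MonoidAlgebra.single (γ (Γ.l e))⁻¹ (1 : ℤ)) ^ s := by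
    intro p
    change ((∑ k, c e k * ev (γ (Γ.l e)) (B k p)) * (MonoidAlgebra.single (γ (Γ.l e))⁻¹ (1 : ℤ)) ^ s)
      * ev (γ (Γ.l e)) (alex Δ p j.succ) = _
    have h4 := ((ev_comm (γ (Γ.l e)) (alex Δ p j.succ)).pow_left s).eq
    rw [mul_assoc, h4, ← mul_assoc, sum_mul, sum_mul]
    refine sum_congr rfl (fun k _ => ?_)
    rw [map_mul, mul_assoc (c e k)]
  simp only [h3]
  rw [sum_comm]
  have h5 : ∀ k : Fin N, ∑ p, c e k * ev (γ (Γ.l e)) (B k p * alex Δ p j.succ)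
          * (MonoidAlgebra.single (γ (Γ.l e))⁻¹ (1 : ℤ)) ^ s
      = if k = j then c e k else 0 := by
    intro k
    rw [← sum_mul, ← mul_sum, ← map_sum, h2 k j]
    split_ifs
    · rw [map_pow, ev_X, mul_assoc, inv_pow, mul_one]
    · rw [map_zero, mul_zero, zero_mul]
  simp only [h5, sum_ite_eq', mem_univ, if_true]
  change (if j.succ = Fin.last N then x e * (MonoidAlgebra.single (γ (Γ.i e)) 1 - 1) else 0)
    + (w (e, j) - (if j.succ = Fin.last N then x e * (MonoidAlgebra.single (γ (Γ.i e)) 1 - 1) else 0)) = w (e, j)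
  abel

theorem ext_unique [Fintype V] [Fintype E] [DecidableEq V] [DecidableEq E]
    (Γ : LOG V E) (Δ : LOG (Fin (N + 1)) (Fin N)) (hΔ : AlexInv Δ) (γ : V → G)
    (y : E ⊕ (E × Fin N) → MonoidAlgebra ℤ G) (h0 : ∀ e, y (Sum.inl e) = 0)
    (h1 : ∀ p, bd (glue Γ Δ) (fun u => γ (prj Γ u)) y (Sum.inr p) = 0) : y = 0 := by
  obtain ⟨s, B, hA, hB⟩ := hΔ
  funext q
  rcases q with e | ⟨e, q⟩
  · exact h0 e
  · have h2 : ∀ k : Fin N, ∑ p, y (Sum.inr (e, p)) * ev (γ (Γ.l e)) (alex Δ p k.succ) = 0 := by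
      intro k
      have h3 := h1 (e, k)
      rw [bd_inr, h0 e, zero_mul, ite_self, zero_add] at h3
      exact h3
    have h3 : ∑ k, (∑ p, y (Sum.inr (e, p)) * ev (γ (Γ.l e)) (alex Δ p k.succ)) * ev (γ (Γ.l e)) (B k q) = 0 := by
      simp only [h2, zero_mul, sum_const_zero]
    have h4 : ∑ k, (∑ p, y (Sum.inr (e, p)) * ev (γ (Γ.l e)) (alex Δ p k.succ)) * ev (γ (Γ.l e)) (B k q)
        = y (Sum.inr (e, q)) * (MonoidAlgebra.single (γ (Γ.l e)) (1 : ℤ)) ^ s := by
      simp only [sum_mul]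
      rw [sum_comm]
      have h5 : ∀ p : Fin N, ∑ k, y (Sum.inr (e, p)) * ev (γ (Γ.l e)) (alex Δ p k.succ)
            * ev (γ (Γ.l e)) (B k q)
          = if p = q then y (Sum.inr (e, p)) * (MonoidAlgebra.single (γ (Γ.l e)) (1 : ℤ)) ^ s else 0 := by
        intro p
        have h6 : ∀ k : Fin N, y (Sum.inr (e, p)) * ev (γ (Γ.l e)) (alex Δ p k.succ)
            * ev (γ (Γ.l e)) (B k q) = y (Sum.inr (e, p)) * ev (γ (Γ.l e)) (alex Δ p k.succ * B k q) := by
          intro k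
          rw [map_mul, mul_assoc]
        simp only [h6]
        rw [← mul_sum, ← map_sum, hA p q]
        split_ifs
        · rw [map_pow, ev_X]
        · rw [map_zero, mul_zero]
      simp only [h5, sum_ite_eq', mem_univ, if_true]
    rw [h4] at h3
    have h5 : y (Sum.inr (e, q)) = y (Sum.inr (e, q)) * (MonoidAlgebra.single (γ (Γ.l e)) (1 : ℤ)) ^ s
        * (MonoidAlgebra.single (γ (Γ.l e))⁻¹ (1 : ℤ)) ^ s := by
      rw [mul_assoc, inv_pow, mul_one]
    rw [h5, h3, zero_mul]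
    rfl

end

end Pool.Agent.KTR
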