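import Pool.Agent.KTR.Defs

/-!
# KTR-Fd: Fox calculus

PLAN. From `foxw_mk`, `foxw_append`, `foxw_invRev` of `Pool.Agent.LOT.Fox` (`FreeGroup.mk w.toWord = w`, `FreeGroup.toWord`
of products via `foxw_mk`). `fd_mk : fd γ (FreeGroup.mk w) v = foxw γ w v`. `fd_rel`: compute with `LOG.relw`,
the relation and `jac` (compare `fox_rel` in `Pool.Agent.Results.MP_c801b5_gt.AlmostAllLOT`: copy that calculation).
`fd_map`: induction on the word. `fd_fund`: induction on the word (fundamental formula). `fd_magnus`: `magnus` of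
`Pool.Agent.LOT.Magnus` with `w.toWord`. Keep helpers private.
-/

namespace Pool.Agent.KTR

open Finset Pool.Agent.LOT

section
variable {V E G H : Type} [Group G] [Group H] [DecidableEq V]

theorem fd_mk (γ : V → G) (w : List (V × Bool)) (v : V) : fd γ (FreeGroup.mk w) v = foxw γ w v := by
  unfold fd
  exact foxw_mk γ _ _ FreeGroup.mk_toWord v

theorem fd_one (γ : V → G) (v : V) : fd γ 1 v = 0 := by
  unfold fd
  rw [FreeGroup.toWord_one]
  rfl

theorem fd_of (γ : V → G) (a v : V) : fd γ (FreeGroup.of a) v = if a = v then 1 else 0 := by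
  unfold fd
  rw [FreeGroup.toWord_of]
  simp only [foxw, mul_zero, add_zero]

private theorem evw_toWord (γ : V → G) (u : FreeGroup V) : evw γ u.toWord = FreeGroup.lift γ u := by
  unfold evw
  rw [FreeGroup.mk_toWord]

theorem fd_mul (γ : V → G) (u w : FreeGroup V) (v : V) :
    fd γ (u * w) v = fd γ u v + MonoidAlgebra.single (FreeGroup.lift γ u) 1 * fd γ w v := by
  have h1 : u * w = FreeGroup.mk (u.toWord ++ w.toWord) := by
    rw [← FreeGroup.mul_mk, FreeGroup.mk_toWord, FreeGroup.mk_toWord]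
  rw [h1, fd_mk, foxw_append, evw_toWord]
  rfl

theorem fd_inv (γ : V → G) (u : FreeGroup V) (v : V) :
    fd γ u⁻¹ v = - (MonoidAlgebra.single (FreeGroup.lift γ u)⁻¹ 1 * fd γ u v) := by
  have h1 : u⁻¹ = FreeGroup.mk (FreeGroup.invRev u.toWord) := by
    rw [← FreeGroup.inv_mk, FreeGroup.mk_toWord]
  rw [h1, fd_mk, foxw_invRev, evw_toWord]
  rfl

theorem fd_rel (Γ : LOG V E) (γ : V → G) (hγ : ∀ e, γ (Γ.i e) * γ (Γ.l e) = γ (Γ.l e) * γ (Γ.t e)) (e : E) (v : V) :
    fd γ (Γ.rel e) v = jac Γ γ e v := by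
  have h1 := hγ e
  have h2 : γ (Γ.i e) * (γ (Γ.l e) * (γ (Γ.t e))⁻¹) = γ (Γ.l e) := by
    rw [← mul_assoc, h1, mul_inv_cancel_right]
  have h3 : γ (Γ.i e) * (γ (Γ.l e) * ((γ (Γ.t e))⁻¹ * (γ (Γ.l e))⁻¹)) = 1 := by
    rw [← mul_assoc (γ (Γ.l e)), ← mul_assoc, h2, mul_inv_cancel]
  rw [LOG.rel, fd_mk, jac]
  simp only [foxw, LOG.relw]
  have e1 : (MonoidAlgebra.single (γ (Γ.i e)) (1 : ℤ)) * (MonoidAlgebra.single (γ (Γ.l e)) (1 : ℤ)
      * (MonoidAlgebra.single (γ (Γ.t e))⁻¹ (1 : ℤ)))
      = MonoidAlgebra.single (γ (Γ.l e)) 1 := by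
    rw [MonoidAlgebra.single_mul_single, MonoidAlgebra.single_mul_single, h2, one_mul, one_mul]
  have e2 : (MonoidAlgebra.single (γ (Γ.i e)) (1 : ℤ)) * (MonoidAlgebra.single (γ (Γ.l e)) (1 : ℤ)
      * (MonoidAlgebra.single (γ (Γ.t e))⁻¹ (1 : ℤ)
        * MonoidAlgebra.single (γ (Γ.l e))⁻¹ (1 : ℤ))) = 1 := by
    rw [MonoidAlgebra.single_mul_single, MonoidAlgebra.single_mul_single,
      MonoidAlgebra.single_mul_single, h3]
    simp [MonoidAlgebra.one_def]
  have e3 : (MonoidAlgebra.single (γ (Γ.i e)) (1 : ℤ)) * (if Γ.l e = v then 1 else 0)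
      = (if Γ.l e = v then MonoidAlgebra.single (γ (Γ.i e)) 1 else 0) := by
    split_ifs <;> simp
  have e4 : MonoidAlgebra.single (γ (Γ.i e)) (1 : ℤ) * (MonoidAlgebra.single (γ (Γ.l e)) (1 : ℤ)
      * (if Γ.t e = v then MonoidAlgebra.single (γ (Γ.t e))⁻¹ (1 : ℤ) else 0))
      = (if Γ.t e = v then MonoidAlgebra.single (γ (Γ.l e)) 1 else 0) := by
    split_ifs
    · exact e1
    · simp
  have e5 : MonoidAlgebra.single (γ (Γ.i e)) (1 : ℤ) * (MonoidAlgebra.single (γ (Γ.l e)) (1 : ℤ)
      * (MonoidAlgebra.single (γ (Γ.t e))⁻¹ (1 : ℤ)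
        * (if Γ.l e = v then MonoidAlgebra.single (γ (Γ.l e))⁻¹ (1 : ℤ) else 0)))
      = (if Γ.l e = v then 1 else 0) := by
    split_ifs
    · exact e2
    · simp
  simp only [mul_add, mul_neg, mul_zero, add_zero, e3, e4, e5]
  abel

theorem jac_map (Γ : LOG V E) (γ : V → H) (φ : H →* G) (e : E) (v : V) :
    MonoidAlgebra.mapDomainRingHom ℤ φ (jac Γ γ e v) = jac Γ (fun v => φ (γ v)) e v := by
  have h1 : ∀ h : H, MonoidAlgebra.mapDomainRingHom ℤ φ (MonoidAlgebra.single h (1 : ℤ))
      = MonoidAlgebra.single (φ h) 1 := by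
    intro h
    simp
  unfold jac
  rw [map_sub, map_sub, map_add]
  have h2 : ∀ (p : Prop) [Decidable p] (c : MonoidAlgebra ℤ H),
      MonoidAlgebra.mapDomainRingHom ℤ φ (if p then c else 0)
        = if p then MonoidAlgebra.mapDomainRingHom ℤ φ c else 0 := by
    intro p _ c
    split_ifs
    · rfl
    · rw [map_zero]
  rw [h2, h2, h2, h2, h1, h1, map_one]

theorem fd_map (γ : V → H) (φ : H →* G) (w : FreeGroup V) (v : V) :
    MonoidAlgebra.mapDomainRingHom ℤ φ (fd γ w v) = fd (fun v => φ (γ v)) w v := by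
  have h1 : ∀ h : H, MonoidAlgebra.mapDomainRingHom ℤ φ (MonoidAlgebra.single h (1 : ℤ))
      = MonoidAlgebra.single (φ h) 1 := by
    intro h
    simp
  have h2 : ∀ (p : Prop) [Decidable p] (c : MonoidAlgebra ℤ H),
      MonoidAlgebra.mapDomainRingHom ℤ φ (if p then c else 0)
        = if p then MonoidAlgebra.mapDomainRingHom ℤ φ c else 0 := by
    intro p _ c
    split_ifs
    · rfl
    · rw [map_zero]
  unfold fd
  induction w.toWord with
  | nil =>
    simp only [foxw, map_zero]
  | cons a u ih =>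
    obtain ⟨a, b⟩ := a
    cases b with
    | true =>
      simp only [foxw]
      rw [map_add, map_mul, ih, h2, h1, map_one]
    | false =>
      simp only [foxw]
      rw [map_add, map_mul, map_neg, ih, h2, h1, map_inv]

theorem fd_fund [Fintype V] (γ : V → G) (w : FreeGroup V) :
    bd1 γ (fd γ w) = MonoidAlgebra.single (FreeGroup.lift γ w) 1 - 1 := by
  have key : ∀ u : List (V × Bool), ∑ v, foxw γ u v * (MonoidAlgebra.single (γ v) 1 - 1)
      = MonoidAlgebra.single (evw γ u) (1 : ℤ) - 1 := by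
    intro u
    induction u with
    | nil =>
      simp only [foxw, zero_mul, sum_const_zero]
      have h1 : evw γ [] = 1 := by
        unfold evw
        rw [← FreeGroup.one_eq_mk, map_one]
      rw [h1, ← MonoidAlgebra.one_def, sub_self]
    | cons a u ih =>
      obtain ⟨a, b⟩ := a
      cases b with
      | true =>
        have h1 : evw γ ((a, true) :: u) = γ a * evw γ u := by
          unfold evw
          rw [FreeGroup.lift_mk, FreeGroup.lift_mk]
          simp
        simp only [foxw, add_mul, sum_add_distrib, mul_assoc]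
        rw [← mul_sum, ih, h1]
        simp only [ite_mul, one_mul, zero_mul, sum_ite_eq, mem_univ, if_true]
        rw [mul_sub, MonoidAlgebra.single_mul_single, mul_one, mul_one]
        abel
      | false =>
        have h1 : evw γ ((a, false) :: u) = (γ a)⁻¹ * evw γ u := by
          unfold evw
          rw [FreeGroup.lift_mk, FreeGroup.lift_mk]
          simp
        simp only [foxw, add_mul, sum_add_distrib, mul_assoc, neg_mul, sum_neg_distrib]
        rw [← mul_sum, ih, h1]
        simp only [ite_mul, zero_mul, sum_ite_eq, mem_univ, if_true]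
        rw [mul_sub, mul_sub, MonoidAlgebra.single_mul_single, MonoidAlgebra.single_mul_single, mul_one, mul_one,
          inv_mul_cancel, ← MonoidAlgebra.one_def]
        abel
  have h1 := key w.toWord
  rw [evw_toWord] at h1
  exact h1

theorem fd_magnus [Fintype V] (γ : V → G) (hs : Function.Surjective (FreeGroup.lift γ)) (w : FreeGroup V)
    (hw : FreeGroup.lift γ w = 1) (hf : ∀ v, fd γ w v = 0) :
    w ∈ ⁅(FreeGroup.lift γ).ker, (FreeGroup.lift γ).ker⁆ := by
  have h1 := magnus γ hs w.toWord (by rw [evw_toWord]; exact hw) hf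
  rw [FreeGroup.mk_toWord] at h1
  exact h1

end

end Pool.Agent.KTR
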