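import Pool.Agent.KTR.GadData

/-!
# KTR-Gad: the combinatorial properties of the gadget

PLAN. Everything is a finite check on `Fin 28`, `Fin 27` (labels, girth of a graph with 54 arcs on 28 vertices), but a
naive `decide` with four nested quantifiers over `Fin 28` is too slow in the kernel. Suggestion: define the list of
the 54 arcs as pairs of natural numbers, and the table `mask : Fin 28 → ℕ` (or `![...]`) of the neighbour sets as bit
masks (`Nat.testBit`, `Nat.land` are fast in the kernel); prove `Adj gad x y ↔ (mask x).testBit y = true` (one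
`decide` over pairs, 784 cases, or via the list of arcs), then `three` : for all `x y`, `testBit (mask x) y = true →
mask x &&& mask y = 0`; `four` : for all `x ≠ z`, `mask x &&& mask z` has at most one bit (`n &&& (n - 1) = 0`, or: for
all x z there is at most one common neighbour, by `∀ x z, x ≠ z → (commonlist).length ≤ 1`). `d1, d2, d3` : masks
again (`mask 0 &&& mask 27 = 0`; for all arcs). An alternative for `four`: for `x ≠ z` enumerate the neighbour LISTS
(`nb : Fin 28 → List (Fin 28)`, each of length about 4) : `∀ x, ∀ y ∈ nb x, ∀ w ∈ nb x, y ≠ w → ∀ z ∈ nb y, z ∈ nb w →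
z = x`: about 28*4*4*4 cases. `inj`: 54 * 54 comparisons, `by decide` after a suitable encoding. `conn`: every
vertex is joined to `0`; give an explicit parent function `par : Fin 28 → Fin 28` (the tree edges of `gad` are
`{i e, t e}`) and check that the 27-fold (or 10-fold) iterate is `0` by `decide`, each `x` is adjacent or equal to
`par x`. `#eval` the tables from `gad` first. No `native_decide`; keep helpers private.
-/

namespace Pool.Agent.KTR

open Finset Pool.Agent.LOT

private def nb : Fin 28 → List (Fin 28) := ![[3, 22], [11, 23, 25, 27], [12, 13, 18], [0, 4, 6, 8, 11], [3, 5, 13, 20, 24], [4, 12, 23], [3, 9, 17, 21, 23], [8, 10, 15, 18, 22, 23, 24], [3, 7, 26], [6, 16], [7, 27], [1, 3, 12, 15], [2, 5, 11, 21, 22], [2, 4, 14, 15, 17, 27], [13, 16, 23, 26], [7, 11, 13], [9, 14, 19], [6, 13, 22, 25], [2, 7], [16, 25], [4, 22, 26], [6, 12, 24, 26, 27], [0, 7, 12, 17, 20], [1, 5, 6, 7, 14], [4, 7, 21, 25], [1, 17, 19, 24], [8, 14, 20, 21], [1, 10, 13, 21]]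

private def par : Fin 28 → Fin 28 := ![0, 19, 11, 24, 12, 7, 8, 11, 14, 23, 1, 0, 7, 18, 27, 17, 23, 0, 10, 9, 13, 25, 26, 11, 8, 6, 6, 12]

private theorem arc_nb : ∀ h : Fin 27 × Bool, gad.hd h ∈ nb (gad.tl h) ∧ gad.tl h ∈ nb (gad.hd h) := by
  decide

private theorem adj_nb (x y : Fin 28) (h : Adj gad x y) : y ∈ nb x := by
  obtain ⟨a, h⟩ := h
  rcases h with ⟨rfl, rfl⟩ | ⟨rfl, rfl⟩
  · exact (arc_nb a).1
  · exact (arc_nb a).2

private theorem c3 : ∀ x, ∀ y ∈ nb x, ∀ z ∈ nb y, x ∉ nb z := by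
  decide

private theorem c4 : ∀ x, ∀ y ∈ nb x, ∀ w ∈ nb x, y ≠ w → ∀ z ∈ nb y, z ∈ nb w → x = z := by
  decide

private theorem e1 : (27 : Fin 28) ∉ nb 0 := by
  decide

private theorem e2 : ∀ x ∈ nb 0, (27 : Fin 28) ∉ nb x := by
  decide

private theorem e3 : ∀ x ∈ nb 0, ∀ y ∈ nb x, (27 : Fin 28) ∉ nb y := by
  decide

private theorem adj_symm (x y : Fin 28) (h : Adj gad x y) : Adj gad y x := by
  obtain ⟨a, h⟩ := h
  exact ⟨a, h.symm⟩

private theorem par_adj : ∀ x : Fin 28, x ≠ 0 → ∃ e : Fin 27, (gad.i e = x ∧ gad.t e = par x) ∨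
    (gad.i e = par x ∧ gad.t e = x) := by
  decide

private theorem par_ne : ∀ x : Fin 28, x ≠ 0 → x ≠ par x := by
  decide

private theorem par_iter : ∀ x : Fin 28, par^[9] x = 0 := by
  decide

private theorem reach (n : ℕ) : ∀ x : Fin 28, par^[n] x = 0 → (ugraph gad).Reachable x 0 := by
  induction n with
  | zero =>
    intro x hx
    have hx' : x = 0 := hx
    rw [hx']
  | succ n ih =>
    intro x hx
    by_cases h0 : x = 0
    · rw [h0]
    · rw [Function.iterate_succ_apply] at hx
      refine SimpleGraph.Reachable.trans (SimpleGraph.Adj.reachable ?_) (ih _ hx)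
      unfold ugraph
      rw [SimpleGraph.fromRel_adj]
      obtain ⟨e, h | h⟩ := par_adj x h0
      · exact ⟨par_ne x h0, Or.inl ⟨e, h.1, h.2⟩⟩
      · exact ⟨par_ne x h0, Or.inr ⟨e, h.1, h.2⟩⟩

private theorem arc_inj : ∀ h h' : Fin 27 × Bool, (gad.tl h = gad.tl h' ∧ gad.hd h = gad.hd h') ∨
    (gad.tl h = gad.hd h' ∧ gad.hd h = gad.tl h') → h = h' := by
  decide

private theorem arc_loop : ∀ h : Fin 27 × Bool, gad.tl h ≠ gad.hd h := by
  decide

private theorem u2 : ∀ v : Fin 28, use gad v ≤ 2 := by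
  decide

theorem gad_ok : GadOK gad where
  conn := by
    haveI : Nonempty (Fin 28) := ⟨0⟩
    refine SimpleGraph.Connected.mk ?_
    intro x y
    exact (reach _ x (par_iter x)).trans (reach _ y (par_iter y)).symm
  girth :=
    { inj := arc_inj
      loop := arc_loop
      three := fun x y z h1 h2 h3 => c3 x y (adj_nb x y h1) z (adj_nb y z h2) (adj_nb z x h3)
      four := fun x y z w h1 h2 h3 h4 h5 h6 =>
        h5 (c4 x y (adj_nb x y h1) w (adj_nb x w (adj_symm w x h4)) h6 z (adj_nb y z h2)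
          (adj_nb w z (adj_symm z w h3))) }
  d1 := fun h => e1 (adj_nb _ _ h)
  d2 := fun x h => e2 x (adj_nb _ _ h.1) (adj_nb _ _ h.2)
  d3 := fun x y h => e3 x (adj_nb _ _ h.1) y (adj_nb _ _ h.2.1) (adj_nb _ _ h.2.2)
  use0 := by decide
  useL := by decide
  use2 := u2
  pos := by norm_num

end Pool.Agent.KTR
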