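import Pool.Agent.KTR.GadData

/-!
# KTR-GadB: the reduced Alexander matrix of the gadget is invertible

PLAN. `s = 9`, `B k q := pev (entry (k, q) of gadB)` with `pev : List ℤ → Polynomial ℤ`, `pev [] = 0`,
`pev (c :: l) = C c + X * pev l`. Define list operations by structural recursion (`ladd`, `lneg`, `lshift l = 0 :: l`) with
`pev (ladd a b) = pev a + pev b` etc. and a Boolean test `lz : List ℤ → Bool` (all entries zero, and for the diagonal:
equal to `[0,...,0,1]` up to trailing zeros) so that every identity is reduced to a computation with lists of integers, to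
be proved by `decide`/`rfl` row by row (27 rows, 27 columns; split into one lemma per row if necessary). The row `p` of
the Alexander matrix has the at most three entries `1` at `i p`, `X - 1` at `l p`, `-X` at `t p` (the column `0` is
deleted), so `∑ k, alex gad p k.succ * B k q` is a sum of at most three terms:
`Bs (i p) q + (X - 1) * Bs (l p) q - X * Bs (t p) q` where `Bs 0 q = 0`, `Bs (k+1) q = B k q`. For the second identity
`∑ p, B k p * alex gad p j.succ` similarly: sum over the edges `p` with `i p`, `l p` or `t p` equal to `j + 1`. (The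
identities were verified with exact arithmetic; the second one also follows from the first one: over the fraction
field, or: `A B = X^9` as matrices over the domain `ℤ[X]` gives `(B A) B = X^9 B`, `det B ≠ 0`, see
`Matrix.mul_eq_one_comm` for the version with `X^9 = 1`; use whatever is shorter.) `set_option maxRecDepth` and
`decide +kernel` are allowed, `native_decide` is not. Keep helpers private.
-/

namespace Pool.Agent.KTR

open Finset Pool.Agent.LOT

private noncomputable def pev : List ℤ → Polynomial ℤ
  | [] => 0
  | c :: l => Polynomial.C c + Polynomial.X * pev l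

private def ladd : List ℤ → List ℤ → List ℤ
  | [], m => m
  | a :: l, [] => a :: l
  | a :: l, b :: m => (a + b) :: ladd l m

private def lneg : List ℤ → List ℤ
  | [] => []
  | a :: l => (-a) :: lneg l

private def lz : List ℤ → Bool
  | [] => true
  | a :: l => (decide (a = 0)) && lz l

private lemma pev_ladd : ∀ l m : List ℤ, pev (ladd l m) = pev l + pev m
  | [], m => by simp only [ladd, pev, zero_add]
  | a :: l, [] => by simp only [ladd, pev, add_zero]
  | a :: l, b :: m => by
    simp only [ladd, pev]
    rw [pev_ladd l m, Polynomial.C_add]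
    ring

private lemma pev_lneg : ∀ l : List ℤ, pev (lneg l) = - pev l
  | [] => by simp only [lneg, pev, neg_zero]
  | a :: l => by
    simp only [lneg, pev]
    rw [pev_lneg l, Polynomial.C_neg]
    ring

private lemma pev_shift (l : List ℤ) : pev (0 :: l) = Polynomial.X * pev l := by
  simp only [pev, Polynomial.C_0, zero_add]

private lemma pev_lz : ∀ l : List ℤ, lz l = true → pev l = 0
  | [], _ => rfl
  | a :: l, h => by
    simp only [lz, Bool.and_eq_true, decide_eq_true_eq] at h
    simp only [pev]
    rw [h.1, pev_lz l h.2]
    simp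

private def ent (v : ℕ) (q : ℕ) : List ℤ :=
  match v with
  | 0 => []
  | k + 1 => (gadB.getD k []).getD q []

private def lin (a b c : ℕ) (q : ℕ) : List ℤ :=
  ladd (ladd (ent a q) (ladd (0 :: ent b q) (lneg (ent b q)))) (lneg (0 :: ent c q))

private def mone : List ℤ := [0, 0, 0, 0, 0, 0, 0, 0, 0, -1]

private lemma pev_mone : pev mone = - Polynomial.X ^ 9 := by
  simp only [mone, pev]
  simp only [Polynomial.C_0, zero_add, mul_zero, add_zero, Polynomial.C_neg, Polynomial.C_1]
  ring

private def testg (a b c p q : ℕ) : Bool :=
  lz (ladd (lin a b c q) (bif (p == q) then mone else []))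

private lemma testg_pev (a b c p q : ℕ) (h : testg a b c p q = true) :
    pev (lin a b c q) = if p = q then Polynomial.X ^ 9 else 0 := by
  unfold testg at h
  generalize lin a b c q = L at h
  have h2 := pev_lz _ h
  rw [pev_ladd] at h2
  by_cases hpq : p = q
  · rw [if_pos hpq]
    have h3 : (p == q) = true := by rw [hpq]; exact beq_self_eq_true _
    rw [h3, cond_true, pev_mone] at h2
    exact add_neg_eq_zero.1 h2
  · rw [if_neg hpq]
    have h3 : (p == q) = false := by
      rw [beq_eq_false_iff_ne]
      exact hpq
    rw [h3, cond_false] at h2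
    simpa [pev] using h2

private lemma test_all : ∀ p q : Fin 27,
    testg (gad.i p).val (gad.l p).val (gad.t p).val p.val q.val = true := by
  decide +kernel

private noncomputable def Bm (k q : Fin 27) : Polynomial ℤ := pev (ent (k.val + 1) q.val)

private lemma sum_lin (a b c : Fin 28) (q : Fin 27) :
    ∑ k : Fin 27, (((if a = Fin.succ k then (1 : Polynomial ℤ) else 0) +
      (if b = Fin.succ k then Polynomial.X - 1 else 0)
      - (if c = Fin.succ k then Polynomial.X else 0)) * Bm k q)
      = pev (lin a.val b.val c.val q.val) := by
  have h : ∀ (a : Fin 28) (x : Polynomial ℤ),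
      ∑ k : Fin 27, (if a = Fin.succ k then x else 0) * Bm k q = x * pev (ent a.val q.val) := by
    intro a x
    refine Fin.cases ?_ (fun a' => ?_) a
    · have h1 : ∀ k : Fin 27, (if (0 : Fin 28) = Fin.succ k then x else 0) * Bm k q = 0 := by
        intro k
        rw [if_neg (Fin.succ_ne_zero k).symm, zero_mul]
      rw [Finset.sum_eq_zero (fun k _ => h1 k)]
      simp only [Fin.val_zero, ent, pev, mul_zero]
    · rw [Finset.sum_eq_single a']
      · rw [if_pos rfl]
        rfl
      · intro k _ hk
        rw [if_neg (fun h => hk (Fin.succ_injective _ h).symm), zero_mul]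
      · intro h
        exact absurd (Finset.mem_univ _) h
  have h2 : ∀ k : Fin 27, (((if a = Fin.succ k then (1 : Polynomial ℤ) else 0) +
      (if b = Fin.succ k then Polynomial.X - 1 else 0)
      - (if c = Fin.succ k then Polynomial.X else 0)) * Bm k q) =
      (if a = Fin.succ k then (1 : Polynomial ℤ) else 0) * Bm k q +
      (if b = Fin.succ k then Polynomial.X - 1 else 0) * Bm k q
      - (if c = Fin.succ k then Polynomial.X else 0) * Bm k q := by
    intro k
    ring
  rw [Finset.sum_congr rfl (fun k _ => h2 k), Finset.sum_sub_distrib, Finset.sum_add_distrib,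
    h, h, h]
  unfold lin
  rw [pev_ladd, pev_ladd, pev_ladd, pev_shift, pev_lneg, pev_lneg, pev_shift]
  ring

private lemma first (p q : Fin 27) :
    ∑ k, alex gad p (Fin.succ k) * Bm k q = if p = q then Polynomial.X ^ 9 else 0 := by
  have h0 := test_all p q
  unfold alex
  generalize gad.i p = a at h0 ⊢
  generalize gad.l p = b at h0 ⊢
  generalize gad.t p = c at h0 ⊢
  rw [sum_lin a b c q, testg_pev _ _ _ _ _ h0]
  by_cases hpq : p = q
  · rw [if_pos hpq, if_pos (congrArg Fin.val hpq)]
  · rw [if_neg hpq, if_neg (fun h => hpq (Fin.ext h))]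

private lemma second {n : Type} [Fintype n] [DecidableEq n] (A B : Matrix n n (Polynomial ℤ))
    (x : Polynomial ℤ) (hx : x ≠ 0)
    (h : A * B = x • 1) : B * A = x • 1 := by
  have hdet : A.det ≠ 0 := by
    intro h0
    have h1 : (A * B).det = 0 := by rw [Matrix.det_mul, h0, zero_mul]
    rw [h, Matrix.det_smul, Matrix.det_one, mul_one] at h1
    exact hx (eq_zero_of_pow_eq_zero h1)
  have h2 : A * (B * A - x • 1) = 0 := by
    rw [mul_sub, ← mul_assoc, h]
    simp
  have h3 : A.det • (B * A - x • 1) = 0 := by
    have h4 : A.adjugate * (A * (B * A - x • 1)) = 0 := by rw [h2, mul_zero]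
    rw [← mul_assoc, Matrix.adjugate_mul, smul_mul_assoc, one_mul] at h4
    exact h4
  have h5 : B * A - x • 1 = 0 := by
    rcases smul_eq_zero.1 h3 with h6 | h6
    · exact absurd h6 hdet
    · exact h6
  exact sub_eq_zero.1 h5

theorem gad_inv : AlexInv gad := by
  refine ⟨9, Bm, first, ?_⟩
  intro k j
  have h := second (Matrix.of (fun p k => alex gad p (Fin.succ k))) (Matrix.of Bm)
    (Polynomial.X ^ 9) (pow_ne_zero _ Polynomial.X_ne_zero) (by
      ext p q
      rw [Matrix.mul_apply, Matrix.smul_apply, Matrix.one_apply]
      simp only [Matrix.of_apply, smul_eq_mul, mul_ite, mul_one, mul_zero]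
      rw [first p q])
  have h2 := congrFun (congrFun h k) j
  rw [Matrix.mul_apply, Matrix.smul_apply, Matrix.one_apply] at h2
  simp only [Matrix.of_apply, smul_eq_mul, mul_ite, mul_one, mul_zero] at h2
  exact h2

end Pool.Agent.KTR
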