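import Pool.Agent.KTR.Defs

/-!
# KTR-Gir: the label graph of the glued graph has girth at least 5

PLAN. Call the vertices `inl v` and `pos Γ e (Fin.last N)` special, the arcs `(inl e, _)` original, the arcs
`(inr (e, p), _)` gadget arcs of `e`. `pos Γ e` is injective; a gadget arc of `e` joins `pos Γ e x` and `pos Γ e y` with
`Adj Δ x y`; an original arc joins `inl v` and `pos Γ e (last)` with `v = Γ.i e` or `v = Γ.t e`. A nonspecial vertex
`inr (e, k)` (with `k.succ ≠ last`) lies only on gadget arcs of `e`. By `d1` no gadget arc joins two special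
vertices (`0` and `last` are the only special vertices of a gadget). So: `Adj (glue Γ Δ) X Y` iff
(A) for some `e x y`: `X = pos Γ e x`, `Y = pos Γ e y`, `Adj Δ x y`, or (B) for some `e`: one of `X, Y` is `inl (Γ.i e)` or
`inl (Γ.t e)` and the other one is `pos Γ e (last)`. In (A) at least one of `x, y` is neither `0` nor `last`, and this
vertex determines `e`.
`inj`, `loop`: immediate from this, `Girth5 Δ` and `Simple Γ` (an original arc `(inl e, b)` is determined by its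
end `pos Γ e last = inr (e, _)` and its other end, as `Γ.i e ≠ Γ.t e`). `three`: if one vertex, say `X`, is nonspecial
(in the gadget `e`), then `Y, Z` are in the gadget `e`: `Y = pos e y`, `Z = pos e z`; if `y` or `z` is nonspecial
the arc `YZ` is a gadget arc of `e` and we have a triangle in `Δ`; if both are special then `{y, z} = {0, last}` (`y ≠ z`
by `loop`) and `x` is adjacent to both, against `d2`. If all three are special all arcs are of type (B), impossible since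
(B) is bipartite (`inl _` against `inr _`; note `0 < N`, so `pos Γ e last` is an `inr`). `four`: if all four vertices
are special, all arcs are of type (B): `inl v — pos e — inl w — pos e' — inl v` with `v ≠ w` and
`pos e ≠ pos e'`, so `e ≠ e'` have the same two ends, against `Simple Γ`. Otherwise let `X = pos e x` be nonspecial; `Y, W`
are in the gadget of `e`, `Y = pos e y`, `W = pos e w`, `y ≠ w`. If both `y, w` are special: `{y, w} = {0, last}`, `d2`. If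
`y` is nonspecial then `Z = pos e z` too; if `w` or `z` is nonspecial the arc `ZW` is in the gadget `e`, 4-cycle in `Δ`.
If both are special and `z ≠ w`: `{z, w} = {0, last}`, and `w — x — y — z` contradicts `d3` (or its
mirror image; `Adj` is symmetric); `z = w` is impossible by `loop`. Symmetrically if `w` is nonspecial.
Keep helpers private.
-/

namespace Pool.Agent.KTR

open Finset Pool.Agent.LOT

section

variable {V E : Type} {N : ℕ}

private theorem g_symm {V E : Type} {Γ : LOG V E} {x y : V} (h : Adj Γ x y) : Adj Γ y x := by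
  obtain ⟨a, h⟩ := h
  exact ⟨a, h.symm⟩

private theorem g_zero (Γ : LOG V E) (e : E) : (pos Γ e 0 : V ⊕ (E × Fin N)) = Sum.inl (Γ.l e) :=
  rfl

private theorem g_succ (Γ : LOG V E) (e : E) (k : Fin N) : pos Γ e k.succ = Sum.inr (e, k) := by
  unfold pos
  rw [Fin.cons_succ]

private theorem g_inj {Γ : LOG V E} {e e' : E} {x x' : Fin (N + 1)} (h : pos Γ e x = pos Γ e' x')
    (hx : x ≠ 0) : e = e' ∧ x = x' := by
  obtain ⟨k, rfl⟩ := Fin.exists_succ_eq.2 hx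
  rw [g_succ] at h
  by_cases hx' : x' = 0
  · subst hx'
    rw [g_zero] at h
    exact absurd h (by simp)
  · obtain ⟨k', rfl⟩ := Fin.exists_succ_eq.2 hx'
    rw [g_succ] at h
    have h1 := Sum.inr.inj h
    rw [Prod.mk.injEq] at h1
    exact ⟨h1.1, by rw [h1.2]⟩

private theorem g_inj' {Γ : LOG V E} {e : E} {x x' : Fin (N + 1)} (h : pos Γ e x = pos Γ e x') :
    x = x' := by
  by_cases hx : x = 0
  · by_cases hx' : x' = 0
    · rw [hx, hx']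
    · exact (g_inj h.symm hx').2.symm
  · exact (g_inj h hx).2

private theorem g_ne_inl {Γ : LOG V E} {e : E} {x : Fin (N + 1)} (hx : x ≠ 0) (v : V) :
    pos Γ e x ≠ Sum.inl v := by
  obtain ⟨k, rfl⟩ := Fin.exists_succ_eq.2 hx
  rw [g_succ]
  simp

private theorem g_last (hN : 0 < N) : Fin.last N ≠ 0 := by
  intro h
  have h1 := congrArg Fin.val h
  simp at h1
  omega

/-- original arcs -/
private def GB (Γ : LOG V E) (X Y : V ⊕ (E × Fin N)) : Prop :=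
  ∃ e, (X = Sum.inl (Γ.i e) ∨ X = Sum.inl (Γ.t e)) ∧ Y = pos Γ e (Fin.last N)

/-- inner vertices of gadgets -/
private def GI (Γ : LOG V E) (X : V ⊕ (E × Fin N)) : Prop :=
  ∃ e x, X = pos Γ e x ∧ x ≠ 0 ∧ x ≠ Fin.last N

private theorem g_cases {Γ : LOG V E} {Δ : LOG (Fin (N + 1)) (Fin N)} {X Y : V ⊕ (E × Fin N)}
    (h : Adj (glue Γ Δ) X Y) :
    (∃ e x y, X = pos Γ e x ∧ Y = pos Γ e y ∧ Adj Δ x y) ∨ GB Γ X Y ∨ GB Γ Y X := by
  obtain ⟨⟨a, b⟩, h⟩ := h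
  rcases a with e | ⟨e, p⟩
  · right
    have hhd : (glue Γ Δ).hd (Sum.inl e, b) = pos Γ e (Fin.last N) := rfl
    have htl : (glue Γ Δ).tl (Sum.inl e, b) = Sum.inl (Γ.i e) ∨
        (glue Γ Δ).tl (Sum.inl e, b) = Sum.inl (Γ.t e) := by
      cases b
      · right
        rfl
      · left
        rfl
    rcases h with ⟨h1, h2⟩ | ⟨h1, h2⟩
    · left
      rw [← h1, ← h2]
      exact ⟨e, htl, hhd⟩
    · right
      rw [← h1, ← h2]
      exact ⟨e, htl, hhd⟩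
  · left
    have hhd : (glue Γ Δ).hd (Sum.inr (e, p), b) = pos Γ e (Δ.hd (p, b)) := rfl
    have htl : (glue Γ Δ).tl (Sum.inr (e, p), b) = pos Γ e (Δ.tl (p, b)) := by
      cases b <;> rfl
    rcases h with ⟨h1, h2⟩ | ⟨h1, h2⟩
    · rw [← h1, ← h2]
      exact ⟨e, _, _, htl, hhd, (p, b), Or.inl ⟨rfl, rfl⟩⟩
    · rw [← h1, ← h2]
      exact ⟨e, _, _, hhd, htl, (p, b), Or.inr ⟨rfl, rfl⟩⟩

private theorem g_inner {Γ : LOG V E} {Δ : LOG (Fin (N + 1)) (Fin N)} {e : E} {x : Fin (N + 1)}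
    {Y : V ⊕ (E × Fin N)} (h0 : x ≠ 0) (h1 : x ≠ Fin.last N)
    (h : Adj (glue Γ Δ) (pos Γ e x) Y) : ∃ y, Y = pos Γ e y ∧ Adj Δ x y := by
  rcases g_cases h with ⟨e', x', y', h2, h3, h4⟩ | ⟨e', h2, -⟩ | ⟨e', -, h2⟩
  · obtain ⟨rfl, rfl⟩ := g_inj h2 h0
    exact ⟨y', h3, h4⟩
  · rcases h2 with h2 | h2
    · exact absurd h2 (g_ne_inl h0 _)
    · exact absurd h2 (g_ne_inl h0 _)
  · exact absurd (g_inj h2 h0).2 h1

private theorem g_adj {Γ : LOG V E} {Δ : LOG (Fin (N + 1)) (Fin N)} {e : E} {x y : Fin (N + 1)}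
    (h0 : x ≠ 0) (h1 : x ≠ Fin.last N) (h : Adj (glue Γ Δ) (pos Γ e x) (pos Γ e y)) :
    Adj Δ x y := by
  obtain ⟨y', h2, h3⟩ := g_inner h0 h1 h
  rw [g_inj' h2]
  exact h3

private theorem g_spec {x : Fin (N + 1)} (h : ¬ (x ≠ 0 ∧ x ≠ Fin.last N)) :
    x = 0 ∨ x = Fin.last N := by
  by_contra hc
  push Not at hc
  exact h hc

private theorem g_loopΔ {Δ : LOG (Fin (N + 1)) (Fin N)} (hΔ : GadOK Δ) {x : Fin (N + 1)}
    (h : Adj Δ x x) : False := by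
  obtain ⟨a, h | h⟩ := h
  · exact hΔ.girth.loop a (h.1.trans h.2.symm)
  · exact hΔ.girth.loop a (h.1.trans h.2.symm)

private theorem g_sp2 {Δ : LOG (Fin (N + 1)) (Fin N)} (hΔ : GadOK Δ) {x y : Fin (N + 1)}
    (hx : x = 0 ∨ x = Fin.last N) (hy : y = 0 ∨ y = Fin.last N) (h : Adj Δ x y) : False := by
  rcases hx with rfl | rfl <;> rcases hy with rfl | rfl
  · exact g_loopΔ hΔ h
  · exact hΔ.d1 h
  · exact hΔ.d1 (g_symm h)
  · exact g_loopΔ hΔ h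

private theorem g_sp {Γ : LOG V E} {Δ : LOG (Fin (N + 1)) (Fin N)} (hΔ : GadOK Δ)
    {X Y : V ⊕ (E × Fin N)} (hX : ¬ GI Γ X) (hY : ¬ GI Γ Y) (h : Adj (glue Γ Δ) X Y) :
    GB Γ X Y ∨ GB Γ Y X := by
  rcases g_cases h with ⟨e, x, y, rfl, rfl, h4⟩ | h2
  · exfalso
    exact g_sp2 hΔ (g_spec fun hc => hX ⟨e, x, rfl, hc.1, hc.2⟩)
      (g_spec fun hc => hY ⟨e, y, rfl, hc.1, hc.2⟩) h4
  · exact h2

private theorem g_loop {Γ : LOG V E} {Δ : LOG (Fin (N + 1)) (Fin N)} (hΔ : GadOK Δ)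
    {X : V ⊕ (E × Fin N)} (h : Adj (glue Γ Δ) X X) : False := by
  have hB : ¬ GB Γ X X := by
    rintro ⟨e, h1, h2⟩
    rw [h2] at h1
    rcases h1 with h1 | h1
    · exact g_ne_inl (g_last hΔ.pos) _ h1
    · exact g_ne_inl (g_last hΔ.pos) _ h1
  rcases g_cases h with ⟨e, x, y, h2, h3, h4⟩ | h2 | h2
  · have h5 := g_inj' (h2.symm.trans h3)
    subst h5
    exact g_loopΔ hΔ h4
  · exact hB h2
  · exact hB h2

private theorem g_three {Γ : LOG V E} {Δ : LOG (Fin (N + 1)) (Fin N)} (hΔ : GadOK Δ)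
    {X Y Z : V ⊕ (E × Fin N)} (hX : GI Γ X) (h1 : Adj (glue Γ Δ) X Y) (h2 : Adj (glue Γ Δ) Y Z)
    (h3 : Adj (glue Γ Δ) Z X) : False := by
  obtain ⟨e, x, rfl, hx0, hx1⟩ := hX
  obtain ⟨y, rfl, hy⟩ := g_inner hx0 hx1 h1
  obtain ⟨z, rfl, hz⟩ := g_inner hx0 hx1 (g_symm h3)
  by_cases hyi : y ≠ 0 ∧ y ≠ Fin.last N
  · exact hΔ.girth.three x y z hy (g_adj hyi.1 hyi.2 h2) (g_symm hz)
  by_cases hzi : z ≠ 0 ∧ z ≠ Fin.last N
  · exact hΔ.girth.three x y z hy (g_symm (g_adj hzi.1 hzi.2 (g_symm h2))) (g_symm hz)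
  rcases g_spec hyi with rfl | rfl <;> rcases g_spec hzi with rfl | rfl
  · exact g_loop hΔ h2
  · exact hΔ.d2 x ⟨g_symm hy, hz⟩
  · exact hΔ.d2 x ⟨g_symm hz, hy⟩
  · exact g_loop hΔ h2

private theorem g_four' {Γ : LOG V E} {Δ : LOG (Fin (N + 1)) (Fin N)} (hΔ : GadOK Δ)
    {e : E} {x y w : Fin (N + 1)} {Z : V ⊕ (E × Fin N)} (hx0 : x ≠ 0) (hx1 : x ≠ Fin.last N)
    (hy0 : y ≠ 0) (hy1 : y ≠ Fin.last N) (hxy : Adj Δ x y) (hxw : Adj Δ x w)
    (h2 : Adj (glue Γ Δ) (pos Γ e y) Z) (h3 : Adj (glue Γ Δ) Z (pos Γ e w))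
    (hne : pos Γ e x ≠ Z) (hyw : y ≠ w) : False := by
  obtain ⟨z, rfl, hz⟩ := g_inner hy0 hy1 h2
  have hxz : x ≠ z := fun h => hne (by rw [h])
  by_cases hzi : z ≠ 0 ∧ z ≠ Fin.last N
  · exact hΔ.girth.four x y z w hxy hz (g_adj hzi.1 hzi.2 h3) (g_symm hxw) hxz hyw
  by_cases hwi : w ≠ 0 ∧ w ≠ Fin.last N
  · exact hΔ.girth.four x y z w hxy hz (g_symm (g_adj hwi.1 hwi.2 (g_symm h3))) (g_symm hxw)
      hxz hyw
  rcases g_spec hzi with rfl | rfl <;> rcases g_spec hwi with rfl | rfl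
  · exact g_loop hΔ h3
  · exact hΔ.d3 y x ⟨g_symm hz, g_symm hxy, hxw⟩
  · exact hΔ.d3 x y ⟨g_symm hxw, hxy, hz⟩
  · exact g_loop hΔ h3

private theorem g_four {Γ : LOG V E} {Δ : LOG (Fin (N + 1)) (Fin N)} (hΔ : GadOK Δ)
    {X Y Z W : V ⊕ (E × Fin N)} (hX : GI Γ X) (h1 : Adj (glue Γ Δ) X Y)
    (h2 : Adj (glue Γ Δ) Y Z) (h3 : Adj (glue Γ Δ) Z W) (h4 : Adj (glue Γ Δ) W X) (hXZ : X ≠ Z)
    (hYW : Y ≠ W) : False := by
  obtain ⟨e, x, rfl, hx0, hx1⟩ := hX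
  obtain ⟨y, rfl, hy⟩ := g_inner hx0 hx1 h1
  obtain ⟨w, rfl, hw⟩ := g_inner hx0 hx1 (g_symm h4)
  have hyw : y ≠ w := fun h => hYW (by rw [h])
  by_cases hyi : y ≠ 0 ∧ y ≠ Fin.last N
  · exact g_four' hΔ hx0 hx1 hyi.1 hyi.2 hy hw h2 h3 hXZ hyw
  by_cases hwi : w ≠ 0 ∧ w ≠ Fin.last N
  · exact g_four' hΔ hx0 hx1 hwi.1 hwi.2 hw hy (g_symm h3) (g_symm h2) hXZ hyw.symm
  rcases g_spec hyi with rfl | rfl <;> rcases g_spec hwi with rfl | rfl
  · exact hyw rfl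
  · exact hΔ.d2 x ⟨g_symm hy, hw⟩
  · exact hΔ.d2 x ⟨g_symm hw, hy⟩
  · exact hyw rfl

private theorem g_noBB {Γ : LOG V E} (hN : 0 < N) {X Y Z : V ⊕ (E × Fin N)} (h : GB Γ X Y)
    (h' : GB Γ Y Z) : False := by
  obtain ⟨e, -, rfl⟩ := h
  obtain ⟨e', h1 | h1, -⟩ := h'
  · exact g_ne_inl (g_last hN) _ h1
  · exact g_ne_inl (g_last hN) _ h1

private theorem g_same {Γ : LOG V E} (hs : Simple Γ) (hN : 0 < N) {X Y Z W : V ⊕ (E × Fin N)}
    (h1 : GB Γ X Y) (h2 : GB Γ Z Y) (h3 : GB Γ Z W) (h4 : GB Γ X W) (hXZ : X ≠ Z) : Y = W := by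
  obtain ⟨e, hX, rfl⟩ := h1
  obtain ⟨e1, hZ, h5⟩ := h2
  obtain ⟨rfl, -⟩ := g_inj h5 (g_last hN)
  obtain ⟨f, hZ', rfl⟩ := h3
  obtain ⟨f1, hX', h6⟩ := h4
  obtain ⟨rfl, -⟩ := g_inj h6 (g_last hN)
  have key : e = f := by
    apply hs.inj
    rcases hX with hX | hX <;> rcases hZ with hZ | hZ <;> rcases hX' with hX' | hX' <;>
      rcases hZ' with hZ' | hZ' <;>
      first
        | exact absurd (hX.trans hZ.symm) hXZ
        | exact absurd (hX'.trans hZ'.symm) hXZ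
        | exact Or.inl ⟨Sum.inl.inj (hX.symm.trans hX'), Sum.inl.inj (hZ.symm.trans hZ')⟩
        | exact Or.inl ⟨Sum.inl.inj (hZ.symm.trans hZ'), Sum.inl.inj (hX.symm.trans hX')⟩
        | exact Or.inr ⟨Sum.inl.inj (hX.symm.trans hX'), Sum.inl.inj (hZ.symm.trans hZ')⟩
        | exact Or.inr ⟨Sum.inl.inj (hZ.symm.trans hZ'), Sum.inl.inj (hX.symm.trans hX')⟩
  rw [key]

private theorem g_fourB {Γ : LOG V E} (hs : Simple Γ) (hN : 0 < N) {X Y Z W : V ⊕ (E × Fin N)}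
    (h1 : GB Γ X Y) (h2 : GB Γ Y Z ∨ GB Γ Z Y) (h3 : GB Γ Z W ∨ GB Γ W Z)
    (h4 : GB Γ W X ∨ GB Γ X W) (hXZ : X ≠ Z) (hYW : Y ≠ W) : False := by
  have h2' : GB Γ Z Y := h2.resolve_left fun h => g_noBB hN h1 h
  have h4' : GB Γ X W := h4.resolve_left fun h => g_noBB hN h h1
  have h3' : GB Γ Z W := h3.resolve_right fun h => g_noBB hN h4' h
  exact hYW (g_same hs hN h1 h2' h3' h4' hXZ)

private theorem g_threeB {Γ : LOG V E} (hN : 0 < N) {X Y Z : V ⊕ (E × Fin N)}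
    (h1 : GB Γ X Y) (h2 : GB Γ Y Z ∨ GB Γ Z Y) (h3 : GB Γ Z X ∨ GB Γ X Z) : False := by
  have h2' : GB Γ Z Y := h2.resolve_left fun h => g_noBB hN h1 h
  rcases h3 with h3 | h3
  · exact g_noBB hN h3 h1
  · exact g_noBB hN h3 h2'

private theorem g_arc (Γ : LOG V E) (Δ : LOG (Fin (N + 1)) (Fin N)) (e : E) (p : Fin N) (b : Bool) :
    (glue Γ Δ).tl (Sum.inr (e, p), b) = pos Γ e (Δ.tl (p, b)) ∧
      (glue Γ Δ).hd (Sum.inr (e, p), b) = pos Γ e (Δ.hd (p, b)) := by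
  cases b <;> exact ⟨rfl, rfl⟩

private theorem g_arcO (Γ : LOG V E) (Δ : LOG (Fin (N + 1)) (Fin N)) (e : E) (b : Bool) :
    (glue Γ Δ).tl (Sum.inl e, b) = Sum.inl (if b then Γ.i e else Γ.t e) ∧
      (glue Γ Δ).hd (Sum.inl e, b) = pos Γ e (Fin.last N) := by
  cases b <;> exact ⟨rfl, rfl⟩

private theorem g_mix {Γ : LOG V E} {Δ : LOG (Fin (N + 1)) (Fin N)} (hΔ : GadOK Δ) {e e' : E}
    {v : V} {x y : Fin (N + 1)} (hxy : Adj Δ x y) (h1 : pos Γ e' x = Sum.inl v)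
    (h2 : pos Γ e' y = pos Γ e (Fin.last N)) : False := by
  have hx : x = 0 := by
    by_contra hx
    exact g_ne_inl hx _ h1
  have hy := (g_inj h2.symm (g_last hΔ.pos)).2
  exact g_sp2 hΔ (Or.inl hx) (Or.inr hy.symm) hxy

end

theorem girth_glue {V E : Type} {N : ℕ} (Γ : LOG V E) (hs : Simple Γ) (Δ : LOG (Fin (N + 1)) (Fin N))
    (hΔ : GadOK Δ) : Girth5 (glue Γ Δ) := by
  refine ⟨?_, ?_, ?_, ?_⟩
  · rintro ⟨a, b⟩ ⟨a', b'⟩ h
    rcases a with e | ⟨e, p⟩ <;> rcases a' with e' | ⟨e', p'⟩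
    · rw [(g_arcO Γ Δ e b).1, (g_arcO Γ Δ e b).2, (g_arcO Γ Δ e' b').1, (g_arcO Γ Δ e' b').2] at h
      rcases h with ⟨h1, h2⟩ | ⟨h1, -⟩
      · obtain ⟨rfl, -⟩ := g_inj h2 (g_last hΔ.pos)
        have h3 := Sum.inl.inj h1
        have h4 := hs.ne e
        cases b <;> cases b' <;> simp at h3 ⊢
        · exact h4 h3.symm
        · exact h4 h3
      · exact absurd h1.symm (g_ne_inl (g_last hΔ.pos) _)
    · exfalso
      rw [(g_arcO Γ Δ e b).1, (g_arcO Γ Δ e b).2, (g_arc Γ Δ e' p' b').1,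
        (g_arc Γ Δ e' p' b').2] at h
      rcases h with ⟨h1, h2⟩ | ⟨h1, h2⟩
      · exact g_mix hΔ ⟨(p', b'), Or.inl ⟨rfl, rfl⟩⟩ h1.symm h2.symm
      · exact g_mix hΔ ⟨(p', b'), Or.inr ⟨rfl, rfl⟩⟩ h1.symm h2.symm
    · exfalso
      rw [(g_arcO Γ Δ e' b').1, (g_arcO Γ Δ e' b').2, (g_arc Γ Δ e p b).1,
        (g_arc Γ Δ e p b).2] at h
      rcases h with ⟨h1, h2⟩ | ⟨h1, h2⟩
      · exact g_mix hΔ ⟨(p, b), Or.inl ⟨rfl, rfl⟩⟩ h1 h2
      · exact g_mix hΔ ⟨(p, b), Or.inr ⟨rfl, rfl⟩⟩ h2 h1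
    · rw [(g_arc Γ Δ e p b).1, (g_arc Γ Δ e p b).2, (g_arc Γ Δ e' p' b').1,
        (g_arc Γ Δ e' p' b').2] at h
      have hadj : Adj Δ (Δ.tl (p, b)) (Δ.hd (p, b)) := ⟨(p, b), Or.inl ⟨rfl, rfl⟩⟩
      have hee : e = e' := by
        by_cases h1 : Δ.tl (p, b) = 0
        · have h2 : Δ.hd (p, b) ≠ 0 := by
            intro h3
            rw [h1, h3] at hadj
            exact g_loopΔ hΔ hadj
          rcases h with ⟨-, h⟩ | ⟨-, h⟩
          · exact (g_inj h h2).1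
          · exact (g_inj h h2).1
        · rcases h with ⟨h, -⟩ | ⟨h, -⟩
          · exact (g_inj h h1).1
          · exact (g_inj h h1).1
      subst hee
      have h5 : (p, b) = (p', b') := by
        apply hΔ.girth.inj
        rcases h with ⟨h1, h2⟩ | ⟨h1, h2⟩
        · exact Or.inl ⟨g_inj' h1, g_inj' h2⟩
        · exact Or.inr ⟨g_inj' h1, g_inj' h2⟩
      rw [Prod.mk.injEq] at h5
      rw [h5.1, h5.2]
  · intro h h1
    exact g_loop hΔ (X := (glue Γ Δ).tl h) ⟨h, Or.inl ⟨rfl, h1.symm⟩⟩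
  · intro x y z h1 h2 h3
    by_cases hx : GI Γ x
    · exact g_three hΔ hx h1 h2 h3
    by_cases hy : GI Γ y
    · exact g_three hΔ hy h2 h3 h1
    by_cases hz : GI Γ z
    · exact g_three hΔ hz h3 h1 h2
    have k1 := g_sp hΔ hx hy h1
    have k2 := g_sp hΔ hy hz h2
    have k3 := g_sp hΔ hz hx h3
    rcases k1 with k1 | k1
    · exact g_threeB hΔ.pos k1 k2 k3
    · exact g_threeB hΔ.pos k1 k3.symm k2.symm
  · intro x y z w h1 h2 h3 h4 hxz hyw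
    by_cases hx : GI Γ x
    · exact g_four hΔ hx h1 h2 h3 h4 hxz hyw
    by_cases hy : GI Γ y
    · exact g_four hΔ hy h2 h3 h4 h1 hyw hxz.symm
    by_cases hz : GI Γ z
    · exact g_four hΔ hz h3 h4 h1 h2 hxz.symm hyw.symm
    by_cases hw : GI Γ w
    · exact g_four hΔ hw h4 h1 h2 h3 hyw.symm hxz
    have k1 := g_sp hΔ hx hy h1
    have k2 := g_sp hΔ hy hz h2
    have k3 := g_sp hΔ hz hw h3
    have k4 := g_sp hΔ hw hx h4
    rcases k1 with k1 | k1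
    · exact g_fourB hs hΔ.pos k1 k2 k3 k4 hxz hyw
    · exact g_fourB hs hΔ.pos k1 k4.symm k3.symm k2.symm hyw hxz

end Pool.Agent.KTR
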