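import Pool.Agent.KTR.Push
import Pool.Agent.KTR.Ext

/-!
# KTR-Ker: homology of the glued graph

PLAN. `bd Γ γ` is additive in `x` (`bd Γ γ (x - y) v = bd Γ γ x v - bd Γ γ y v`). `ker_glue`: the map `y ↦ y ∘ inl` sends
`ker2 (glue Γ Δ)` to `ker2 Γ γ` by `bd_push` (all terms on the left vanish); it is injective by `ext_unique`; surjective:
for `x ∈ ker2 Γ γ` take `y` from `ext_exists` with `w = 0`, then `bd .. y (inl v) = 0` by `bd_push`. Build the additive
equivalence with `AddEquiv.ofBijective`. `exact_glue`: given `z` with `bd1 (γ ∘ prj) z = 0`, `bd1_push` and the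
exactness for `Γ` give `x` with `bd Γ γ x v = z (inl v) + ∑ p, if Γ.l p.1 = v then z (inr p) else 0`; take `y` from
`ext_exists` with `w p = z (inr p)`; `bd_push` gives `bd .. y (inl v) = z (inl v)`. Keep helpers private.
-/

namespace Pool.Agent.KTR

open Finset Pool.Agent.LOT

private theorem bd_sub {V E G : Type} [Group G] [Fintype E] [DecidableEq V] (Γ : LOG V E) (γ : V → G)
    (x y : E → MonoidAlgebra ℤ G) (v : V) : bd Γ γ (x - y) v = bd Γ γ x v - bd Γ γ y v := by
  simp only [bd, Pi.sub_apply, sub_mul, sum_sub_distrib]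

theorem ker_glue {V E G : Type} [Group G] [Fintype V] [Fintype E] [DecidableEq V] [DecidableEq E] {N : ℕ}
    (Γ : LOG V E) (Δ : LOG (Fin (N + 1)) (Fin N)) (hΔ : AlexInv Δ) (γ : V → G) :
    Nonempty (ker2 (glue Γ Δ) (fun u => γ (prj Γ u)) ≃+ ker2 Γ γ) := by
  have hmem : ∀ y : ker2 (glue Γ Δ) (fun u => γ (prj Γ u)),
      (fun e => (y : E ⊕ (E × Fin N) → MonoidAlgebra ℤ G) (Sum.inl e)) ∈ ker2 Γ γ := by
    intro y v
    have h := y.2
    change ∀ v, bd (glue Γ Δ) (fun u => γ (prj Γ u)) y.1 v = 0 at h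
    rw [← bd_push Γ Δ γ y.1 v, h]
    simp [h]
  let f : ker2 (glue Γ Δ) (fun u => γ (prj Γ u)) →+ ker2 Γ γ :=
    { toFun := fun y => ⟨fun e => (y : E ⊕ (E × Fin N) → MonoidAlgebra ℤ G) (Sum.inl e), hmem y⟩
      map_zero' := rfl
      map_add' := fun _ _ => rfl }
  refine ⟨AddEquiv.ofBijective f ⟨?_, ?_⟩⟩
  · intro y y' hyy
    have h1 : ∀ e, (y - y').1 (Sum.inl e) = 0 := by
      intro e
      have h2 := congrFun (congrArg Subtype.val hyy) e
      change y.1 (Sum.inl e) = y'.1 (Sum.inl e) at h2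
      change y.1 (Sum.inl e) - y'.1 (Sum.inl e) = 0
      rw [h2, sub_self]
    have h3 : (y - y').1 = 0 := by
      refine ext_unique Γ Δ hΔ γ _ h1 ?_
      intro p
      exact (y - y').2 (Sum.inr p)
    exact sub_eq_zero.1 (Subtype.ext h3)
  · intro x
    obtain ⟨y, hy1, hy2⟩ := ext_exists Γ Δ hΔ γ x.1 (fun _ => 0)
    have hy : y ∈ ker2 (glue Γ Δ) (fun u => γ (prj Γ u)) := by
      intro v
      rcases v with v | p
      · have h1 := bd_push Γ Δ γ y v
        have h2 : (fun e => y (Sum.inl e)) = x.1 := funext hy1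
        have h3 : bd Γ γ x.1 v = 0 := x.2 v
        rw [h2, h3] at h1
        simpa [hy2] using h1
      · exact hy2 p
    exact ⟨⟨y, hy⟩, Subtype.ext (funext hy1)⟩

theorem exact_glue {V E G : Type} [Group G] [Fintype V] [Fintype E] [DecidableEq V] [DecidableEq E] {N : ℕ}
    (Γ : LOG V E) (Δ : LOG (Fin (N + 1)) (Fin N)) (hΔ : AlexInv Δ) (γ : V → G) (h : Exact1 Γ γ) :
    Exact1 (glue Γ Δ) (fun u => γ (prj Γ u)) := by
  intro z hz
  rw [bd1_push] at hz
  obtain ⟨x, hx⟩ := h _ hz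
  obtain ⟨y, hy1, hy2⟩ := ext_exists Γ Δ hΔ γ x (fun p => z (Sum.inr p))
  refine ⟨y, ?_⟩
  intro v
  rcases v with v | p
  · have h1 := bd_push Γ Δ γ y v
    have h2 : (fun e => y (Sum.inl e)) = x := funext hy1
    rw [h2, hx v] at h1
    simp only [hy2] at h1
    exact add_right_cancel h1
  · exact hy2 p

end Pool.Agent.KTR
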