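import Pool.Agent.KTR.Defs

/-!
# KTR-Wt: weight test for label graphs of girth at least 5

PLAN. All weights `1/2`; the sum over the four corners is `2`. A closed walk of length `m` has weight `m / 2`, so we
must exclude `m = 1, 2, 3`. Let `c n = (e n, κ n, s n)`. The corner `κ` of the square of `e` joins the germs `inv
(side e (κ-1))` and `side e κ`: with `side e = ![(i, true), (l, true), (t, false), (l, false)]` the four corners are
`κ = 0`: `(l, true) — (i, true)`; `κ = 1`: `(i, false) — (l, true)`; `κ = 2`: `(l, false) — (t, false)`;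
`κ = 3`: `(t, true) — (l, false)`. So the corner `κ` of `e` lies over the arc `h = (e, κ < 2)` of the label graph, and the
two corners over the same arc have disjoint pairs of germs at the end `tl h` (they are distinguished by the sign of
the germ over `tl h`; the germ over `hd h = l(e)` has the same sign `κ < 2` for both). Project the walk
to the label graph: `vertex of ing (c n)`, `vertex of outg (c n)` are the two ends of the arc `h n`.
`m = 1`: `outg (c 0) = ing (c 0)` gives a loop. `m = 2`: `h 0` and `h 1` have the same ends, so `h 0 = h 1` by `inj`, and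
(by the germs and `loop`) the corners are equal and traversed in opposite directions: excluded by the last
hypothesis of `IsWeight`. `m = 3`: if two consecutive (cyclically) arcs are equal, then as `loop` holds the walk
backtracks and the third arc would be a loop; otherwise the three arcs form a closed walk x, y, z, x with `Adj`
three times: contradiction to `three`. (Alternatively a case distinction with `fin_cases` over the signs and
corners and `simp [LOG.ing, LOG.outg, LOG.side, inv]`.) Compare `Pool.Agent.LOT.ArcWeight` where the walks of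
corners are translated into walks of arcs (`aing`, `aoutg`). Keep helpers private.
-/

namespace Pool.Agent.KTR

open Finset Pool.Agent.LOT

section
variable {V E : Type}

/-- the arc under a corner -/
private def arc (c : E × Fin 4 × Bool) : E × Bool := (c.1, decide (c.2.1 = 0 ∨ c.2.1 = 1))

/-- the germs of a corner lie over the ends of its arc -/
private theorem ends (Γ : LOG V E) (c : E × Fin 4 × Bool) :
    ((Γ.ing c).1 = Γ.tl (arc c) ∧ (Γ.outg c).1 = Γ.hd (arc c)) ∨
    ((Γ.ing c).1 = Γ.hd (arc c) ∧ (Γ.outg c).1 = Γ.tl (arc c)) := by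
  obtain ⟨e, κ, s⟩ := c
  fin_cases κ <;> cases s <;>
    simp [LOG.ing, LOG.outg, LOG.side, inv, arc, LOG.tl, LOG.hd] 

private theorem adj_ends (Γ : LOG V E) (c : E × Fin 4 × Bool) : Adj Γ (Γ.ing c).1 (Γ.outg c).1 := by
  rcases ends Γ c with h | h
  · exact ⟨arc c, Or.inl ⟨h.1.symm, h.2.symm⟩⟩
  · exact ⟨arc c, Or.inr ⟨h.2.symm, h.1.symm⟩⟩

private theorem ends_ne (Γ : LOG V E) (h : Girth5 Γ) (c : E × Fin 4 × Bool) : (Γ.ing c).1 ≠ (Γ.outg c).1 := by
  rcases ends Γ c with h1 | h1
  · rw [h1.1, h1.2]
    exact h.loop _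
  · rw [h1.1, h1.2]
    exact (h.loop _).symm

/-- two corners with exchanged germs are inverse to each other -/
private theorem back (Γ : LOG V E) (h : Girth5 Γ) (c c' : E × Fin 4 × Bool) (h1 : Γ.outg c = Γ.ing c')
    (h2 : Γ.outg c' = Γ.ing c) : c.1 = c'.1 ∧ c.2.1 = c'.2.1 ∧ c.2.2 ≠ c'.2.2 := by
  have harc : arc c = arc c' := by
    refine h.inj _ _ ?_
    have a1 := congrArg Prod.fst h1
    have a2 := congrArg Prod.fst h2
    rcases ends Γ c with h3 | h3 <;> rcases ends Γ c' with h4 | h4
    · right
      exact ⟨by rw [← h3.1, ← a2, h4.2], by rw [← h3.2, a1, h4.1]⟩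
    · left
      exact ⟨by rw [← h3.1, ← a2, h4.2], by rw [← h3.2, a1, h4.1]⟩
    · left
      exact ⟨by rw [← h3.2, a1, h4.1], by rw [← h3.1, ← a2, h4.2]⟩
    · right
      exact ⟨by rw [← h3.2, a1, h4.1], by rw [← h3.1, ← a2, h4.2]⟩
  obtain ⟨e, κ, s⟩ := c
  obtain ⟨e', κ', s'⟩ := c'
  have he : e = e' := congrArg Prod.fst harc
  subst he
  have hk : decide (κ = 0 ∨ κ = 1) = decide (κ' = 0 ∨ κ' = 1) := congrArg Prod.snd harc
  have l1 := h.loop (e, true)
  have l2 := h.loop (e, false)
  simp only [LOG.tl, LOG.hd, if_true, Bool.false_eq_true, if_false] at l1 l2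
  have l3 := l1.symm
  have l4 := l2.symm
  fin_cases κ <;> fin_cases κ' <;> cases s <;> cases s' <;>
    simp_all [LOG.ing, LOG.outg, LOG.side, inv]

end

theorem isWeight_of_girth5 {V E : Type} (Γ : LOG V E) (h : Girth5 Γ) : IsWeight Γ (fun _ _ => 1 / 2) := by
  refine ⟨fun e => by norm_num, ?_⟩
  intro m c hm hper hcomp hnb
  have hm4 : 4 ≤ m := by
    by_contra hlt
    have h3 : m = 1 ∨ m = 2 ∨ m = 3 := by omega
    rcases h3 with h3 | h3 | h3
    · subst h3
      have h1 := hcomp 0
      have h2 := hper 0
      rw [zero_add] at h1 h2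
      rw [h2] at h1
      exact ends_ne Γ h (c 0) (congrArg Prod.fst h1).symm
    · subst h3
      have h1 := hcomp 0
      have h2 := hcomp 1
      have h4 := hper 0
      rw [zero_add] at h1 h4
      have h5 : c (1 + 1) = c 0 := h4
      rw [h5] at h2
      have h6 := hnb 0
      rw [zero_add] at h6
      exact h6 (back Γ h (c 0) (c 1) h1 h2)
    · subst h3
      have h1 := hcomp 0
      have h2 := hcomp 1
      have h3 := hcomp 2
      have h4 := hper 0
      rw [zero_add] at h1 h4
      have h5 : c (2 + 1) = c 0 := h4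
      rw [h5] at h3
      have h6 : c (1 + 1) = c 2 := rfl
      rw [h6] at h2
      have b0 := adj_ends Γ (c 0)
      have b1 := adj_ends Γ (c 1)
      have b2 := adj_ends Γ (c 2)
      rw [h1] at b0
      rw [h2] at b1
      rw [h3] at b2
      exact h.three _ _ _ b0 b1 b2
  rw [sum_const, card_range, nsmul_eq_mul]
  have h5 : (4 : ℚ) ≤ (m : ℚ) := by exact_mod_cast hm4
  linarith

end Pool.Agent.KTR
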