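import Pool.Agent.KTR.Conn
import Pool.Agent.KTR.Wt

/-!
# KTR-Rei: reindexing

PLAN. All statements are transported along the equivalences `a : V ≃ V'`, `b : E ≃ E'`. `girth_reidx`: `Adj (reidx a b Γ) x y ↔
Adj Γ (a.symm x) (a.symm y)`. `conn_reidx`: `ugraph (reidx a b Γ)` is isomorphic to `ugraph Γ` (`SimpleGraph.Iso`,
`SimpleGraph.Iso.connected_iff`), or use `SimpleGraph.Connected.map`/`Hom`. `use_reidx`: `Finset.card_bij` or
`Finset.card_equiv`. `pres_reidx`: `FreeGroup.lift (gen ∘ a) = (FreeGroup.lift gen).comp (FreeGroup.map a)`, and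
`FreeGroup.map a` is an isomorphism carrying `Γ.rel e` to `(reidx a b Γ).rel (b e)`; `ker` of the composition is the comap
(`Subgroup.comap_normalClosure`-like or `Subgroup.map_normalClosure` with the surjective map). `asph_reidx`:
given `x'` on `E'` killed by `jac (reidx a b Γ) gen`, `x' ∘ b` is killed by `jac Γ (gen ∘ a)`; `jac (reidx a b Γ) gen (b e) (a v) = jac
Γ (gen ∘ a) e v`. Keep helpers private.
-/

namespace Pool.Agent.KTR

open Finset Pool.Agent.LOT

section
variable {V E V' E' G : Type} [Group G] (a : V ≃ V') (b : E ≃ E') (Γ : LOG V E)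

private theorem tl_reidx (h : E' × Bool) :
    (reidx a b Γ).tl h = a (Γ.tl (b.symm h.1, h.2)) := by
  rcases h with ⟨e, s⟩
  cases s <;> rfl

private theorem hd_reidx (h : E' × Bool) :
    (reidx a b Γ).hd h = a (Γ.hd (b.symm h.1, h.2)) := by
  rcases h with ⟨e, s⟩
  cases s <;> rfl

private theorem adj_reidx (x y : V') (h : Adj (reidx a b Γ) x y) :
    Adj Γ (a.symm x) (a.symm y) := by
  obtain ⟨h, h1⟩ := h
  refine ⟨(b.symm h.1, h.2), ?_⟩
  rw [tl_reidx, hd_reidx] at h1
  rcases h1 with ⟨h2, h3⟩ | ⟨h2, h3⟩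
  · left
    rw [← h2, ← h3]
    simp
  · right
    rw [← h2, ← h3]
    simp

theorem girth_reidx (h : Girth5 Γ) : Girth5 (reidx a b Γ) := by
  refine { inj := ?_, loop := ?_, three := ?_, four := ?_ }
  · intro x y hxy
    rw [tl_reidx, tl_reidx, hd_reidx, hd_reidx] at hxy
    simp only [a.injective.eq_iff] at hxy
    have h1 := h.inj _ _ hxy
    rw [Prod.mk.injEq] at h1
    exact Prod.ext (b.symm.injective h1.1) h1.2
  · intro x
    rw [tl_reidx, hd_reidx]
    intro h1
    exact h.loop _ (a.injective h1)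
  · intro x y z h1 h2 h3
    exact h.three _ _ _ (adj_reidx a b Γ _ _ h1) (adj_reidx a b Γ _ _ h2) (adj_reidx a b Γ _ _ h3)
  · intro x y z w h1 h2 h3 h4 h5 h6
    exact h.four _ _ _ _ (adj_reidx a b Γ _ _ h1) (adj_reidx a b Γ _ _ h2)
      (adj_reidx a b Γ _ _ h3) (adj_reidx a b Γ _ _ h4) (fun h => h5 (a.symm.injective h))
      (fun h => h6 (a.symm.injective h))

theorem conn_reidx (h : (ugraph Γ).Connected) : (ugraph (reidx a b Γ)).Connected := by
  have hiso : ∀ x y, (ugraph (reidx a b Γ)).Adj (a x) (a y) ↔ (ugraph Γ).Adj x y := by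
    intro x y
    unfold ugraph
    rw [SimpleGraph.fromRel_adj, SimpleGraph.fromRel_adj]
    have h1 : ∀ x y, (∃ e, (reidx a b Γ).i e = a x ∧ (reidx a b Γ).t e = a y) ↔
        ∃ e, Γ.i e = x ∧ Γ.t e = y := by
      intro x y
      constructor
      · rintro ⟨e, h2, h3⟩
        exact ⟨b.symm e, a.injective h2, a.injective h3⟩
      · rintro ⟨e, h2, h3⟩
        refine ⟨b e, ?_, ?_⟩
        · show a (Γ.i (b.symm (b e))) = a x
          rw [b.symm_apply_apply, h2]
        · show a (Γ.t (b.symm (b e))) = a y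
          rw [b.symm_apply_apply, h3]
    rw [h1, h1, a.injective.ne_iff]
  have iso : ugraph Γ ≃g ugraph (reidx a b Γ) :=
    { toEquiv := a, map_rel_iff' := fun {x y} => hiso x y }
  exact iso.connected_iff.mp h

theorem use_reidx [Fintype E] [Fintype E'] [DecidableEq V] [DecidableEq V'] (v : V') :
    use (reidx a b Γ) v = use Γ (a.symm v) := by
  unfold use
  refine Finset.card_bij (fun e _ => b.symm e) ?_ ?_ ?_
  · intro e he
    rw [Finset.mem_filter] at he ⊢
    refine ⟨Finset.mem_univ _, ?_⟩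
    rw [← he.2]
    show Γ.l (b.symm e) = a.symm (a (Γ.l (b.symm e)))
    rw [a.symm_apply_apply]
  · intro e _ e' _ h
    exact b.symm.injective h
  · intro e he
    rw [Finset.mem_filter] at he
    refine ⟨b e, ?_, b.symm_apply_apply e⟩
    rw [Finset.mem_filter]
    refine ⟨Finset.mem_univ _, ?_⟩
    show a (Γ.l (b.symm (b e))) = v
    rw [b.symm_apply_apply, he.2, a.apply_symm_apply]

private theorem rel_reidx (e : E') :
    (reidx a b Γ).rel e = FreeGroup.map a (Γ.rel (b.symm e)) := by
  unfold LOG.rel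
  rw [FreeGroup.map.mk]
  rfl

theorem pres_reidx (gen : V' → G) (h : IsPres (reidx a b Γ) gen) : IsPres Γ (fun v => gen (a v)) := by
  have hl : ∀ w : FreeGroup V, FreeGroup.lift (fun v => gen (a v)) w =
      FreeGroup.lift gen (FreeGroup.map a w) := by
    intro w
    have h0 : FreeGroup.lift (fun v => gen (a v)) =
        (FreeGroup.lift gen).comp (FreeGroup.map a) := by
      ext v
      simp
    rw [h0, MonoidHom.comp_apply]
  have hinj : Function.Injective (FreeGroup.map a) :=
    FreeGroup.map_injective a.injective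
  have hsurj : Function.Surjective (FreeGroup.map a) :=
    FreeGroup.map_surjective a.surjective
  refine ⟨?_, ?_⟩
  · intro g
    obtain ⟨w, hw⟩ := h.surj g
    obtain ⟨w', rfl⟩ := hsurj w
    exact ⟨w', by rw [hl]; exact hw⟩
  · have h1 : (FreeGroup.lift (fun v => gen (a v))).ker =
        (FreeGroup.lift gen).ker.comap (FreeGroup.map a) := by
      ext w
      rw [MonoidHom.mem_ker, Subgroup.mem_comap, MonoidHom.mem_ker, hl]
    have h2 : Subgroup.normalClosure (Set.range (reidx a b Γ).rel) =
        (Subgroup.normalClosure (Set.range Γ.rel)).map (FreeGroup.map a) := by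
      rw [Subgroup.map_normalClosure _ _ hsurj]
      congr 1
      ext w
      constructor
      · rintro ⟨e, rfl⟩
        exact ⟨Γ.rel (b.symm e), ⟨_, rfl⟩, (rel_reidx a b Γ e).symm⟩
      · rintro ⟨_, ⟨e, rfl⟩, rfl⟩
        refine ⟨b e, ?_⟩
        rw [rel_reidx, b.symm_apply_apply]
    rw [h1, h.ker, h2, Subgroup.comap_map_eq_self_of_injective hinj]

private theorem jac_reidx [DecidableEq V] [DecidableEq V'] (gen : V' → G) (e : E') (v : V) :
    jac (reidx a b Γ) gen e (a v) = jac Γ (fun v => gen (a v)) (b.symm e) v := by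
  unfold jac
  have h1 : ∀ x y : V, (a x = a y) = (x = y) := fun x y => propext a.injective.eq_iff
  show (if a (Γ.i (b.symm e)) = a v then _ else _) + (if a (Γ.l (b.symm e)) = a v then _ else _)
    - (if a (Γ.t (b.symm e)) = a v then _ else _) - (if a (Γ.l (b.symm e)) = a v then _ else _) = _
  simp only [h1]
  rfl

theorem asph_reidx [Fintype E] [Fintype E'] [DecidableEq V] [DecidableEq V'] (gen : V' → G)
    (h : Asph Γ (fun v => gen (a v))) : Asph (reidx a b Γ) gen := by
  intro x hx
  have h1 := h (fun e => x (b e)) (by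
    intro v
    have h2 := hx (a v)
    rw [← h2]
    refine Fintype.sum_equiv b _ _ ?_
    intro e
    rw [jac_reidx, b.symm_apply_apply])
  funext e
  have h2 := congrFun h1 (b.symm e)
  simpa using h2

end

end Pool.Agent.KTR
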