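import Pool.Agent.KTR.Defs

/-!
# KTR-Use: every vertex of the glued graph is a label at most twice

PLAN. The edges of `glue Γ Δ` with label `v`: if `v = inl u`: the edges `inr (e, p)` with `pos Γ e (Δ.l p) = inl u`, i.e.
`Δ.l p = 0` and `Γ.l e = u`, none by `use0` (and no `inl e`, because `pos Γ e (last) = inr _` as `0 < N`). If
`v = inr (e, k)`: the edges `inr (e', p)` with `e' = e` and `Δ.l p = k.succ` (`use Δ k.succ` of them), and `inl e'` with
`e' = e`, only if `k.succ = Fin.last N`. So `use = use Δ k.succ + (if k.succ = last then 1 else 0) ≤ 2` by `use2`, `useL`.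
Keep helpers private.
-/

namespace Pool.Agent.KTR

open Finset Pool.Agent.LOT

private theorem pos_eq_inr {V E : Type} {N : ℕ} (Γ : LOG V E) (e' e : E) (j : Fin (N + 1)) (k : Fin N) :
    pos Γ e' j = Sum.inr (e, k) ↔ e' = e ∧ j = k.succ := by
  refine Fin.cases ?_ (fun j => ?_) j
  · constructor
    · intro h
      have h1 : (Sum.inl (Γ.l e') : V ⊕ (E × Fin N)) = Sum.inr (e, k) := h
      simp at h1
    · rintro ⟨_, h⟩
      exact absurd h.symm (Fin.succ_ne_zero k)
  · constructor
    · intro h
      have h1 : (Sum.inr (e', j) : V ⊕ (E × Fin N)) = Sum.inr (e, k) := h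
      simp only [Sum.inr.injEq, Prod.mk.injEq] at h1
      exact ⟨h1.1, by rw [h1.2]⟩
    · rintro ⟨h1, h2⟩
      have h3 := Fin.succ_injective N h2
      subst h1 h3
      rfl

private theorem pos_eq_inl {V E : Type} {N : ℕ} (Γ : LOG V E) (e' : E) (j : Fin (N + 1)) (u : V) :
    pos Γ e' j = Sum.inl u → j = 0 := by
  refine Fin.cases ?_ (fun j => ?_) j
  · intro _
    rfl
  · intro h
    have h1 : (Sum.inr (e', j) : V ⊕ (E × Fin N)) = Sum.inl u := h
    simp at h1

theorem use_glue {V E : Type} [Fintype E] [DecidableEq V] [DecidableEq E] {N : ℕ} (Γ : LOG V E)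
    (Δ : LOG (Fin (N + 1)) (Fin N)) (hΔ : GadOK Δ) (v : V ⊕ (E × Fin N)) : use (glue Γ Δ) v ≤ 2 := by
  have hN := hΔ.pos
  have hlast : Fin.last N ≠ 0 := by
    intro h
    have := congrArg Fin.val h
    simp at this
    omega
  rcases v with u | ⟨e, k⟩
  · have h1 : use (glue Γ Δ) (Sum.inl u) = 0 := by
      unfold use
      rw [card_eq_zero, filter_eq_empty_iff]
      rintro (e' | ⟨e', p⟩) _ h
      · exact hlast (pos_eq_inl Γ e' _ u h)
      · have h2 : Δ.l p = 0 := pos_eq_inl Γ e' _ u h
        have h3 := hΔ.use0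
        unfold use at h3
        rw [card_eq_zero, filter_eq_empty_iff] at h3
        exact h3 (mem_univ p) h2
    omega
  · have h1 : use (glue Γ Δ) (Sum.inr (e, k)) ≤ use Δ k.succ + (if k.succ = Fin.last N then 1 else 0) := by
      unfold use
      have h2 : (univ.filter (fun y : E ⊕ (E × Fin N) => (glue Γ Δ).l y = Sum.inr (e, k)))
          ⊆ ((univ.filter (fun p => Δ.l p = k.succ)).image (fun p => (Sum.inr (e, p) : E ⊕ (E × Fin N))))
            ∪ (if k.succ = Fin.last N then {Sum.inl e} else ∅) := by
        rintro (e' | ⟨e', p⟩) hy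
        · rw [mem_filter] at hy
          have h3 := (pos_eq_inr Γ e' e (Fin.last N) k).1 hy.2
          rw [mem_union]
          right
          rw [if_pos h3.2.symm, mem_singleton, h3.1]
        · rw [mem_filter] at hy
          have h3 := (pos_eq_inr Γ e' e (Δ.l p) k).1 hy.2
          rw [mem_union]
          left
          rw [mem_image]
          exact ⟨p, by rw [mem_filter]; exact ⟨mem_univ _, h3.2⟩, by rw [h3.1]⟩
      refine le_trans (card_le_card h2) (le_trans (card_union_le _ _) ?_)
      refine add_le_add card_image_le ?_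
      split_ifs
      · simp
      · simp
    have h2 := hΔ.use2 k.succ
    have h3 := hΔ.useL
    split_ifs at h1 with h4
    · rw [h4] at h1
      omega
    · omega

end Pool.Agent.KTR
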