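import Pool.Agent.KTR.Main
import Pool.Agent.KTR.Ker
import Pool.Agent.KTR.Gir
import Pool.Agent.KTR.Use
import Pool.Agent.KTR.Rei
import Pool.Agent.KTR.Gad
import Pool.Agent.KTR.GadB

/-!
# KTR-Fin: assembly

PLAN. `Γ1 = glue Γ gad`, `V1 = Fin (m+1) ⊕ (Fin m × Fin 27)`, `E1 = Fin m ⊕ (Fin m × Fin 27)`, equivalences `a : V1 ≃
Fin (28 m + 1)`, `b : E1 ≃ Fin (28 m)` (`Fintype.equivFinOfCardEq`), `Γ' = reidx a b Γ1`, `f v = prj Γ (a.symm v)`.
`simple_of_tree`, `girth_glue`, `girth_reidx`, `use_glue`, `use_reidx`, `conn_glue`, `conn_reidx`, `isTree_of_conn`. Presentation of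
`PresentedGroup (Set.range Γ'.rel)` by `Γ'`: `isPres_pgen`, by `Γ1`: `pres_reidx`, generators `gen1 v = pgen Γ' (a v)`. Asphericity:
`weight_test` with `isWeight_of_girth5` for `Γ1` and `asph_reidx` (or directly for `Γ'`). The homomorphism `φ`:
`PresentedGroup.toGroup` with `v ↦ pgen Γ (f v)`: the relator of an edge `inl e` goes to the relator of `e`, the one of
`inr (e, p)` goes to `g g g⁻¹ g⁻¹ = 1`. `φ` is onto since `f` is onto (`inl v ↦ v`) and the `pgen Γ v` generate. `φ (gen1 u) = pgen Γ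
(prj Γ u)`, so `Exact1 Γ1 (φ ∘ gen1)` by `exact_glue` and `exact_of_pres (isPres_pgen Γ)`, `ker2 Γ1 (φ ∘ gen1) ≃+ ker2 Γ
(pgen Γ)` by `ker_glue`; then `main_abs` for `Γ1`, `gen1`.
-/

namespace Pool.Agent.KTR

open Finset Pool.Agent.LOT

private theorem prj_pos {V E : Type} {N : ℕ} (Γ : LOG V E) (e : E) (k : Fin (N + 1)) :
    prj Γ (pos Γ e k) = Γ.l e := by
  refine Fin.cases ?_ (fun j => ?_) k
  · rfl
  · rfl

theorem final (m : ℕ) (Γ : LOG (Fin (m + 1)) (Fin m)) (hT : (ugraph Γ).IsTree) :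
    ∃ (Γ' : LOG (Fin (28 * m + 1)) (Fin (28 * m))) (f : Fin (28 * m + 1) → Fin (m + 1))
      (φ : PresentedGroup (Set.range Γ'.rel) →* PresentedGroup (Set.range Γ.rel)),
      (ugraph Γ').IsTree ∧ Girth5 Γ' ∧ (∀ v, use Γ' v ≤ 2) ∧ Asph Γ' (pgen Γ') ∧
      Function.Surjective f ∧ (∀ v, φ (pgen Γ' v) = pgen Γ (f v)) ∧
      commutator φ.ker = ⊤ ∧
      ∃ (U : Type) (_ : Group U) (p : U →* φ.ker), Function.Surjective p ∧ p.ker ≤ Subgroup.center U ∧
        commutator U = ⊤ ∧ Splits U ∧ Nonempty (Additive p.ker ≃+ ker2 Γ (pgen Γ)) := by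
  classical
  have hs : Simple Γ := simple_of_tree Γ hT (by simp)
  have hcV : Fintype.card (Fin (m + 1) ⊕ (Fin m × Fin 27)) = 28 * m + 1 := by
    simp only [Fintype.card_sum, Fintype.card_prod, Fintype.card_fin]
    ring
  have hcE : Fintype.card (Fin m ⊕ (Fin m × Fin 27)) = 28 * m := by
    simp only [Fintype.card_sum, Fintype.card_prod, Fintype.card_fin]
    ring
  let a : Fin (m + 1) ⊕ (Fin m × Fin 27) ≃ Fin (28 * m + 1) := Fintype.equivFinOfCardEq hcV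
  let b : Fin m ⊕ (Fin m × Fin 27) ≃ Fin (28 * m) := Fintype.equivFinOfCardEq hcE
  let Γ1 : LOG (Fin (m + 1) ⊕ (Fin m × Fin 27)) (Fin m ⊕ (Fin m × Fin 27)) := glue Γ gad
  let Γ' : LOG (Fin (28 * m + 1)) (Fin (28 * m)) := reidx a b Γ1
  have hg1 : Girth5 Γ1 := girth_glue Γ hs gad gad_ok
  have hg' : Girth5 Γ' := girth_reidx a b Γ1 hg1
  have hcon1 : (ugraph Γ1).Connected := conn_glue Γ gad hT.connected gad_ok.conn
  have hcon' : (ugraph Γ').Connected := conn_reidx a b Γ1 hcon1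
  have hT' : (ugraph Γ').IsTree := isTree_of_conn Γ' hcon' (by simp)
  have huse : ∀ v, use Γ' v ≤ 2 := by
    intro v
    rw [use_reidx a b Γ1 v]
    exact use_glue Γ gad gad_ok _
  have hP' : IsPres Γ' (pgen Γ') := isPres_pgen Γ'
  have hP1 : IsPres Γ1 (fun v => pgen Γ' (a v)) := pres_reidx a b Γ1 (pgen Γ') hP'
  have hA1 : Asph Γ1 (fun v => pgen Γ' (a v)) := weight_test hP1 (isWeight_of_girth5 Γ1 hg1)
  have hA' : Asph Γ' (pgen Γ') := asph_reidx a b Γ1 (pgen Γ') hA1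
  let f : Fin (28 * m + 1) → Fin (m + 1) := fun v => prj Γ (a.symm v)
  have hrel0 : ∀ e : Fin m, pgen Γ (Γ.i e) * pgen Γ (Γ.l e) = pgen Γ (Γ.l e) * pgen Γ (Γ.t e) :=
    fun e => gen_rel (isPres_pgen Γ) e
  have hrel : ∀ e : Fin (28 * m), pgen Γ (f (Γ'.i e)) * pgen Γ (f (Γ'.l e))
      = pgen Γ (f (Γ'.l e)) * pgen Γ (f (Γ'.t e)) := by
    intro e
    have h1 : f (Γ'.i e) = prj Γ (Γ1.i (b.symm e)) := by
      change prj Γ (a.symm (a (Γ1.i (b.symm e)))) = _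
      rw [Equiv.symm_apply_apply]
    have h2 : f (Γ'.t e) = prj Γ (Γ1.t (b.symm e)) := by
      change prj Γ (a.symm (a (Γ1.t (b.symm e)))) = _
      rw [Equiv.symm_apply_apply]
    have h3 : f (Γ'.l e) = prj Γ (Γ1.l (b.symm e)) := by
      change prj Γ (a.symm (a (Γ1.l (b.symm e)))) = _
      rw [Equiv.symm_apply_apply]
    rw [h1, h2, h3]
    rcases b.symm e with e0 | ⟨e0, p⟩
    · have h4 : prj Γ (Γ1.l (Sum.inl e0)) = Γ.l e0 := prj_pos Γ e0 (Fin.last 27)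
      rw [h4]
      exact hrel0 e0
    · have h4 : prj Γ (Γ1.l (Sum.inr (e0, p))) = Γ.l e0 := prj_pos Γ e0 (gad.l p)
      have h5 : prj Γ (Γ1.i (Sum.inr (e0, p))) = Γ.l e0 := prj_pos Γ e0 (gad.i p)
      have h6 : prj Γ (Γ1.t (Sum.inr (e0, p))) = Γ.l e0 := prj_pos Γ e0 (gad.t p)
      rw [h4, h5, h6]
  have hkill : ∀ r ∈ Set.range Γ'.rel, FreeGroup.lift (fun v => pgen Γ (f v)) r = 1 := by
    rintro _ ⟨e, rfl⟩
    rw [LOG.rel, LOG.relw, FreeGroup.lift_mk]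
    simp only [List.map_cons, List.map_nil, List.prod_cons, List.prod_nil, cond_true, cond_false,
      mul_one]
    rw [← mul_assoc, hrel e]
    group
  let φ : PresentedGroup (Set.range Γ'.rel) →* PresentedGroup (Set.range Γ.rel) :=
    PresentedGroup.toGroup hkill
  have hφ : ∀ v, φ (pgen Γ' v) = pgen Γ (f v) := by
    intro v
    exact PresentedGroup.toGroup.of hkill
  have hf : Function.Surjective f := by
    intro v
    refine ⟨a (Sum.inl v), ?_⟩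
    change prj Γ (a.symm (a (Sum.inl v))) = v
    rw [Equiv.symm_apply_apply]
    rfl
  have hφs : Function.Surjective φ := by
    rw [← MonoidHom.range_eq_top]
    rw [eq_top_iff]
    have h1 : Subgroup.closure (Set.range (pgen Γ)) = ⊤ := by
      exact PresentedGroup.closure_range_of _
    rw [← h1, Subgroup.closure_le]
    rintro _ ⟨v, rfl⟩
    obtain ⟨u, hu⟩ := hf v
    exact ⟨pgen Γ' u, by rw [hφ u, hu]⟩
  have hφ1 : (fun v => φ (pgen Γ' (a v))) = (fun u => pgen Γ (prj Γ u)) := by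
    funext u
    rw [hφ]
    change pgen Γ (prj Γ (a.symm (a u))) = _
    rw [Equiv.symm_apply_apply]
  have hex : Exact1 Γ1 (fun v => φ (pgen Γ' (a v))) := by
    rw [hφ1]
    exact exact_glue Γ gad gad_inv (pgen Γ) (exact_of_pres (isPres_pgen Γ))
  have hK : Nonempty (ker2 Γ1 (fun v => φ (pgen Γ' (a v))) ≃+ ker2 Γ (pgen Γ)) := by
    rw [hφ1]
    exact ker_glue Γ gad gad_inv (pgen Γ)
  obtain ⟨hperf, hU⟩ := main_abs hP1 hA1 φ hφs hex hK
  exact ⟨Γ', f, φ, hT', hg', huse, hA', hf, hφ, hperf, hU⟩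

end Pool.Agent.KTR
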