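import Pool.Agent.KTR.Cls

/-!
# KTR-Kap: the second homology group by Hopf's formula

PLAN. `S = (lift γ).ker`, `γ = φ ∘ gen`; `π : ↥S →* φ.ker`, `π w = lift gen w`. Let `cls` be as in `exists_cls`. An element
`a` of `π.ker ⊓ commutator ↥S` gives `r = (a : FreeGroup V) ∈ (lift gen).ker`, `κ a = cls r`; it lies in
`ker2 Γ γ`: `bd Γ γ (cls r) v = fd γ r v = 0`, because `r ∈ ⁅S, S⁆` (derivatives vanish on commutators of elements of
`S`: `fd_mul`, `fd_inv`, `lift γ = 1`; on `S` the map `w ↦ fd γ w` is a homomorphism to an abelian group). `κ` is a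
homomorphism. Onto: for `x ∈ ker2 Γ γ` there is `r` with `cls r = x`, `fd γ r v = bd Γ γ x v = 0`, `fd_magnus` gives
`r ∈ ⁅S, S⁆`, i.e. `⟨r, _⟩ ∈ commutator ↥S` (`r ∈ S` since `lift gen r = 1`; `⁅S, S⁆ = map subtype (commutator ↥S)`).
`κ a = 1 ↔ cls r = 1 ↔ r ∈ ⁅S, (lift gen).ker⁆ ↔ a ∈ ⁅⊤, π.ker⁆` (map by `S.subtype`: the image of `⁅⊤, π.ker⁆` is
`⁅S, (lift gen).ker⁆` as the image of `π.ker` is `(lift gen).ker`, which is contained in `S`; `Subgroup.map_commutator`).
Keep helpers private.
-/

namespace Pool.Agent.KTR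

open Finset Pool.Agent.LOT

/-- the map from the kernel of `F → G` to the kernel of `H → G` -/
noncomputable def piS {V G H : Type} [Group G] [Group H] (gen : V → H) (φ : H →* G) :
    ↥(FreeGroup.lift (fun v => φ (gen v))).ker →* ↥φ.ker where
  toFun w := ⟨FreeGroup.lift gen (w : FreeGroup V), by
    have h1 : ∀ u : FreeGroup V, FreeGroup.lift (fun v => φ (gen v)) u = φ (FreeGroup.lift gen u) := by
      intro u
      have h : FreeGroup.lift (fun v => φ (gen v)) = φ.comp (FreeGroup.lift gen) := by
        ext v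
        simp
      rw [h, MonoidHom.comp_apply]
    exact (h1 _).symm.trans w.2⟩
  map_one' := by
    ext
    simp
  map_mul' a b := by
    ext
    simp

private theorem fd_comm0 {V G : Type} [Group G] [DecidableEq V] (γ : V → G) (v : V)
    (w : ↥(FreeGroup.lift γ).ker) (hw : w ∈ commutator ↥(FreeGroup.lift γ).ker) :
    fd γ (w : FreeGroup V) v = 0 := by
  let D : ↥(FreeGroup.lift γ).ker →* Multiplicative (MonoidAlgebra ℤ G) :=
    { toFun := fun w => Multiplicative.ofAdd (fd γ (w : FreeGroup V) v)
      map_one' := by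
        show Multiplicative.ofAdd (fd γ 1 v) = 1
        rw [fd_one]
        rfl
      map_mul' := by
        intro x y
        show Multiplicative.ofAdd (fd γ ((x : FreeGroup V) * (y : FreeGroup V)) v) = _
        rw [fd_mul]
        have h1 : FreeGroup.lift γ (x : FreeGroup V) = 1 := x.2
        rw [h1, ← MonoidAlgebra.one_def, one_mul]
        rfl }
  have h1 : w ∈ D.ker := Abelianization.commutator_subset_ker D hw
  exact h1

private theorem lift_comp0 {V G H : Type} [Group G] [Group H] (gen : V → H) (φ : H →* G)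
    (u : FreeGroup V) :
    FreeGroup.lift (fun v => φ (gen v)) u = φ (FreeGroup.lift gen u) := by
  have h : FreeGroup.lift (fun v => φ (gen v)) = φ.comp (FreeGroup.lift gen) := by
    ext v
    simp
  rw [h, MonoidHom.comp_apply]

private theorem piS_ker {V G H : Type} [Group G] [Group H] (gen : V → H) (φ : H →* G)
    (w : ↥(FreeGroup.lift (fun v => φ (gen v))).ker) :
    w ∈ (piS gen φ).ker ↔ (w : FreeGroup V) ∈ (FreeGroup.lift gen).ker := by
  rw [MonoidHom.mem_ker, MonoidHom.mem_ker]
  constructor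
  · intro h
    exact congrArg Subtype.val h
  · intro h
    exact Subtype.ext h

theorem exists_kap {V E G H : Type} [Group G] [Group H] [DecidableEq V] [Fintype V] [Fintype E] [DecidableEq E]
    {Γ : LOG V E} {gen : V → H} (hP : IsPres Γ gen) (hA : Asph Γ gen) (φ : H →* G) (hφ : Function.Surjective φ) :
    ∃ κ : ↥((piS gen φ).ker ⊓ commutator ↥(FreeGroup.lift (fun v => φ (gen v))).ker) →*
        Multiplicative ↥(ker2 Γ (fun v => φ (gen v))),
      Function.Surjective κ ∧
      ∀ a, κ a = 1 ↔ (a : ↥(FreeGroup.lift (fun v => φ (gen v))).ker) ∈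
        ⁅(⊤ : Subgroup ↥(FreeGroup.lift (fun v => φ (gen v))).ker), (piS gen φ).ker⁆ := by
  obtain ⟨cls, hsurj, hfd, hker⟩ := exists_cls hP hA φ hφ
  let A := ↥((piS gen φ).ker ⊓ commutator ↥(FreeGroup.lift (fun v => φ (gen v))).ker)
  let ρ : A →* ↥(FreeGroup.lift gen).ker :=
    { toFun := fun a => ⟨((a : ↥(FreeGroup.lift (fun v => φ (gen v))).ker) : FreeGroup V),
        (piS_ker gen φ _).mp a.2.1⟩
      map_one' := rfl
      map_mul' := fun _ _ => rfl }
  have hmem : ∀ a : A, (Multiplicative.toAdd (cls (ρ a))) ∈ ker2 Γ (fun v => φ (gen v)) := by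
    intro a v
    rw [← hfd]
    exact fd_comm0 (fun v => φ (gen v)) v a.1 a.2.2
  let κ : A →* Multiplicative ↥(ker2 Γ (fun v => φ (gen v))) :=
    { toFun := fun a => Multiplicative.ofAdd ⟨Multiplicative.toAdd (cls (ρ a)), hmem a⟩
      map_one' := by
        apply Multiplicative.toAdd.injective
        apply Subtype.ext
        show Multiplicative.toAdd (cls (ρ 1)) = 0
        rw [map_one, map_one]
        rfl
      map_mul' := by
        intro x y
        apply Multiplicative.toAdd.injective
        apply Subtype.ext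
        show Multiplicative.toAdd (cls (ρ (x * y))) =
          Multiplicative.toAdd (cls (ρ x)) + Multiplicative.toAdd (cls (ρ y))
        rw [map_mul, map_mul]
        rfl }
  refine ⟨κ, ?_, ?_⟩
  · intro x
    obtain ⟨r, hr⟩ := hsurj (Multiplicative.ofAdd (Multiplicative.toAdd x).1)
    have h1 : ∀ v, fd (fun v => φ (gen v)) (r : FreeGroup V) v = 0 := by
      intro v
      rw [hfd, hr]
      exact (Multiplicative.toAdd x).2 v
    have hs : Function.Surjective (FreeGroup.lift (fun v => φ (gen v))) := by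
      intro g
      obtain ⟨h, rfl⟩ := hφ g
      obtain ⟨w, rfl⟩ := hP.surj h
      exact ⟨w, lift_comp0 gen φ w⟩
    have hr1 : FreeGroup.lift gen (r : FreeGroup V) = 1 := r.2
    have hr2 : FreeGroup.lift (fun v => φ (gen v)) (r : FreeGroup V) = 1 := by
      rw [lift_comp0, hr1, map_one]
    have h2 := fd_magnus (fun v => φ (gen v)) hs r hr2 h1
    rw [← Subgroup.map_subtype_commutator] at h2
    obtain ⟨s, hs1, hs2⟩ := h2
    have hs3 : (s : FreeGroup V) = (r : FreeGroup V) := hs2
    have h3 : s ∈ (piS gen φ).ker := by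
      rw [piS_ker, hs3]
      exact r.2
    refine ⟨⟨s, ⟨h3, hs1⟩⟩, ?_⟩
    apply Multiplicative.toAdd.injective
    apply Subtype.ext
    show Multiplicative.toAdd (cls (ρ ⟨s, ⟨h3, hs1⟩⟩)) = _
    have h4 : ρ ⟨s, ⟨h3, hs1⟩⟩ = r := Subtype.ext hs3
    rw [h4, hr]
    rfl
  · intro a
    have h1 : κ a = 1 ↔ cls (ρ a) = 1 := by
      constructor
      · intro h
        have h2 := congrArg (fun z => ((Multiplicative.toAdd z :
          ↥(ker2 Γ (fun v => φ (gen v)))) : E → MonoidAlgebra ℤ G)) h
        exact Multiplicative.toAdd.injective h2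
      · intro h
        apply Multiplicative.toAdd.injective
        apply Subtype.ext
        show Multiplicative.toAdd (cls (ρ a)) = 0
        rw [h]
        rfl
    rw [h1, hker]
    have h2 : (⊤ : Subgroup ↥(FreeGroup.lift (fun v => φ (gen v))).ker).map
        (FreeGroup.lift (fun v => φ (gen v))).ker.subtype =
        (FreeGroup.lift (fun v => φ (gen v))).ker := by
      rw [← MonoidHom.range_eq_map, Subgroup.range_subtype]
    have h3 : (piS gen φ).ker.map (FreeGroup.lift (fun v => φ (gen v))).ker.subtype =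
        (FreeGroup.lift gen).ker := by
      ext w
      constructor
      · rintro ⟨s, hs1, rfl⟩
        exact (piS_ker gen φ s).mp hs1
      · intro hw
        have hw1 : FreeGroup.lift gen w = 1 := hw
        have hw2 : w ∈ (FreeGroup.lift (fun v => φ (gen v))).ker := by
          rw [MonoidHom.mem_ker, lift_comp0, hw1, map_one]
        exact ⟨⟨w, hw2⟩, (piS_ker gen φ _).mpr hw, rfl⟩
    have h4 : ⁅(FreeGroup.lift (fun v => φ (gen v))).ker, (FreeGroup.lift gen).ker⁆ =
        (⁅(⊤ : Subgroup ↥(FreeGroup.lift (fun v => φ (gen v))).ker), (piS gen φ).ker⁆).map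
          (FreeGroup.lift (fun v => φ (gen v))).ker.subtype := by
      rw [Subgroup.map_commutator, h2, h3]
    rw [h4]
    constructor
    · rintro ⟨s, hs1, hs2⟩
      have : s = (a : ↥(FreeGroup.lift (fun v => φ (gen v))).ker) := Subtype.ext hs2
      rw [← this]
      exact hs1
    · intro h
      exact ⟨_, h, rfl⟩

end Pool.Agent.KTR
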