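import Pool.Agent.KTR.Fd

/-!
# KTR-Loop: every 1-cycle is the Fox derivative of a relation, every boundary comes from a product of relators
-/

namespace Pool.Agent.KTR

open Finset Pool.Agent.LOT

/-- additive extension of a function on `G` -/
private noncomputable def DD {G M : Type} [Group G] [AddCommGroup M] (φ : G → M) :
    MonoidAlgebra ℤ G →+ M :=
  (Finsupp.liftAddHom fun g => zmultiplesHom M (φ g)).comp
    MonoidAlgebra.coeffAddEquiv.toAddMonoidHom

private theorem DD_single {G M : Type} [Group G] [AddCommGroup M] (φ : G → M) (g : G) :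
    DD φ (MonoidAlgebra.single g 1) = φ g := by
  simp [DD]

private theorem single_eq_zsmul {G : Type} [Group G] (g : G) (n : ℤ) :
    (MonoidAlgebra.single g n : MonoidAlgebra ℤ G) = n • MonoidAlgebra.single g 1 := by
  rw [MonoidAlgebra.smul_single, smul_eq_mul, mul_one]

section
variable {V E G : Type} [Group G]

private theorem mem_of_singles {I : Type} [DecidableEq I] [Fintype I]
    (T : AddSubgroup (I → MonoidAlgebra ℤ G))
    (hT : ∀ a g, (Pi.single a (MonoidAlgebra.single g 1) : I → MonoidAlgebra ℤ G) ∈ T)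
    (z : I → MonoidAlgebra ℤ G) : z ∈ T := by
  rw [← Finset.univ_sum_single z]
  refine T.sum_mem fun a _ => ?_
  generalize z a = y
  induction y using MonoidAlgebra.induction_linear with
  | zero => rw [Pi.single_zero]; exact T.zero_mem
  | add x y hx hy => rw [Pi.single_add]; exact T.add_mem hx hy
  | single g n =>
    rw [single_eq_zsmul]
    have h : (Pi.single a (n • MonoidAlgebra.single g 1) : I → MonoidAlgebra ℤ G) =
        n • Pi.single a (MonoidAlgebra.single g 1) := by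
      rw [Pi.single_smul]
    rw [h]
    exact T.zsmul_mem (hT a g) n

private theorem single_one_one : (MonoidAlgebra.single (1 : G) (1 : ℤ)) = 1 := rfl

private theorem fd_mul_ker [DecidableEq V] (γ : V → G) (u w : FreeGroup V)
    (hu : FreeGroup.lift γ u = 1) (v : V) : fd γ (u * w) v = fd γ u v + fd γ w v := by
  rw [fd_mul, hu, single_one_one, one_mul]

private theorem fd_inv_ker [DecidableEq V] (γ : V → G) (u : FreeGroup V)
    (hu : FreeGroup.lift γ u = 1) (v : V) : fd γ u⁻¹ v = -fd γ u v := by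
  rw [fd_inv, hu, inv_one, single_one_one, one_mul]

private theorem fd_mul_inv [DecidableEq V] (γ : V → G) (u w : FreeGroup V)
    (h : FreeGroup.lift γ u = FreeGroup.lift γ w) (v : V) :
    fd γ (u * w⁻¹) v = fd γ u v - fd γ w v := by
  rw [fd_mul, fd_inv, h, mul_neg, ← mul_assoc, MonoidAlgebra.single_mul_single, mul_inv_cancel,
    mul_one, single_one_one, one_mul, sub_eq_add_neg]

private theorem fd_conj [DecidableEq V] (γ : V → G) (h r : FreeGroup V)
    (hr : FreeGroup.lift γ r = 1) (v : V) :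
    fd γ (h * r * h⁻¹) v = MonoidAlgebra.single (FreeGroup.lift γ h) 1 * fd γ r v := by
  rw [fd_mul_inv γ (h * r) h (by rw [map_mul, hr, mul_one]), fd_mul]
  abel

private theorem bd1_add [Fintype V] (γ : V → G) (z z' : V → MonoidAlgebra ℤ G) :
    bd1 γ (z + z') = bd1 γ z + bd1 γ z' := by
  unfold bd1
  rw [← sum_add_distrib]
  exact sum_congr rfl fun v _ => by rw [Pi.add_apply, add_mul]

private theorem bd1_neg [Fintype V] (γ : V → G) (z : V → MonoidAlgebra ℤ G) :
    bd1 γ (-z) = -bd1 γ z := by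
  unfold bd1
  rw [← sum_neg_distrib]
  exact sum_congr rfl fun v _ => by rw [Pi.neg_apply, neg_mul]

private theorem bd1_zero [Fintype V] (γ : V → G) : bd1 γ 0 = 0 := by
  unfold bd1
  exact sum_eq_zero fun v _ => by rw [Pi.zero_apply, zero_mul]

private theorem bd1_single [Fintype V] [DecidableEq V] (γ : V → G) (a : V) (g : G) :
    bd1 γ (Pi.single a (MonoidAlgebra.single g 1)) =
      MonoidAlgebra.single (g * γ a) 1 - MonoidAlgebra.single g 1 := by
  unfold bd1
  rw [sum_eq_single a, Pi.single_eq_same, mul_sub, MonoidAlgebra.single_mul_single, mul_one,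
    mul_one]
  · intro b _ hb
    rw [Pi.single_eq_of_ne hb, zero_mul]
  · intro h
    exact absurd (mem_univ a) h

private theorem bd_add [Fintype E] [DecidableEq V] (Γ : LOG V E) (γ : V → G)
    (x y : E → MonoidAlgebra ℤ G) (v : V) : bd Γ γ (x + y) v = bd Γ γ x v + bd Γ γ y v := by
  unfold bd
  rw [← sum_add_distrib]
  exact sum_congr rfl fun e _ => by rw [Pi.add_apply, add_mul]

private theorem bd_neg [Fintype E] [DecidableEq V] (Γ : LOG V E) (γ : V → G)
    (x : E → MonoidAlgebra ℤ G) (v : V) : bd Γ γ (-x) v = -bd Γ γ x v := by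
  unfold bd
  rw [← sum_neg_distrib]
  exact sum_congr rfl fun e _ => by rw [Pi.neg_apply, neg_mul]

private theorem bd_zero [Fintype E] [DecidableEq V] (Γ : LOG V E) (γ : V → G) (v : V) :
    bd Γ γ 0 v = 0 := by
  unfold bd
  exact sum_eq_zero fun e _ => by rw [Pi.zero_apply, zero_mul]

private theorem bd_single [Fintype E] [DecidableEq E] [DecidableEq V] (Γ : LOG V E) (γ : V → G)
    (e : E) (y : MonoidAlgebra ℤ G) (v : V) : bd Γ γ (Pi.single e y) v = y * jac Γ γ e v := by
  unfold bd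
  rw [sum_eq_single e, Pi.single_eq_same]
  · intro b _ hb
    rw [Pi.single_eq_of_ne hb, zero_mul]
  · intro h
    exact absurd (mem_univ e) h

private theorem bd_mul [Fintype E] [DecidableEq V] (Γ : LOG V E) (γ : V → G)
    (c : MonoidAlgebra ℤ G) (x : E → MonoidAlgebra ℤ G) (v : V) :
    bd Γ γ (fun e => c * x e) v = c * bd Γ γ x v := by
  unfold bd
  rw [mul_sum]
  exact sum_congr rfl fun e _ => mul_assoc _ _ _

private theorem lift_rel (Γ : LOG V E) (γ : V → G)
    (hγ : ∀ e, γ (Γ.i e) * γ (Γ.l e) = γ (Γ.l e) * γ (Γ.t e)) (e : E) :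
    FreeGroup.lift γ (Γ.rel e) = 1 := by
  rw [LOG.rel, LOG.relw, FreeGroup.lift_mk]
  simp only [List.map_cons, List.map_nil, List.prod_cons, List.prod_nil, cond_true, cond_false,
    mul_one]
  rw [← mul_assoc, hγ e]
  group

private theorem closure_le (Γ : LOG V E) (γ : V → G)
    (hγ : ∀ e, γ (Γ.i e) * γ (Γ.l e) = γ (Γ.l e) * γ (Γ.t e)) :
    Subgroup.normalClosure (Set.range Γ.rel) ≤ (FreeGroup.lift γ).ker := by
  refine Subgroup.normalClosure_le_normal ?_
  rintro _ ⟨e, rfl⟩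
  exact lift_rel Γ γ hγ e

end

section
variable {V E G : Type} [Group G] [DecidableEq V] [Fintype V] [Fintype E]

/-- the chains for which the claim holds -/
private noncomputable def TT (γ : V → G) (s : G → FreeGroup V) :
    AddSubgroup (V → MonoidAlgebra ℤ G) where
  carrier := {z | ∃ w : FreeGroup V, FreeGroup.lift γ w = 1 ∧
    ∀ v, fd γ w v = z v - DD (fun g => fd γ (s g) v) (bd1 γ z)}
  zero_mem' := ⟨1, map_one _, fun v => by
    rw [fd_one, bd1_zero, map_zero, sub_zero, Pi.zero_apply]⟩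
  add_mem' := by
    rintro z z' ⟨w, h1, h2⟩ ⟨w', h3, h4⟩
    refine ⟨w * w', by rw [map_mul, h1, h3, mul_one], fun v => ?_⟩
    rw [fd_mul_ker γ w w' h1, h2, h4, bd1_add, map_add, Pi.add_apply]
    abel
  neg_mem' := by
    rintro z ⟨w, h1, h2⟩
    refine ⟨w⁻¹, by rw [map_inv, h1, inv_one], fun v => ?_⟩
    rw [fd_inv_ker γ w h1, h2, bd1_neg, map_neg, Pi.neg_apply]
    abel

private theorem TT_single (γ : V → G) (s : G → FreeGroup V)
    (hs : ∀ g, FreeGroup.lift γ (s g) = g) (a : V) (g : G) :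
    (Pi.single a (MonoidAlgebra.single g 1) : V → MonoidAlgebra ℤ G) ∈ TT γ s := by
  have h0 : FreeGroup.lift γ (s g * FreeGroup.of a) = FreeGroup.lift γ (s (g * γ a)) := by
    rw [map_mul, hs, hs, FreeGroup.lift_apply_of]
  refine ⟨s g * FreeGroup.of a * (s (g * γ a))⁻¹, ?_, fun v => ?_⟩
  · rw [map_mul, map_inv, h0, mul_inv_cancel]
  · rw [fd_mul_inv γ _ _ h0, fd_mul, fd_of, hs, bd1_single, map_sub, DD_single, DD_single]
    by_cases h : a = v
    · subst h
      rw [if_pos rfl, mul_one, Pi.single_eq_same]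
      abel
    · rw [if_neg h, mul_zero, Pi.single_eq_of_ne (Ne.symm h)]
      abel

theorem exists_loop (γ : V → G) (hs : Function.Surjective (FreeGroup.lift γ)) (z : V → MonoidAlgebra ℤ G)
    (hz : bd1 γ z = 0) : ∃ w : FreeGroup V, FreeGroup.lift γ w = 1 ∧ ∀ v, fd γ w v = z v := by
  choose s hs using hs
  obtain ⟨w, h1, h2⟩ := mem_of_singles (TT γ s) (TT_single γ s hs) z
  refine ⟨w, h1, fun v => ?_⟩
  rw [h2, hz, map_zero, sub_zero]

/-- the chains whose boundary is a Fox derivative of a product of relators -/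
private noncomputable def T2 (Γ : LOG V E) (γ : V → G)
    (hγ : ∀ e, γ (Γ.i e) * γ (Γ.l e) = γ (Γ.l e) * γ (Γ.t e)) :
    AddSubgroup (E → MonoidAlgebra ℤ G) where
  carrier := {x | ∃ r : FreeGroup V, r ∈ Subgroup.normalClosure (Set.range Γ.rel) ∧
    ∀ v, fd γ r v = bd Γ γ x v}
  zero_mem' := ⟨1, Subgroup.one_mem _, fun v => by rw [fd_one, bd_zero]⟩
  add_mem' := by
    rintro z z' ⟨w, h1, h2⟩ ⟨w', h3, h4⟩
    refine ⟨w * w', Subgroup.mul_mem _ h1 h3, fun v => ?_⟩
    rw [fd_mul_ker γ w w' (closure_le Γ γ hγ h1), h2, h4, bd_add]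
  neg_mem' := by
    rintro z ⟨w, h1, h2⟩
    refine ⟨w⁻¹, Subgroup.inv_mem _ h1, fun v => ?_⟩
    rw [fd_inv_ker γ w (closure_le Γ γ hγ h1), h2, bd_neg]

theorem exists_relprod [DecidableEq E] (Γ : LOG V E) (γ : V → G) (hs : Function.Surjective (FreeGroup.lift γ))
    (hγ : ∀ e, γ (Γ.i e) * γ (Γ.l e) = γ (Γ.l e) * γ (Γ.t e)) (x : E → MonoidAlgebra ℤ G) :
    ∃ r : FreeGroup V, r ∈ Subgroup.normalClosure (Set.range Γ.rel) ∧ ∀ v, fd γ r v = bd Γ γ x v := by
  choose s hs using hs
  refine mem_of_singles (T2 Γ γ hγ) (fun e g => ?_) x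
  refine ⟨s g * Γ.rel e * (s g)⁻¹, ?_, fun v => ?_⟩
  · exact Subgroup.normalClosure_normal.conj_mem _ (Subgroup.subset_normalClosure (Set.mem_range_self e)) _
  · rw [fd_conj γ _ _ (lift_rel Γ γ hγ e), fd_rel Γ γ hγ, hs, bd_single]

/-- the relations whose Fox derivative is a boundary -/
private noncomputable def KK (Γ : LOG V E) (γ : V → G) : Subgroup (FreeGroup V) where
  carrier := {r | FreeGroup.lift γ r = 1 ∧ ∃ x : E → MonoidAlgebra ℤ G,
    ∀ v, fd γ r v = bd Γ γ x v}
  one_mem' := ⟨map_one _, 0, fun v => by rw [fd_one, bd_zero]⟩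
  mul_mem' := by
    rintro r r' ⟨h1, x, h2⟩ ⟨h3, y, h4⟩
    refine ⟨by rw [map_mul, h1, h3, mul_one], x + y, fun v => ?_⟩
    rw [fd_mul_ker γ r r' h1, h2, h4, bd_add]
  inv_mem' := by
    rintro r ⟨h1, x, h2⟩
    refine ⟨by rw [map_inv, h1, inv_one], -x, fun v => ?_⟩
    rw [fd_inv_ker γ r h1, h2, bd_neg]

private theorem KK_normal (Γ : LOG V E) (γ : V → G) : (KK Γ γ).Normal := by
  constructor
  rintro r ⟨h1, x, h2⟩ h
  refine ⟨by rw [map_mul, map_mul, map_inv, h1, mul_one, mul_inv_cancel],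
    fun e => MonoidAlgebra.single (FreeGroup.lift γ h) 1 * x e, fun v => ?_⟩
  rw [fd_conj γ h r h1, h2, bd_mul]

theorem fd_normal [DecidableEq E] (Γ : LOG V E) (γ : V → G)
    (hγ : ∀ e, γ (Γ.i e) * γ (Γ.l e) = γ (Γ.l e) * γ (Γ.t e)) (r : FreeGroup V)
    (hr : r ∈ Subgroup.normalClosure (Set.range Γ.rel)) :
    FreeGroup.lift γ r = 1 ∧ ∃ x : E → MonoidAlgebra ℤ G, ∀ v, fd γ r v = bd Γ γ x v := by
  have hn := KK_normal Γ γ
  have h : Subgroup.normalClosure (Set.range Γ.rel) ≤ KK Γ γ := by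
    refine Subgroup.normalClosure_le_normal ?_
    rintro _ ⟨e, rfl⟩
    refine ⟨lift_rel Γ γ hγ e, Pi.single e 1, fun v => ?_⟩
    rw [fd_rel Γ γ hγ, bd_single, one_mul]
  exact h hr

theorem exact_of_pres [DecidableEq E] {Γ : LOG V E} {gen : V → G} (hP : IsPres Γ gen) : Exact1 Γ gen := by
  intro z hz
  obtain ⟨w, h1, h2⟩ := exists_loop gen hP.surj z hz
  have h3 : w ∈ Subgroup.normalClosure (Set.range Γ.rel) := by
    rw [← hP.ker]
    exact h1
  obtain ⟨-, x, hx⟩ := fd_normal Γ gen (gen_rel hP) w h3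
  exact ⟨x, fun v => by rw [← hx, h2]⟩

end

end Pool.Agent.KTR
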