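import Pool.Agent.KTR.Defs

/-!
# KTR-UceA: Hopf's construction of the universal central extension of a perfect group, first part

PLAN. `T = ⁅⊤, π.ker⁆` is a normal subgroup of `S` contained in `π.ker`; `Q = S ⧸ T`; `U = ↥(commutator Q)`;
`p : U →* N` induced by `π` (`QuotientGroup.lift`). The image of `π.ker` in `Q` is central (by definition of `T`), and it
is the kernel of `Q → N`; so `p.ker ≤ center U`. `p` is onto: the image of `commutator Q` is `commutator N = ⊤`
(`map_commutator_eq`-like lemmas: `Subgroup.map_commutator`). `U` is perfect: every element of `Q` is a product of an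
element of `commutator Q` and a central element (as `p` is onto and the kernel of `Q → N` is central), so
`commutator Q = ⁅commutator Q, commutator Q⁆`. `θ r = class of r` : for `r ∈ π.ker ⊓ commutator S` the class lies in
`commutator Q` and in the kernel; onto: an element of `commutator Q` is the class of an element `r` of `commutator S`
(`Subgroup.map_commutator`, the quotient map is onto), if it is in `p.ker` then `π r = 1`. `θ r = 1 ↔ r ∈ T`.
`hinit`: let `q : W →* N` be a central extension. As `S` is free there is `g : S →* W` with `q ∘ g = π` (`IsFreeGroup.lift`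
applied to preimages, `IsFreeGroup.ext_hom`); `g (π.ker) ≤ q.ker` is central, so `g` kills `T` and induces
`Q →* W`; restrict to `U`. Keep helpers private.
-/

namespace Pool.Agent.KTR

open Finset Pool.Agent.LOT

open scoped commutatorElement in
theorem uceA {S N : Type} [Group S] [IsFreeGroup S] [Group N] (π : S →* N) (hπ : Function.Surjective π)
    (hN : commutator N = ⊤) :
    ∃ (U : Type) (_ : Group U) (p : U →* N), Function.Surjective p ∧ p.ker ≤ Subgroup.center U ∧
      commutator U = ⊤ ∧
      (∀ (W : Type) [Group W] (q : W →* N), Function.Surjective q → q.ker ≤ Subgroup.center W →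
        ∃ s : U →* W, q.comp s = p) ∧
      ∃ θ : ↥(π.ker ⊓ commutator S) →* ↥p.ker, Function.Surjective θ ∧
        ∀ r : ↥(π.ker ⊓ commutator S), θ r = 1 ↔ (r : S) ∈ ⁅(⊤ : Subgroup S), π.ker⁆ := by
  classical
  set T : Subgroup S := ⁅(⊤ : Subgroup S), π.ker⁆ with hT
  haveI hTn : T.Normal := Subgroup.commutator_normal _ _
  have hTk : T ≤ π.ker := Subgroup.commutator_le_right _ _
  let mk : S →* S ⧸ T := QuotientGroup.mk' T
  have hmk : Function.Surjective mk := QuotientGroup.mk'_surjective T
  let pQ : S ⧸ T →* N := QuotientGroup.lift T π hTk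
  have hpm : ∀ x, pQ (mk x) = π x := fun x => rfl
  have hpQ : Function.Surjective pQ := by
    intro n
    obtain ⟨x, hx⟩ := hπ n
    exact ⟨mk x, hx⟩
  -- the kernel is central
  have hcen : ∀ a : S ⧸ T, pQ a = 1 → ∀ b : S ⧸ T, a * b = b * a := by
    intro a ha b
    obtain ⟨x, rfl⟩ := hmk a
    obtain ⟨y, rfl⟩ := hmk b
    have hx : x ∈ π.ker := ha
    have h1 : ⁅y, x⁆ ∈ T := Subgroup.commutator_mem_commutator (Subgroup.mem_top y) hx
    have h2 : mk ⁅y, x⁆ = 1 := (QuotientGroup.eq_one_iff _).2 h1
    rw [commutatorElement_def, map_mul, map_mul, map_mul, map_inv, map_inv, mul_inv_eq_one,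
      mul_inv_eq_iff_eq_mul] at h2
    exact h2.symm
  let p : ↥(commutator (S ⧸ T)) →* N := pQ.comp (commutator (S ⧸ T)).subtype
  have hcm : (commutator (S ⧸ T)).map pQ = ⊤ := by
    rw [commutator_def, Subgroup.map_commutator, Subgroup.map_top_of_surjective pQ hpQ, ← commutator_def, hN]
  have hp : Function.Surjective p := by
    intro n
    have h1 : n ∈ (commutator (S ⧸ T)).map pQ := by rw [hcm]; exact Subgroup.mem_top n
    obtain ⟨u, hu, rfl⟩ := h1
    exact ⟨⟨u, hu⟩, rfl⟩
  -- every element of Q is a product of an element of the commutator subgroup and a central element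
  have hdec : ∀ a : S ⧸ T, ∃ u ∈ commutator (S ⧸ T), ∃ c : S ⧸ T, pQ c = 1 ∧ a = u * c := by
    intro a
    obtain ⟨⟨u, hu⟩, hu2⟩ := hp (pQ a)
    have hu3 : pQ u = pQ a := hu2
    refine ⟨u, hu, u⁻¹ * a, ?_, by group⟩
    rw [map_mul, map_inv, hu3, inv_mul_cancel]
  have hperf : commutator ↥(commutator (S ⧸ T)) = ⊤ := by
    have h1 : (commutator ↥(commutator (S ⧸ T))).map (commutator (S ⧸ T)).subtype =
        ⁅commutator (S ⧸ T), commutator (S ⧸ T)⁆ := by
      rw [commutator_def (↥(commutator (S ⧸ T))), Subgroup.map_commutator]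
      have h5 : (⊤ : Subgroup ↥(commutator (S ⧸ T))).map (commutator (S ⧸ T)).subtype =
          commutator (S ⧸ T) := by
        rw [← MonoidHom.range_eq_map, Subgroup.range_subtype]
      rw [h5]
    have h2 : commutator (S ⧸ T) ≤ ⁅commutator (S ⧸ T), commutator (S ⧸ T)⁆ := by
      conv_lhs => rw [commutator_def]
      rw [Subgroup.commutator_le]
      intro a _ b _
      obtain ⟨u, hu, c, hc, rfl⟩ := hdec a
      obtain ⟨v, hv, e, he, rfl⟩ := hdec b
      have h3 : ⁅u * c, v * e⁆ = ⁅u, v⁆ := by
        have hc' := hcen c hc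
        have he' := hcen e he
        rw [commutatorElement_def, commutatorElement_def]
        calc u * c * (v * e) * (u * c)⁻¹ * (v * e)⁻¹
            = u * (c * v) * e * c⁻¹ * u⁻¹ * e⁻¹ * v⁻¹ := by group
          _ = u * (v * c) * e * c⁻¹ * u⁻¹ * e⁻¹ * v⁻¹ := by rw [hc' v]
          _ = u * v * (c * e) * c⁻¹ * u⁻¹ * e⁻¹ * v⁻¹ := by group
          _ = u * v * (e * c) * c⁻¹ * u⁻¹ * e⁻¹ * v⁻¹ := by rw [hc' e]
          _ = u * v * (e * u⁻¹) * e⁻¹ * v⁻¹ := by group
          _ = u * v * (u⁻¹ * e) * e⁻¹ * v⁻¹ := by rw [he' u⁻¹]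
          _ = u * v * u⁻¹ * v⁻¹ := by group
      rw [h3]
      exact Subgroup.commutator_mem_commutator hu hv
    rw [Subgroup.eq_top_iff']
    rintro ⟨u, hu⟩
    have h3 := h2 hu
    rw [← h1] at h3
    obtain ⟨w, hw, hw2⟩ := h3
    have h6 : w = ⟨u, hu⟩ := Subtype.ext hw2
    rw [← h6]
    exact hw
  have hmc : ∀ r : S, r ∈ commutator S → mk r ∈ commutator (S ⧸ T) := by
    intro r hr
    have h1 : mk r ∈ (commutator S).map mk := ⟨r, hr, rfl⟩
    rw [commutator_def, Subgroup.map_commutator, Subgroup.map_top_of_surjective mk hmk,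
      ← commutator_def] at h1
    exact h1
  refine ⟨↥(commutator (S ⧸ T)), inferInstance, p, hp, ?_, hperf, ?_, ?_⟩
  · rintro ⟨a, ha⟩ ha1
    have ha2 : pQ a = 1 := ha1
    rw [Subgroup.mem_center_iff]
    rintro ⟨b, hb⟩
    exact Subtype.ext (hcen a ha2 b).symm
  · intro W _ q hq hqc
    -- lift of the free group
    choose σ hσ using hq
    let g : S →* W := IsFreeGroup.lift (fun x => σ (π (IsFreeGroup.of x)))
    have hg : q.comp g = π := by
      apply IsFreeGroup.ext_hom
      intro x
      change q (g (IsFreeGroup.of x)) = π (IsFreeGroup.of x)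
      rw [IsFreeGroup.lift_of, hσ]
    have hg' : ∀ x, q (g x) = π x := fun x => by rw [← hg]; rfl
    have hgT : T ≤ g.ker := by
      rw [hT, Subgroup.commutator_le]
      intro a _ b hb
      rw [MonoidHom.mem_ker, map_commutatorElement, commutatorElement_eq_one_iff_mul_comm]
      have h1 : g b ∈ Subgroup.center W := by
        apply hqc
        rw [MonoidHom.mem_ker, hg']
        exact hb
      exact (Subgroup.mem_center_iff.1 h1) (g a)
    let gQ : S ⧸ T →* W := QuotientGroup.lift T g hgT
    refine ⟨gQ.comp (commutator (S ⧸ T)).subtype, ?_⟩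
    ext ⟨a, ha⟩
    obtain ⟨x, rfl⟩ := hmk a
    exact hg' x
  · let θ0 : ↥(π.ker ⊓ commutator S) →* ↥(commutator (S ⧸ T)) :=
      (mk.comp (π.ker ⊓ commutator S).subtype).codRestrict (commutator (S ⧸ T))
        (fun r => hmc r.1 r.2.2)
    let θ : ↥(π.ker ⊓ commutator S) →* ↥p.ker := θ0.codRestrict p.ker (fun r => r.2.1)
    refine ⟨θ, ?_, ?_⟩
    · rintro ⟨⟨a, ha⟩, ha1⟩
      have h1 : a ∈ (commutator S).map mk := by
        rw [commutator_def, Subgroup.map_commutator, Subgroup.map_top_of_surjective mk hmk,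
          ← commutator_def]
        exact ha
      obtain ⟨r, hr, rfl⟩ := h1
      refine ⟨⟨r, ?_, hr⟩, ?_⟩
      · exact ha1
      · apply Subtype.ext
        apply Subtype.ext
        rfl
    · rintro ⟨r, hr⟩
      constructor
      · intro h
        have h1 : mk r = 1 := congrArg (fun u : ↥p.ker => ((u : ↥(commutator (S ⧸ T))) : S ⧸ T)) h
        exact (QuotientGroup.eq_one_iff _).1 h1
      · intro h
        apply Subtype.ext
        apply Subtype.ext
        exact (QuotientGroup.eq_one_iff _).2 h

end Pool.Agent.KTR
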