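import Pool.Agent.KTR.Defs

/-!
# KTR-UceB: Hopf's construction of the universal central extension, second part

PLAN. Given `q : W →* U` onto with central kernel. `W' = commutator W`; `q` maps `W'` onto `commutator U = ⊤`, so
`W = W' * q.ker` and `W'` is perfect: `⁅W', W'⁆ = W'` (every commutator of `W` is a commutator of elements of `W'`
since `q.ker` is central). Let `q' = q` restricted to `↥W'`, onto `U`, kernel central. `p.comp q' : ↥W' →* N` is onto
and its kernel `K` is central in `↥W'`: for `k ∈ K`, `w ∈ W'` the commutator `⁅k, w⁆` is in `q'.ker` (because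
`q' k ∈ p.ker` is central in `U`), hence central, so `w ↦ ⁅k, w⁆` is a homomorphism from the perfect group `↥W'`
to its center (an abelian group), hence trivial (general lemma: a homomorphism from a group `P` with
`commutator P = ⊤` to a commutative group is trivial: `Abelianization` or `commutator ≤ ker`). `hinit` gives
`s : U →* ↥W'` with `(p.comp q').comp s = p`. Then `u ↦ (q' (s u)) * u⁻¹` is a homomorphism from `U` to `p.ker`, which
is central, hence trivial as `U` is perfect: `q' (s u) = u`. The splitting is `W'.subtype.comp s`. Keep helpers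
private.
-/

namespace Pool.Agent.KTR

open Finset Pool.Agent.LOT

open scoped commutatorElement

private theorem uce_g1 {W : Type} [Group W] (a b z z' : W) (c1 : ∀ g, g * z = z * g)
    (c2 : ∀ g, g * z' = z' * g) : ⁅a * z, b * z'⁆ = ⁅a, b⁆ := by
  rw [commutatorElement_def, commutatorElement_def]
  calc a * z * (b * z') * (a * z)⁻¹ * (b * z')⁻¹
      = a * (z * b) * z' * z⁻¹ * a⁻¹ * z'⁻¹ * b⁻¹ := by group
    _ = a * (b * z) * z' * z⁻¹ * a⁻¹ * z'⁻¹ * b⁻¹ := by rw [c1]
    _ = a * b * (z * z') * z⁻¹ * a⁻¹ * z'⁻¹ * b⁻¹ := by group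
    _ = a * b * (z' * z) * z⁻¹ * a⁻¹ * z'⁻¹ * b⁻¹ := by rw [c2]
    _ = a * b * (z' * a⁻¹) * z'⁻¹ * b⁻¹ := by group
    _ = a * b * (a⁻¹ * z') * z'⁻¹ * b⁻¹ := by rw [c2]
    _ = a * b * a⁻¹ * b⁻¹ := by group

private theorem uce_g2 {W : Type} [Group W] (k g g' : W) (h : g⁻¹ * ⁅k, g'⁆ = ⁅k, g'⁆ * g⁻¹) :
    ⁅k, g * g'⁆ = ⁅k, g⁆ * ⁅k, g'⁆ := by
  calc ⁅k, g * g'⁆ = k * g * k⁻¹ * (⁅k, g'⁆ * g⁻¹) := by
        rw [commutatorElement_def, commutatorElement_def]; group
    _ = k * g * k⁻¹ * (g⁻¹ * ⁅k, g'⁆) := by rw [h]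
    _ = ⁅k, g⁆ * ⁅k, g'⁆ := by rw [commutatorElement_def k g]; group

private theorem uce_perf {W U : Type} [Group W] [Group U] (q : W →* U) (hq : Function.Surjective q)
    (hk : q.ker ≤ Subgroup.center W) (hU : commutator U = ⊤) :
    (∀ u : U, ∃ w : ↥(commutator W), q w = u) ∧ commutator ↥(commutator W) = ⊤ := by
  have h1 : ∀ u : U, ∃ w : ↥(commutator W), q w = u := by
    intro u
    have h2 : (commutator W).map q = ⊤ := by
      rw [commutator_def, Subgroup.map_commutator, ← MonoidHom.range_eq_map,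
        MonoidHom.range_eq_top.mpr hq, ← commutator_def, hU]
    have h3 : u ∈ (commutator W).map q := by rw [h2]; exact Subgroup.mem_top u
    obtain ⟨w, hw, h4⟩ := h3
    exact ⟨⟨w, hw⟩, h4⟩
  refine ⟨h1, ?_⟩
  have h5 : commutator W ≤ ⁅commutator W, commutator W⁆ := by
    rw [commutator_def, Subgroup.commutator_le]
    intro a _ b _
    obtain ⟨a', ha⟩ := h1 (q a)
    obtain ⟨b', hb⟩ := h1 (q b)
    have hz : (a' : W)⁻¹ * a ∈ Subgroup.center W := by
      apply hk
      rw [MonoidHom.mem_ker, map_mul, map_inv, ha, inv_mul_cancel]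
    have hz' : (b' : W)⁻¹ * b ∈ Subgroup.center W := by
      apply hk
      rw [MonoidHom.mem_ker, map_mul, map_inv, hb, inv_mul_cancel]
    obtain ⟨z, hz0⟩ : ∃ z, z = (a' : W)⁻¹ * a := ⟨_, rfl⟩
    obtain ⟨z', hz0'⟩ : ∃ z', z' = (b' : W)⁻¹ * b := ⟨_, rfl⟩
    rw [← hz0] at hz
    rw [← hz0'] at hz'
    have e1 : a = a' * z := by rw [hz0]; group
    have e2 : b = b' * z' := by rw [hz0']; group
    have c1 : ∀ g, g * z = z * g := Subgroup.mem_center_iff.mp hz
    have c2 : ∀ g, g * z' = z' * g := Subgroup.mem_center_iff.mp hz'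
    have e3 : ⁅a, b⁆ = ⁅(a' : W), (b' : W)⁆ := by
      rw [e1, e2]
      exact uce_g1 _ _ _ _ c1 c2
    rw [e3]
    exact Subgroup.commutator_mem_commutator a'.2 b'.2
  have h6 : (commutator ↥(commutator W)).map (commutator W).subtype = commutator W := by
    rw [Subgroup.map_subtype_commutator]
    exact le_antisymm (Subgroup.commutator_le_right _ _) h5
  rw [eq_top_iff]
  intro x _
  have h7 : (x : W) ∈ (commutator ↥(commutator W)).map (commutator W).subtype := by
    rw [h6]; exact x.2
  obtain ⟨y, hy, hxy⟩ := h7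
  have h8 : y = x := Subtype.ext hxy
  rw [← h8]
  exact hy

private theorem uce_hom {G H : Type} [Group G] [Group H] (hG : commutator G = ⊤) (c : G → H)
    (hc : ∀ g, c g ∈ Subgroup.center H) (hm : ∀ g g', c (g * g') = c g * c g') (g : G) : c g = 1 := by
  let f : G →* H := MonoidHom.mk' c hm
  have h1 : commutator G ≤ f.ker := by
    rw [commutator_def, Subgroup.commutator_le]
    intro a _ b _
    rw [MonoidHom.mem_ker, map_commutatorElement, commutatorElement_eq_one_iff_mul_comm]
    exact Subgroup.mem_center_iff.mp (hc b) (c a)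
  have h2 : g ∈ f.ker := h1 (by rw [hG]; exact Subgroup.mem_top g)
  exact h2

theorem uceB {U N : Type} [Group U] [Group N] (p : U →* N) (hp : Function.Surjective p)
    (hc : p.ker ≤ Subgroup.center U) (hU : commutator U = ⊤)
    (hinit : ∀ (W : Type) [Group W] (q : W →* N), Function.Surjective q → q.ker ≤ Subgroup.center W →
      ∃ s : U →* W, q.comp s = p) : Splits U := by
  intro W _ q hq hk
  obtain ⟨h1, h2⟩ := uce_perf q hq hk hU
  let q' : ↥(commutator W) →* U := q.comp (commutator W).subtype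
  have hq' : Function.Surjective q' := h1
  have h3 : (p.comp q').ker ≤ Subgroup.center ↥(commutator W) := by
    intro k hk1
    have hk2 : q' k ∈ Subgroup.center U := hc hk1
    rw [Subgroup.mem_center_iff]
    intro w
    have h4 : ∀ w : ↥(commutator W), ⁅(k : W), (w : W)⁆ ∈ Subgroup.center W := by
      intro w
      apply hk
      rw [MonoidHom.mem_ker, map_commutatorElement, commutatorElement_eq_one_iff_mul_comm]
      exact (Subgroup.mem_center_iff.mp hk2 (q w)).symm
    have h5 : ⁅(k : W), (w : W)⁆ = 1 := by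
      refine uce_hom h2 (fun w : ↥(commutator W) => ⁅(k : W), (w : W)⁆) h4 (fun g g' => ?_) w
      have h6 := Subgroup.mem_center_iff.mp (h4 g') (g : W)⁻¹
      show ⁅(k : W), ((g * g' : ↥(commutator W)) : W)⁆ = ⁅(k : W), (g : W)⁆ * ⁅(k : W), (g' : W)⁆
      rw [Subgroup.coe_mul]
      exact uce_g2 _ _ _ h6
    rw [commutatorElement_eq_one_iff_mul_comm] at h5
    exact Subtype.ext h5.symm
  obtain ⟨s, hs⟩ := hinit ↥(commutator W) (p.comp q') (hp.comp hq') h3
  have h7 : ∀ u, q' (s u) * u⁻¹ = 1 := by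
    have h8 : ∀ u, q' (s u) * u⁻¹ ∈ Subgroup.center U := by
      intro u
      apply hc
      rw [MonoidHom.mem_ker, map_mul, map_inv]
      have h9 : p (q' (s u)) = p u := DFunLike.congr_fun hs u
      rw [h9, mul_inv_cancel]
    refine uce_hom hU (fun u => q' (s u) * u⁻¹) h8 (fun u v => ?_)
    have h10 := Subgroup.mem_center_iff.mp (h8 v) u⁻¹
    show q' (s (u * v)) * (u * v)⁻¹ = q' (s u) * u⁻¹ * (q' (s v) * v⁻¹)
    rw [map_mul, map_mul, mul_inv_rev, mul_assoc, ← mul_assoc (q' (s v)), ← h10, mul_assoc]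
  refine ⟨(commutator W).subtype.comp s, ?_⟩
  ext u
  exact mul_inv_eq_one.mp (h7 u)

end Pool.Agent.KTR
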