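import Pool.Agent.KTR.Perf
import Pool.Agent.KTR.Kap
import Pool.Agent.KTR.UceA
import Pool.Agent.KTR.UceB

/-!
# KTR-Main: the main theorem for a generator-preserving map with exactness at `C_1`

PLAN. `perfect_ker`; `S = (lift (φ ∘ gen')).ker` is free (Nielsen-Schreier, instance `subgroupIsFreeOfIsFree`);
`piS gen' φ` is onto (`hP'.surj`). `uceA` for `π = piS gen' φ`, `uceB` for `Splits`. `θ` of `uceA` and `κ` of
`exists_kap` are surjective homomorphisms of the same group `A` with the same kernel, so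
`p.ker ≃* A ⧸ ker ≃* Multiplicative (ker2 ..)` (`QuotientGroup.quotientKerEquivOfSurjective`,
`QuotientGroup.quotientMulEquivOfEq`), then `Additive p.ker ≃+ ker2 Γ' (φ ∘ gen') ≃+ K`. Keep helpers private.
-/

namespace Pool.Agent.KTR

open Finset Pool.Agent.LOT

private theorem piS_surj {V G H : Type} [Group G] [Group H] (gen : V → H)
    (hs : Function.Surjective (FreeGroup.lift gen)) (φ : H →* G) :
    Function.Surjective (piS gen φ) := by
  intro n
  obtain ⟨w, hw⟩ := hs n.1
  have h : FreeGroup.lift (fun v => φ (gen v)) = φ.comp (FreeGroup.lift gen) := by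
    ext v
    simp
  have h1 : w ∈ (FreeGroup.lift (fun v => φ (gen v))).ker := by
    rw [MonoidHom.mem_ker, h, MonoidHom.comp_apply, hw]
    exact n.2
  exact ⟨⟨w, h1⟩, Subtype.ext hw⟩

theorem main_abs {V E G H : Type} [Group G] [Group H] [DecidableEq V] [Fintype V] [Fintype E] [DecidableEq E]
    {Γ : LOG V E} {gen : V → H} (hP : IsPres Γ gen) (hA : Asph Γ gen) (φ : H →* G) (hφ : Function.Surjective φ)
    (hex : Exact1 Γ (fun v => φ (gen v))) {K : Type} [AddGroup K]
    (hK : Nonempty (ker2 Γ (fun v => φ (gen v)) ≃+ K)) :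
    commutator φ.ker = ⊤ ∧
    ∃ (U : Type) (_ : Group U) (p : U →* φ.ker), Function.Surjective p ∧ p.ker ≤ Subgroup.center U ∧
      commutator U = ⊤ ∧ Splits U ∧ Nonempty (Additive p.ker ≃+ K) := by
  have hN := perfect_ker hP φ hφ hex
  refine ⟨hN, ?_⟩
  obtain ⟨U, iU, p, hp, hc, hU, hinit, θ, hθ, hθk⟩ := uceA (piS gen φ) (piS_surj gen hP.surj φ) hN
  obtain ⟨κ, hκ, hκk⟩ := exists_kap hP hA φ hφ
  obtain ⟨eK⟩ := hK
  refine ⟨U, iU, p, hp, hc, hU, uceB p hp hc hU hinit, ?_⟩
  have hkk : θ.ker = κ.ker := by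
    ext a
    rw [MonoidHom.mem_ker, MonoidHom.mem_ker, hθk, hκk]
  let e : ↥p.ker ≃* Multiplicative ↥(ker2 Γ (fun v => φ (gen v))) :=
    (QuotientGroup.quotientKerEquivOfSurjective θ hθ).symm.trans
      ((QuotientGroup.quotientMulEquivOfEq hkk).trans
        (QuotientGroup.quotientKerEquivOfSurjective κ hκ))
  let e2 : Additive ↥p.ker ≃+ ↥(ker2 Γ (fun v => φ (gen v))) :=
    { toFun := fun x => Multiplicative.toAdd (e (Additive.toMul x))
      invFun := fun y => Additive.ofMul (e.symm (Multiplicative.ofAdd y))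
      left_inv := fun x => by simp
      right_inv := fun y => by simp
      map_add' := fun x y => by
        show Multiplicative.toAdd (e (Additive.toMul x * Additive.toMul y)) = _
        rw [map_mul]
        rfl }
  exact ⟨e2.trans eK⟩

end Pool.Agent.KTR
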