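import Pool.Agent.KTR.Loop

/-!
# KTR-Perf: the kernel is perfect

PLAN. `γ v = φ (gen v)`, `lift γ = φ.comp (lift gen)` (`FreeGroup.ext_hom`), it is onto. Let `n ∈ φ.ker`, `n = lift gen w`
(`hP.surj`), so `lift γ w = 1`. `fd_fund`: `bd1 γ (fd γ w) = 0`, so `fd γ w = bd Γ γ x` for some `x` (`hex`), and
`exists_relprod` (the relations hold for `γ` as they hold for `gen`: `gen_rel`) gives `r` in the normal closure of the
relators (so `lift gen r = 1` by `hP.ker`) with the same derivatives. As `lift γ r = 1`, `fd γ (w * r⁻¹) v = fd γ w v - fd γ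
r v = 0` and `fd_magnus` gives `w * r⁻¹ ∈ ⁅ker, ker⁆` (`ker` of `lift γ`). Apply `lift gen`: the image of `(lift γ).ker` is
contained in `φ.ker`, so `n = lift gen (w * r⁻¹) ∈ ⁅φ.ker, φ.ker⁆` (`Subgroup.map_commutator`, `Subgroup.commutator_mono`), and
`⁅φ.ker, φ.ker⁆ = (commutator ↥φ.ker).map φ.ker.subtype` (`Subgroup.map_subtype_commutator` or a short argument with
`Subgroup.map_commutator`), so `⟨n, _⟩ ∈ commutator φ.ker`. Keep helpers private.
-/

namespace Pool.Agent.KTR

open Finset Pool.Agent.LOT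

theorem perfect_ker {V E G H : Type} [Group G] [Group H] [DecidableEq V] [Fintype V] [Fintype E] [DecidableEq E]
    {Γ : LOG V E} {gen : V → H} (hP : IsPres Γ gen) (φ : H →* G) (hφ : Function.Surjective φ)
    (hex : Exact1 Γ (fun v => φ (gen v))) : commutator φ.ker = ⊤ := by
  have hcomp : FreeGroup.lift (fun v => φ (gen v)) = φ.comp (FreeGroup.lift gen) := by
    ext v
    simp
  have happ : ∀ u, FreeGroup.lift (fun v => φ (gen v)) u = φ (FreeGroup.lift gen u) := by
    intro u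
    rw [hcomp, MonoidHom.comp_apply]
  have hs : Function.Surjective (FreeGroup.lift (fun v => φ (gen v))) := by
    rw [hcomp, MonoidHom.coe_comp]
    exact hφ.comp hP.surj
  have hrel : ∀ e, φ (gen (Γ.i e)) * φ (gen (Γ.l e)) = φ (gen (Γ.l e)) * φ (gen (Γ.t e)) := by
    intro e
    rw [← map_mul, ← map_mul, gen_rel hP e]
  rw [eq_top_iff]
  rintro ⟨n, hn⟩ _
  obtain ⟨w, rfl⟩ := hP.surj n
  have hw : FreeGroup.lift (fun v => φ (gen v)) w = 1 := by
    rw [happ]
    exact hn
  have hz : bd1 (fun v => φ (gen v)) (fd (fun v => φ (gen v)) w) = 0 := by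
    rw [fd_fund, hw, ← MonoidAlgebra.one_def, sub_self]
  obtain ⟨x, hx⟩ := hex _ hz
  obtain ⟨r, hr1, hr2⟩ := exists_relprod Γ (fun v => φ (gen v)) hs hrel x
  have hr3 : FreeGroup.lift gen r = 1 := by
    rw [← MonoidHom.mem_ker, hP.ker]
    exact hr1
  have hr4 : FreeGroup.lift (fun v => φ (gen v)) r = 1 := by
    rw [happ, hr3, map_one]
  have hmem := fd_magnus (fun v => φ (gen v)) hs (w * r⁻¹)
    (by rw [map_mul, map_inv, hw, hr4, inv_one, mul_one])
    (by
      intro v
      rw [fd_mul, fd_inv, hw, hr4, inv_one, ← MonoidAlgebra.one_def, one_mul, one_mul, hr2, hx]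
      exact add_neg_cancel _)
  have h1 : FreeGroup.lift gen (w * r⁻¹) = FreeGroup.lift gen w := by
    rw [map_mul, map_inv, hr3, inv_one, mul_one]
  have h2 : FreeGroup.lift gen w ∈ ⁅φ.ker, φ.ker⁆ := by
    rw [← h1]
    have h3 : (⁅(FreeGroup.lift (fun v => φ (gen v))).ker, (FreeGroup.lift (fun v => φ (gen v))).ker⁆).map
        (FreeGroup.lift gen) ≤ ⁅φ.ker, φ.ker⁆ := by
      rw [Subgroup.map_commutator]
      have h4 : ((FreeGroup.lift (fun v => φ (gen v))).ker).map (FreeGroup.lift gen) ≤ φ.ker := by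
        rintro _ ⟨u, hu, rfl⟩
        have hu' : FreeGroup.lift (fun v => φ (gen v)) u = 1 := hu
        rw [MonoidHom.mem_ker, ← happ]
        exact hu'
      exact Subgroup.commutator_mono h4 h4
    exact h3 ⟨_, hmem, rfl⟩
  have h3 : (commutator φ.ker).map φ.ker.subtype = ⁅φ.ker, φ.ker⁆ := by
    rw [commutator_def, Subgroup.map_commutator]
    have h4 : (⊤ : Subgroup φ.ker).map φ.ker.subtype = φ.ker := by
      rw [← MonoidHom.range_eq_map, Subgroup.range_subtype]
    rw [h4]
  rw [← h3] at h2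
  obtain ⟨y, hy1, hy2⟩ := h2
  have h5 : y = ⟨FreeGroup.lift gen w, hn⟩ := Subtype.ext hy2
  rw [← h5]
  exact hy1

end Pool.Agent.KTR
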