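import Pool.Agent.KTR.Defs

/-!
# KTR-Push: push-forward of chains to `Γ`

PLAN. `bd_push`: exchange the sums; for every edge `ê` of the glued graph show
`jac (glue Γ Δ) (γ ∘ prj) ê (inl v) + ∑ p, (if Γ.l p.1 = v then jac (glue Γ Δ) (γ ∘ prj) ê (inr p) else 0)` is
`jac Γ γ e v` if `ê = inl e` and `0` if `ê = inr _`. Both are instances of: for every vertex `û` of the glued graph,
`[û = inl v] + ∑ p, [Γ.l p.1 = v] [û = inr p] = [prj Γ û = v]` (cases on `û`), applied to the three terms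
`û = i ê, t ê, l ê` of `jac` (the coefficients depend only on `ê`), and `prj Γ (pos Γ e k) = Γ.l e` for all `k`; for
`ê = inr (e, p)` the sum is `[Γ.l e = v] (1 + τ - τ - 1) = 0` with `τ = single (γ (Γ.l e)) 1`.
`bd1_push`: `∑ v̂, z v̂ * (γ (prj v̂) - 1)`, split the sum over `V ⊕ (E × Fin N)` (`Fintype.sum_sum_type`) and regroup
the second part by `v = Γ.l p.1`. Keep helpers private.
-/

namespace Pool.Agent.KTR

open Finset Pool.Agent.LOT

section
variable {V E G : Type} [Group G] {N : ℕ}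

private theorem prj_pos (Γ : LOG V E) (e : E) (k : Fin (N + 1)) : prj Γ (pos Γ e k) = Γ.l e := by
  refine Fin.cases ?_ (fun j => ?_) k
  · rfl
  · rfl

/-- the number of vertices over `v` equal to `u` -/
private theorem fib_sum [Fintype E] [DecidableEq V] [DecidableEq E] (Γ : LOG V E) (u : V ⊕ (E × Fin N)) (v : V)
    (c : MonoidAlgebra ℤ G) :
    (if u = Sum.inl v then c else 0)
        + ∑ p : E × Fin N, (if Γ.l p.1 = v then (if u = Sum.inr p then c else 0) else 0)
      = if prj Γ u = v then c else 0 := by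
  rcases u with u | q
  · have h1 : ∀ p : E × Fin N, (if Γ.l p.1 = v then
        (if (Sum.inl u : V ⊕ (E × Fin N)) = Sum.inr p then c else 0) else 0) = 0 := by
      intro p
      simp
    simp only [h1, sum_const_zero, add_zero, Sum.inl.injEq]
    rfl
  · have h0 : ¬ ((Sum.inr q : V ⊕ (E × Fin N)) = Sum.inl v) := by simp
    rw [if_neg h0, zero_add]
    have h1 : ∀ p : E × Fin N, (if Γ.l p.1 = v then
        (if (Sum.inr q : V ⊕ (E × Fin N)) = Sum.inr p then c else 0) else 0)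
        = if p = q then (if Γ.l q.1 = v then c else 0) else 0 := by
      intro p
      by_cases h : p = q
      · subst h
        simp
      · have h' : ¬ q = p := fun hh => h hh.symm
        simp [h, h']
    simp only [h1, sum_ite_eq', mem_univ, if_true]
    rfl

private theorem jac_push [Fintype E] [DecidableEq V] [DecidableEq E] (Γ : LOG V E)
    (Δ : LOG (Fin (N + 1)) (Fin N)) (γ : V → G) (y : E ⊕ (E × Fin N)) (v : V) :
    jac (glue Γ Δ) (fun u => γ (prj Γ u)) y (Sum.inl v)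
        + ∑ p : E × Fin N, (if Γ.l p.1 = v then jac (glue Γ Δ) (fun u => γ (prj Γ u)) y (Sum.inr p) else 0)
      = (if prj Γ ((glue Γ Δ).i y) = v then 1 else 0)
        + (if prj Γ ((glue Γ Δ).l y) = v then MonoidAlgebra.single (γ (prj Γ ((glue Γ Δ).i y))) 1 else 0)
        - (if prj Γ ((glue Γ Δ).t y) = v then MonoidAlgebra.single (γ (prj Γ ((glue Γ Δ).l y))) 1 else 0)
        - (if prj Γ ((glue Γ Δ).l y) = v then 1 else 0) := by
  rw [← fib_sum Γ ((glue Γ Δ).i y) v, ← fib_sum Γ ((glue Γ Δ).l y) v, ← fib_sum Γ ((glue Γ Δ).t y) v,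
    ← fib_sum Γ ((glue Γ Δ).l y) v]
  have h1 : ∀ p : E × Fin N, (if Γ.l p.1 = v then
        jac (glue Γ Δ) (fun u => γ (prj Γ u)) y (Sum.inr p) else 0)
      = (if Γ.l p.1 = v then (if (glue Γ Δ).i y = Sum.inr p then (1 : MonoidAlgebra ℤ G) else 0) else 0)
        + (if Γ.l p.1 = v then (if (glue Γ Δ).l y = Sum.inr p then
            MonoidAlgebra.single (γ (prj Γ ((glue Γ Δ).i y))) (1 : ℤ) else 0) else 0)
        - (if Γ.l p.1 = v then (if (glue Γ Δ).t y = Sum.inr p then
            MonoidAlgebra.single (γ (prj Γ ((glue Γ Δ).l y))) (1 : ℤ) else 0) else 0)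
        - (if Γ.l p.1 = v then (if (glue Γ Δ).l y = Sum.inr p then (1 : MonoidAlgebra ℤ G) else 0) else 0) := by
    intro p
    by_cases h : Γ.l p.1 = v
    · simp only [if_pos h]
      rfl
    · simp only [if_neg h]
      simp
  simp only [h1, sum_add_distrib, sum_sub_distrib]
  rw [jac]
  abel

theorem bd_push [Fintype V] [Fintype E] [DecidableEq V] [DecidableEq E]
    (Γ : LOG V E) (Δ : LOG (Fin (N + 1)) (Fin N)) (γ : V → G) (x : E ⊕ (E × Fin N) → MonoidAlgebra ℤ G) (v : V) :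
    bd (glue Γ Δ) (fun u => γ (prj Γ u)) x (Sum.inl v)
        + ∑ p : E × Fin N, (if Γ.l p.1 = v then bd (glue Γ Δ) (fun u => γ (prj Γ u)) x (Sum.inr p) else 0)
      = bd Γ γ (fun e => x (Sum.inl e)) v := by
  have h1 : ∀ p : E × Fin N, (if Γ.l p.1 = v then bd (glue Γ Δ) (fun u => γ (prj Γ u)) x (Sum.inr p) else 0)
      = ∑ y, x y * (if Γ.l p.1 = v then jac (glue Γ Δ) (fun u => γ (prj Γ u)) y (Sum.inr p) else 0) := by
    intro p
    by_cases h : Γ.l p.1 = v
    · simp only [if_pos h]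
      rfl
    · simp only [if_neg h, mul_zero, sum_const_zero]
  simp only [h1]
  rw [sum_comm]
  simp only [bd]
  rw [← sum_add_distrib]
  simp only [← mul_sum, ← mul_add, jac_push]
  rw [Fintype.sum_sum_type]
  have h2 : ∀ q : E × Fin N, prj Γ ((glue Γ Δ).i (Sum.inr q)) = Γ.l q.1 := fun q => prj_pos Γ q.1 _
  have h3 : ∀ q : E × Fin N, prj Γ ((glue Γ Δ).t (Sum.inr q)) = Γ.l q.1 := fun q => prj_pos Γ q.1 _
  have h4 : ∀ q : E × Fin N, prj Γ ((glue Γ Δ).l (Sum.inr q)) = Γ.l q.1 := fun q => prj_pos Γ q.1 _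
  have h5 : ∀ e : E, prj Γ ((glue Γ Δ).l (Sum.inl e)) = Γ.l e := fun e => prj_pos Γ e (Fin.last N)
  have h6 : ∀ e : E, prj Γ ((glue Γ Δ).i (Sum.inl e)) = Γ.i e := fun e => rfl
  have h7 : ∀ e : E, prj Γ ((glue Γ Δ).t (Sum.inl e)) = Γ.t e := fun e => rfl
  simp only [h2, h3, h4, h5, h6, h7]
  have h8 : ∀ q : E × Fin N, (if Γ.l q.1 = v then (1 : MonoidAlgebra ℤ G) else 0)
      + (if Γ.l q.1 = v then MonoidAlgebra.single (γ (Γ.l q.1)) 1 else 0)
      - (if Γ.l q.1 = v then MonoidAlgebra.single (γ (Γ.l q.1)) 1 else 0)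
      - (if Γ.l q.1 = v then 1 else 0) = 0 := by
    intro q
    abel
  simp only [h8, mul_zero, sum_const_zero, add_zero]
  rfl

theorem bd1_push [Fintype V] [Fintype E] [DecidableEq V]
    (Γ : LOG V E) (γ : V → G) (z : V ⊕ (E × Fin N) → MonoidAlgebra ℤ G) :
    bd1 (fun u => γ (prj Γ u)) z
      = bd1 γ (fun v => z (Sum.inl v) + ∑ p : E × Fin N, (if Γ.l p.1 = v then z (Sum.inr p) else 0)) := by
  simp only [bd1]
  rw [Fintype.sum_sum_type]
  simp only [add_mul, sum_add_distrib]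
  congr 1
  simp only [sum_mul]
  rw [sum_comm]
  refine sum_congr rfl (fun p _ => ?_)
  have h1 : ∀ v : V, (if Γ.l p.1 = v then z (Sum.inr p) else 0) * (MonoidAlgebra.single (γ v) 1 - 1)
      = if Γ.l p.1 = v then z (Sum.inr p) * (MonoidAlgebra.single (γ v) 1 - 1) else 0 := by
    intro v
    rw [ite_mul, zero_mul]
  simp only [h1, sum_ite_eq, mem_univ, if_true]
  rfl

end

end Pool.Agent.KTR
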